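import Pool.Agent.Lib.MP_4e5fcd_ag.HY.Base
import Pool.Agent.Lib.MP_4e5fcd_ag.CN.P2
import Pool.Agent.Lib.MP_4e5fcd_ag.K1
import Pool.Agent.Lib.MP_4e5fcd_ag.LF.J2

/-!
# HY-A2: tuples and ideals

`ordGe_iff`: `ordGe_span` with `F = Set.range f`. `ne_iff`: if `vec f m γ = 0` then all `f j` vanish to
order `m + 1`, so all elements of the ideal do (`ordGe_span`). `CA_eq_CT`: `mem_CA_span`.
`perT_of_perAt`: take the `M` of `PerAt`. Let `v ≠ 0`. If `CT f p v d` is empty for all `d ≥ 1` both sides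
are `χ (cls ∅) = 0` (`cls_empty`; `gcd d M ≥ 1`). Otherwise let `γ₀ ∈ CT f p v n`, `n ≥ 1`: then
`CA (span (range f)) p (..) d = CT f p v d` for all `d` by `CA_eq_CT`.
`perAt_of_perT`: `CA_eq_CT` again, `v = vec f n γ₀ ≠ 0` by `ne_iff`.
-/

open MvPolynomial Matrix

namespace MotMono
namespace HY

open CN

variable {N r : ℕ}

theorem ordGe_iff {n : ℕ} (f : Fin r → MvPolynomial (Fin N) ℂ) (m : ℕ) (γ : Fin N × Fin n → ℂ) :
    OrdGe (Ideal.span (Set.range f)) m γ ↔ TO f m γ := by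
  rw [ordGe_span]
  constructor
  · intro h j l hl
    exact h (f j) ⟨j, rfl⟩ l hl
  · rintro h _ ⟨j, rfl⟩ l hl
    exact h j l hl

theorem ne_iff {n : ℕ} (f : Fin r → MvPolynomial (Fin N) ℂ) (m : ℕ)
    (γ : Fin N × Fin (n + 1) → ℂ) (h : TO f m γ) :
    (∃ g ∈ Ideal.span (Set.range f), (along g γ).coeff m ≠ 0) ↔ vec f m γ ≠ 0 := by
  constructor
  · rintro ⟨g, hg, h1⟩ hv
    apply h1
    have h2 : TO f (m + 1) γ := by
      intro j l hl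
      rcases Nat.lt_succ_iff_lt_or_eq.1 hl with h3 | h3
      · exact h j l h3
      · rw [h3]
        exact congrFun hv j
    exact (ordGe_iff f (m + 1) γ).2 h2 g hg m (Nat.lt_succ_self m)
  · intro hv
    obtain ⟨j, hj⟩ := Function.ne_iff.1 hv
    exact ⟨f j, Ideal.subset_span ⟨j, rfl⟩, hj⟩

theorem mem_ordLocus_iff (f : Fin r → MvPolynomial (Fin N) ℂ) (k : ℕ)
    (γ : Fin N × Fin (k + 1) → ℂ) :
    γ ∈ ordLocus (Ideal.span (Set.range f)) k ↔ bp γ = 0 ∧ TE f k γ := by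
  have h1 : γ ∈ ordLocus (Ideal.span (Set.range f)) k ↔
      (∀ i, γ (i, 0) = 0) ∧ OrdGe (Ideal.span (Set.range f)) k γ ∧
        ∃ g ∈ Ideal.span (Set.range f), (along g γ).coeff k ≠ 0 := Iff.rfl
  rw [h1, ordGe_iff]
  constructor
  · rintro ⟨h2, h3, h4⟩
    exact ⟨funext h2, h3, (ne_iff f k γ h3).1 h4⟩
  · rintro ⟨h2, h3, h4⟩
    exact ⟨fun i => congrFun h2 i, h3, (ne_iff f k γ h3).2 h4⟩

theorem CA_eq_CT {n : ℕ} (f : Fin r → MvPolynomial (Fin N) ℂ) (γ₀ : Fin N × Fin (n + 1) → ℂ)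
    (h : TO f n γ₀) (d : ℕ) :
    CA (Ideal.span (Set.range f)) (bp γ₀) (fun g => (along g γ₀).coeff n) d =
      CT f (bp γ₀) (vec f n γ₀) d := by
  ext γ
  rw [mem_CA_span (Set.range f) γ₀ ((ordGe_iff f n γ₀).2 h) γ]
  constructor
  · rintro ⟨h1, h2⟩
    exact ⟨h1, fun j => (h2 (f j) ⟨j, rfl⟩).1, funext fun j => (h2 (f j) ⟨j, rfl⟩).2⟩
  · rintro ⟨h1, h2, h3⟩
    refine ⟨h1, ?_⟩
    rintro _ ⟨j, rfl⟩
    exact ⟨h2 j, congrFun h3 j⟩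

theorem perT_of_perAt {χ : K0 →+* ℤ} (f : Fin r → MvPolynomial (Fin N) ℂ) (p : Fin N → ℂ)
    (h : PerAt χ (Ideal.span (Set.range f)) p) : ∃ M, 0 < M ∧ PerT χ f p M := by
  obtain ⟨M, hM, h⟩ := h
  refine ⟨M, hM, fun v hv d hd => ?_⟩
  by_cases he : ∃ n, 0 < n ∧ (CT f p v n).Nonempty
  · obtain ⟨n, hn, γ₀, h1, h2, h3⟩ := he
    have h4 := h n γ₀ hn h1 ((ordGe_iff f n γ₀).2 h2)
      ((ne_iff f n γ₀ h2).2 (by rw [h3]; exact hv)) d hd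
    subst h1
    rw [CA_eq_CT f γ₀ h2, CA_eq_CT f γ₀ h2, h3] at h4
    exact h4
  · push Not at he
    rw [he d hd, he (Nat.gcd d M) (Nat.gcd_pos_of_pos_left _ hd), cls_empty, cls_empty]

theorem perAt_of_perT {χ : K0 →+* ℤ} (f : Fin r → MvPolynomial (Fin N) ℂ) (p : Fin N → ℂ)
    {M : ℕ} (hM : 0 < M) (h : PerT χ f p M) : PerAt χ (Ideal.span (Set.range f)) p := by
  refine ⟨M, hM, fun n γ₀ _ hb ho hne d hd => ?_⟩
  have h2 := (ordGe_iff f n γ₀).1 ho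
  have h3 := (ne_iff f n γ₀ h2).1 hne
  subst hb
  rw [CA_eq_CT f γ₀ h2, CA_eq_CT f γ₀ h2]
  exact h _ h3 d hd

end HY
end MotMono
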