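import Pool.Agent.Lib.MP_4e5fcd_ag.HY.Base
import Pool.Agent.Lib.MP_4e5fcd_ag.CN.P1
import Pool.Agent.Lib.MP_4e5fcd_ag.C2
import Pool.Agent.Lib.MP_4e5fcd_ag.K2

/-!
# HY-A3: constructibility

`exists_alongPoly` (CN-P1): the coefficients of `along f γ` are polynomials in `γ`. All sets are
finite Boolean combinations of conditions `P = 0`, `P ≠ 0` with polynomials `P` (see the proofs in
`CN/P1.lean`: `constr_zeroLocus`, `constr_iInter`, `constr_ne`, `Constr.comp` in `C2.lean`).
`C *ᵥ v = w`: `∀ i, ∑ j, C i j * v j = w i` (`Matrix.mulVec`, `dotProduct`). `TE`: the complement of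
`vec = 0` is `∃ j, vec .. j ≠ 0` (finite union, or the complement of an intersection).
-/

open MvPolynomial Matrix

namespace MotMono
namespace HY

open CN

variable {N r s : ℕ}

private theorem constr_vecs {n : ℕ} (f : Fin r → MvPolynomial (Fin N) ℂ) (m : ℕ)
    {E : Set (Fin r → ℂ)} (hE : Constr E) :
    Constr {γ : Fin N × Fin n → ℂ | vec f m γ ∈ E} := by
  choose P hP using fun j => exists_alongPoly (n := n) (f j) m
  have h := hE.preimage P
  have e : {x : Fin N × Fin n → ℂ | (fun j => eval x (P j)) ∈ E} =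
      {γ : Fin N × Fin n → ℂ | vec f m γ ∈ E} := by
    ext γ
    simp only [Set.mem_ofPred_eq]
    have : (fun j => eval γ (P j)) = vec f m γ := by
      funext j
      exact hP j γ
    rw [this]
  rwa [e] at h

private theorem constr_mulVec (C' : Matrix (Fin s) (Fin r) ℂ) (w : Fin s → ℂ) :
    Constr {v : Fin r → ℂ | C' *ᵥ v = w} := by
  have h : Constr (⋂ i : Fin s, {v : Fin r → ℂ |
      eval v (∑ j, C (C' i j) * X j : MvPolynomial (Fin r) ℂ) = eval v (C (w i))}) :=
    constr_iInter fun i => constr_eq _ _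
  have e : (⋂ i : Fin s, {v : Fin r → ℂ |
      eval v (∑ j, C (C' i j) * X j : MvPolynomial (Fin r) ℂ) = eval v (C (w i))}) =
      {v : Fin r → ℂ | C' *ᵥ v = w} := by
    ext v
    simp only [Set.mem_iInter, Set.mem_ofPred_eq, map_sum, map_mul, eval_C, eval_X]
    constructor
    · intro h
      funext i
      exact h i
    · intro h i
      exact congrFun h i
  rwa [e] at h

theorem constr_bp {n : ℕ} (p : Fin N → ℂ) :
    Constr {γ : Fin N × Fin (n + 1) → ℂ | bp γ = p} := by
  have h := (constr_singleton p).comp (σ := Fin N × Fin (n + 1)) (fun i => (i, 0))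
  exact h

theorem constr_TO {n : ℕ} (f : Fin r → MvPolynomial (Fin N) ℂ) (m : ℕ) :
    Constr {γ : Fin N × Fin n → ℂ | TO f m γ} := by
  have h : Constr (⋂ j : Fin r, ⋂ l : Fin m,
      {γ : Fin N × Fin n → ℂ | (along (f j) γ).coeff l = 0}) := by
    refine constr_iInter fun j => constr_iInter fun l => ?_
    obtain ⟨P, hP⟩ := exists_alongPoly (n := n) (f j) l
    have h1 := Constr.zeroSet P
    have e : {x : Fin N × Fin n → ℂ | eval x P = 0} =
        {γ : Fin N × Fin n → ℂ | (along (f j) γ).coeff l = 0} := by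
      ext γ
      simp only [Set.mem_ofPred_eq, hP]
    rwa [e] at h1
  have e : (⋂ j : Fin r, ⋂ l : Fin m,
      {γ : Fin N × Fin n → ℂ | (along (f j) γ).coeff l = 0}) =
      {γ : Fin N × Fin n → ℂ | TO f m γ} := by
    ext γ
    simp only [Set.mem_iInter, Set.mem_ofPred_eq, TO]
    constructor
    · intro h j l hl
      exact h j ⟨l, hl⟩
    · intro h j l
      exact h j l l.2
  rwa [e] at h

theorem constr_TE {n : ℕ} (f : Fin r → MvPolynomial (Fin N) ℂ) (m : ℕ) :
    Constr {γ : Fin N × Fin n → ℂ | TE f m γ} :=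
  (constr_TO f m).inter (constr_vecs f m (constr_singleton 0).compl)

theorem constr_TF {n : ℕ} (f : Fin r → MvPolynomial (Fin N) ℂ) (m : ℕ) (j₀ : Fin r) :
    Constr {γ : Fin N × Fin n → ℂ | TF f m j₀ γ} := by
  have h1 : Constr (⋂ j : Fin r, {v : Fin r → ℂ | j < j₀ → v j = 0}) := by
    refine constr_iInter fun j => ?_
    by_cases hj : j < j₀
    · have h2 := Constr.zeroSet (X j : MvPolynomial (Fin r) ℂ)
      simpa [hj] using h2
    · have h2 := constr_univ (σ := Fin r)
      refine (congrArg Constr ?_).mp h2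
      ext v
      simp [hj]
  have h2 : Constr {v : Fin r → ℂ | v j₀ ≠ 0} := by
    have h3 := constr_ne (X j₀ : MvPolynomial (Fin r) ℂ)
    simpa using h3
  have h := (constr_TO (n := n) f m).inter (constr_vecs (n := n) f m (h1.inter h2))
  have e : {γ : Fin N × Fin n → ℂ | TO f m γ} ∩ {γ : Fin N × Fin n → ℂ | vec f m γ ∈
      (⋂ j : Fin r, {v : Fin r → ℂ | j < j₀ → v j = 0}) ∩ {v : Fin r → ℂ | v j₀ ≠ 0}} =
      {γ : Fin N × Fin n → ℂ | TF f m j₀ γ} := by
    ext γ
    simp only [Set.mem_inter_iff, Set.mem_ofPred_eq, Set.mem_iInter, TF]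
  rwa [e] at h

theorem constr_CT (f : Fin r → MvPolynomial (Fin N) ℂ) (p : Fin N → ℂ) (v : Fin r → ℂ) (d : ℕ) :
    Constr (CT f p v d) :=
  (constr_bp p).inter ((constr_TO f d).inter (constr_vecs f d (constr_singleton v)))

theorem constr_RR (f : Fin r → MvPolynomial (Fin N) ℂ) (p : Fin N → ℂ)
    (C : Matrix (Fin s) (Fin r) ℂ) (w : Fin s → ℂ) (d : ℕ) : Constr (RR f p C w d) :=
  (constr_bp p).inter ((constr_TO f d).inter (constr_vecs f d (constr_mulVec C w)))

theorem constr_KK (f : Fin r → MvPolynomial (Fin N) ℂ) (p : Fin N → ℂ)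
    (C : Matrix (Fin s) (Fin r) ℂ) (m n : ℕ) : Constr (KK f p C m n) :=
  (constr_bp p).inter ((constr_TE f m).inter (constr_vecs f m (constr_mulVec C 0)))

private theorem eval_rename_inl {α β : Type} (P : MvPolynomial α ℂ) (z : α ⊕ β → ℂ) :
    eval z (rename Sum.inl P) = eval (fun q => z (Sum.inl q)) P := by
  rw [eval_rename]
  rfl

theorem constr_GG (f : Fin r → MvPolynomial (Fin N) ℂ) (p : Fin N → ℂ) (v₀ : Fin r → ℂ)
    (w : Fin s → ℂ) (d : ℕ) : Constr (GG f p v₀ w d) := by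
  choose P hP using fun j => exists_alongPoly (n := d + 1) (f j) d
  have h1 := (constr_bp (n := d) p).comp (σ := (Fin N × Fin (d + 1)) ⊕ (Fin s × Fin r)) Sum.inl
  have h2 := (constr_TO (n := d + 1) f d).comp
    (σ := (Fin N × Fin (d + 1)) ⊕ (Fin s × Fin r)) Sum.inl
  have h3 : Constr (⋂ i : Fin s, {z : (Fin N × Fin (d + 1)) ⊕ (Fin s × Fin r) → ℂ |
      eval z (∑ j, X (Sum.inr (i, j)) * rename Sum.inl (P j) :
        MvPolynomial ((Fin N × Fin (d + 1)) ⊕ (Fin s × Fin r)) ℂ) = eval z (C (w i))}) :=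
    constr_iInter fun i => constr_eq _ _
  have h4 : Constr (⋂ i : Fin s, {z : (Fin N × Fin (d + 1)) ⊕ (Fin s × Fin r) → ℂ |
      eval z (∑ j, X (Sum.inr (i, j)) * C (v₀ j) :
        MvPolynomial ((Fin N × Fin (d + 1)) ⊕ (Fin s × Fin r)) ℂ) = eval z (C (w i))}) :=
    constr_iInter fun i => constr_eq _ _
  have h := (h1.inter (h2.inter h3)).inter h4
  refine (congrArg Constr ?_).mp h
  ext z
  simp only [Set.mem_inter_iff, Set.mem_iInter, Set.mem_ofPred_eq, map_sum, map_mul, eval_C, eval_X,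
    eval_rename_inl, hP]
  constructor
  · rintro ⟨⟨ha, hb, hc⟩, hd⟩
    exact ⟨⟨ha, hb, funext fun i => hc i⟩, funext fun i => hd i⟩
  · rintro ⟨⟨ha, hb, hc⟩, hd⟩
    exact ⟨⟨ha, hb, fun i => congrFun hc i⟩, fun i => congrFun hd i⟩

/-- the vectors `v` which are multiples of `v₀` -/
theorem constr_mult {n : ℕ} (f : Fin r → MvPolynomial (Fin N) ℂ) (m : ℕ) (v₀ : Fin r → ℂ) :
    Constr {γ : Fin N × Fin n → ℂ | ∃ c : ℂ, vec f m γ = c • v₀} := by
  have h := constr_vecs (n := n) f m (constr_submodule (Submodule.span ℂ {v₀}))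
  refine (congrArg Constr ?_).mp h
  ext γ
  simp only [Set.mem_ofPred_eq, SetLike.mem_coe, Submodule.mem_span_singleton]
  constructor
  · rintro ⟨c, hc⟩
    exact ⟨c, hc.symm⟩
  · rintro ⟨c, hc⟩
    exact ⟨c, hc.symm⟩

end HY
end MotMono
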