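import Pool.Agent.Lib.MP_4e5fcd_ag.HY.Base
import Pool.Agent.Lib.MP_4e5fcd_ag.K1
import Pool.Agent.Lib.MP_4e5fcd_ag.C2

/-!
# HY-A4: families of systems of linear equations

Let `x = z ∘ inl`, `Y = z ∘ inr`. The map `(x, Y) ↦ (x, A(x) Y + b(x), Y_a (a ∉ range e))` is a regular
isomorphism of the left set onto the product (`prodSet`, `cls_prodSet`, `cls_univ`) of the right set
with the affine space of all `{a // a ∉ Set.range e} → ℂ` (`card = card α - card β`). The inverse map:
given `y` and the `Y_a`, `a ∉ range e`, let `u k = y k - b k (x) - ∑_{a ∉ range e} A k a (x) Y_a` and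
`Y_(e k) = (B⁻¹ u)_k`, where `B = (A k (e k'))(x)`: `B⁻¹ = det B⁻¹ • adjugate B` (`Matrix.inv_def`,
`Matrix.mulVec`, `Matrix.nonsing_inv_mul`, `isUnit_iff_ne_zero`). It is regular: numerator
`∑ k', adjugate (..) k k' * u k'` over the denominator `det`, polynomials in the coordinates: take the
matrix `Bp = Matrix.of fun k k' => A k (e k')` over `MvPolynomial σ ℂ`;
`(Bp.map (eval x)).det = eval x Bp.det` (`RingHom.map_det`), `RingHom.map_adjugate`; then rename to
the coordinates of the product. Constructibility of the left set: `Constr` is stable under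
preimages of polynomial maps (`Constr.preimage`/`Constr.comp`-type lemmas in `C2.lean`, `A1.lean`;
if the needed form is missing: induction on `Constr`, `eval (fun i => eval x (P i)) f = eval x (bind₁ P f)`).
-/

open MvPolynomial Matrix

namespace MotMono
namespace HY

theorem constr_polyMap {σ τ : Type} (P : τ → MvPolynomial σ ℂ) {E : Set (τ → ℂ)}
    (hE : Constr E) : Constr {x : σ → ℂ | (fun i => eval x (P i)) ∈ E} :=
  hE.preimage P

private theorem regFun_sum {σ ι : Type} {E : Set (σ → ℂ)} (s : Finset ι)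
    (f : ι → (σ → ℂ) → ℂ) (hf : ∀ i, RegFun E (f i)) : RegFun E (fun x => ∑ i ∈ s, f i x) := by
  classical
  induction s using Finset.induction_on with
  | empty => simpa using regFun_const E 0
  | insert a s ha ih =>
    simp only [Finset.sum_insert ha]
    exact (hf a).add ih

private theorem regFun_rename {σ τ : Type} (E : Set (τ → ℂ)) (ι : σ → τ) (p : MvPolynomial σ ℂ) :
    RegFun E (fun w => eval (fun q => w (ι q)) p) := by
  have h := regFun_poly E (rename ι p)
  refine h.congr fun x _ => ?_
  rw [eval_rename]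
  rfl

private theorem sum_split {α β : Type} [Fintype α] [Fintype β] (e : β → α)
    (he : Function.Injective e) [Fintype {a : α // a ∉ Set.range e}] (F : α → ℂ) :
    ∑ a, F a = ∑ k, F (e k) + ∑ a : {a : α // a ∉ Set.range e}, F a := by
  classical
  set ε : β ⊕ {a : α // a ∉ Set.range e} ≃ α :=
    (Equiv.sumCongr (Equiv.ofInjective e he) (Equiv.refl _)).trans
      (Equiv.sumCompl fun a => a ∈ Set.range e) with hε
  rw [← Equiv.sum_comp ε, Fintype.sum_sum_type]
  rfl

theorem cls_lin {σ α β : Type} [Finite σ] [Fintype α] [Fintype β] [DecidableEq β]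
    (A : β → α → MvPolynomial σ ℂ) (b : β → MvPolynomial σ ℂ) (e : β → α)
    (he : Function.Injective e) {E : Set (σ → ℂ)} (hE : Constr E)
    (hdet : ∀ x ∈ E, (Matrix.of fun k k' : β => eval x (A k (e k'))).det ≠ 0)
    {Q : Set (σ ⊕ β → ℂ)} (hQ : Constr Q) :
    cls {z : σ ⊕ α → ℂ | (fun q => z (Sum.inl q)) ∈ E ∧
        (Sum.elim (fun q => z (Sum.inl q)) fun k =>
          ∑ a, eval (fun q => z (Sum.inl q)) (A k a) * z (Sum.inr a) +
            eval (fun q => z (Sum.inl q)) (b k)) ∈ Q} =
      LL ^ (Fintype.card α - Fintype.card β) *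
        cls {z : σ ⊕ β → ℂ | (fun q => z (Sum.inl q)) ∈ E ∧ z ∈ Q} := by
  classical
  set R' : Set (σ ⊕ β → ℂ) := {z : σ ⊕ β → ℂ | (fun q => z (Sum.inl q)) ∈ E ∧ z ∈ Q} with hR'
  have hR'c : Constr R' := (hE.comp Sum.inl).inter hQ
  -- the matrices
  set Bp : Matrix β β (MvPolynomial σ ℂ) := Matrix.of fun k k' => A k (e k') with hBp
  have hM : ∀ x : σ → ℂ, (Matrix.of fun k k' : β => eval x (A k (e k'))) = (eval x).mapMatrix Bp :=
    fun x => rfl
  have hdet' : ∀ x ∈ E, eval x Bp.det ≠ 0 := by
    intro x hx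
    rw [RingHom.map_det, ← hM]
    exact hdet x hx
  have hMN : ∀ x ∈ E, ∀ k l, ∑ k', eval x (A k (e k')) *
      ((eval x Bp.det)⁻¹ * eval x (Bp.adjugate k' l)) = if k = l then 1 else 0 := by
    intro x hx k l
    have h1 := congrFun (congrFun (Matrix.mul_adjugate Bp) k) l
    have h2 := congrArg (eval x) h1
    rw [Matrix.mul_apply, map_sum, Matrix.smul_apply, smul_eq_mul, map_mul, Matrix.one_apply] at h2
    have h3 : ∑ k', eval x (A k (e k')) * ((eval x Bp.det)⁻¹ * eval x (Bp.adjugate k' l)) =
        (eval x Bp.det)⁻¹ * ∑ k', eval x (Bp k k' * Bp.adjugate k' l) := by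
      rw [Finset.mul_sum]
      refine Finset.sum_congr rfl fun k' _ => ?_
      rw [map_mul, hBp, Matrix.of_apply]
      ring
    rw [h3, h2, ← mul_assoc, inv_mul_cancel₀ (hdet' x hx), one_mul]
    split_ifs <;> simp
  have hNM : ∀ x ∈ E, ∀ k l, ∑ k', ((eval x Bp.det)⁻¹ * eval x (Bp.adjugate k k')) *
      eval x (A k' (e l)) = if k = l then 1 else 0 := by
    intro x hx k l
    have h1 := congrFun (congrFun (Matrix.adjugate_mul Bp) k) l
    have h2 := congrArg (eval x) h1
    rw [Matrix.mul_apply, map_sum, Matrix.smul_apply, smul_eq_mul, map_mul, Matrix.one_apply] at h2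
    have h3 : ∑ k', ((eval x Bp.det)⁻¹ * eval x (Bp.adjugate k k')) * eval x (A k' (e l)) =
        (eval x Bp.det)⁻¹ * ∑ k', eval x (Bp.adjugate k k' * Bp k' l) := by
      rw [Finset.mul_sum]
      refine Finset.sum_congr rfl fun k' _ => ?_
      rw [map_mul, hBp, Matrix.of_apply]
      ring
    rw [h3, h2, ← mul_assoc, inv_mul_cancel₀ (hdet' x hx), one_mul]
    split_ifs <;> simp
  -- constructibility of the left side
  set L : Set (σ ⊕ α → ℂ) := {z : σ ⊕ α → ℂ | (fun q => z (Sum.inl q)) ∈ E ∧
        (Sum.elim (fun q => z (Sum.inl q)) fun k =>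
          ∑ a, eval (fun q => z (Sum.inl q)) (A k a) * z (Sum.inr a) +
            eval (fun q => z (Sum.inl q)) (b k)) ∈ Q} with hL
  have hLc : Constr L := by
    have h1 := hQ.preimage (Sum.elim (fun q => (X (Sum.inl q) : MvPolynomial (σ ⊕ α) ℂ)) fun k =>
      ∑ a, rename Sum.inl (A k a) * X (Sum.inr a) + rename Sum.inl (b k))
    refine (congrArg Constr ?_).mp ((hE.comp (σ := σ ⊕ α) Sum.inl).inter h1)
    ext z
    simp only [hL, Set.mem_inter_iff, Set.mem_ofPred_eq]
    refine and_congr_right fun _ => ?_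
    have h2 : (fun j => eval z (Sum.elim (fun q => (X (Sum.inl q) : MvPolynomial (σ ⊕ α) ℂ)) (fun k =>
      ∑ a, rename Sum.inl (A k a) * X (Sum.inr a) + rename Sum.inl (b k)) j)) =
        (Sum.elim (fun q => z (Sum.inl q)) fun k =>
          ∑ a, eval (fun q => z (Sum.inl q)) (A k a) * z (Sum.inr a) +
            eval (fun q => z (Sum.inl q)) (b k)) := by
      funext j
      rcases j with q | k
      · simp only [Sum.elim_inl, eval_X]
      · simp only [Sum.elim_inr, map_add, map_sum, map_mul, eval_X, eval_rename]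
        rfl
    rw [h2]
  set γ := {a : α // a ∉ Set.range e} with hγ
  have hsplit : ∀ F : α → ℂ, ∑ a, F a = ∑ k, F (e k) + ∑ a : γ, F a := fun F => sum_split e he F
  have hcard : Fintype.card γ = Fintype.card α - Fintype.card β := by
    have h1 := Fintype.card_subtype_compl (fun a => a ∈ Set.range e)
    have h2 : Fintype.card {a // a ∈ Set.range e} = Fintype.card β :=
      Fintype.card_congr (Equiv.ofInjective e he).symm
    rw [h2] at h1
    exact h1
  -- the solution of the linear equations
  obtain ⟨G, hG1, hG2⟩ : ∃ G : ((σ ⊕ β) ⊕ γ → ℂ) → α → ℂ,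
      (∀ w k, G w (e k) = ∑ k', ((eval (fun q => w (Sum.inl (Sum.inl q))) Bp.det)⁻¹ *
            eval (fun q => w (Sum.inl (Sum.inl q))) (Bp.adjugate k k')) *
            (w (Sum.inl (Sum.inr k')) - eval (fun q => w (Sum.inl (Sum.inl q))) (b k') -
              ∑ a' : γ, eval (fun q => w (Sum.inl (Sum.inl q))) (A k' a') * w (Sum.inr a'))) ∧
      ∀ w (a : γ), G w a = w (Sum.inr a) := by
    refine ⟨fun w a => if h : ∃ k, e k = a then
          ∑ k', ((eval (fun q => w (Sum.inl (Sum.inl q))) Bp.det)⁻¹ *
            eval (fun q => w (Sum.inl (Sum.inl q))) (Bp.adjugate h.choose k')) *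
            (w (Sum.inl (Sum.inr k')) - eval (fun q => w (Sum.inl (Sum.inl q))) (b k') -
              ∑ a' : γ, eval (fun q => w (Sum.inl (Sum.inl q))) (A k' a') * w (Sum.inr a'))
        else w (Sum.inr ⟨a, fun h' => h h'⟩), fun w k => ?_, fun w a => ?_⟩
    · have h : ∃ k', e k' = e k := ⟨k, rfl⟩
      have hk : h.choose = k := he h.choose_spec
      simp only [dif_pos h, hk]
    · have h : ¬ ∃ k, e k = (a : α) := a.2
      simp only [dif_neg h]
      rfl
  -- `G` solves the equations
  have hsol : ∀ w : (σ ⊕ β) ⊕ γ → ℂ, (fun q => w (Sum.inl (Sum.inl q))) ∈ E → ∀ k,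
      ∑ a, eval (fun q => w (Sum.inl (Sum.inl q))) (A k a) * G w a +
        eval (fun q => w (Sum.inl (Sum.inl q))) (b k) = w (Sum.inl (Sum.inr k)) := by
    intro w hw k
    rw [hsplit]
    simp only [hG1, hG2]
    have h1 : ∀ u : β → ℂ, ∑ k', eval (fun q => w (Sum.inl (Sum.inl q))) (A k (e k')) *
        ∑ l, ((eval (fun q => w (Sum.inl (Sum.inl q))) Bp.det)⁻¹ *
            eval (fun q => w (Sum.inl (Sum.inl q))) (Bp.adjugate k' l)) * u l = u k := by
      intro u
      simp only [Finset.mul_sum]
      rw [Finset.sum_comm]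
      have h2 : ∀ l, ∑ k', eval (fun q => w (Sum.inl (Sum.inl q))) (A k (e k')) *
          (((eval (fun q => w (Sum.inl (Sum.inl q))) Bp.det)⁻¹ *
            eval (fun q => w (Sum.inl (Sum.inl q))) (Bp.adjugate k' l)) * u l) =
            (if k = l then 1 else 0) * u l := by
        intro l
        rw [← hMN _ hw k l, Finset.sum_mul]
        exact Finset.sum_congr rfl fun k' _ => by ring
      rw [Finset.sum_congr rfl fun l _ => h2 l]
      simp
    rw [h1]
    ring
  have hiso : RegIso L (prodSet R' (Set.univ : Set (γ → ℂ))) := by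
    refine ⟨fun z => Sum.elim (Sum.elim (fun q => z (Sum.inl q)) fun k =>
          ∑ a, eval (fun q => z (Sum.inl q)) (A k a) * z (Sum.inr a) +
            eval (fun q => z (Sum.inl q)) (b k)) (fun a => z (Sum.inr a.1)),
      fun w => Sum.elim (fun q => w (Sum.inl (Sum.inl q))) (G w), ?_, ?_, ?_, ?_, ?_, ?_⟩
    · intro j
      rcases j with (q | k) | a
      · exact regFun_coord _ _
      · exact (regFun_sum _ _ fun a => (regFun_rename _ _ _).mul (regFun_coord _ _)).add
          (regFun_rename _ _ _)
      · exact regFun_coord _ _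
    · intro j
      rcases j with q | a
      · exact regFun_coord _ _
      · by_cases h : a ∈ Set.range e
        · obtain ⟨k, rfl⟩ := h
          simp only [Sum.elim_inr, hG1]
          refine regFun_sum _ _ fun k' => ?_
          refine RegFun.mul (RegFun.mul (RegFun.inv (regFun_rename _ _ _) ?_)
            (regFun_rename _ _ _)) (((regFun_coord _ _).sub (regFun_rename _ _ _)).sub
              (regFun_sum _ _ fun a' => (regFun_rename _ _ _).mul (regFun_coord _ _)))
          intro x hx
          exact hdet' _ hx.1.1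
        · have h1 : (fun w : (σ ⊕ β) ⊕ γ → ℂ => Sum.elim (fun q => w (Sum.inl (Sum.inl q))) (G w)
              (Sum.inr a)) = fun w => w (Sum.inr ⟨a, h⟩) := by
            funext w
            exact hG2 w ⟨a, h⟩
          rw [h1]
          exact regFun_coord _ _
    · rintro z ⟨hz1, hz2⟩
      exact ⟨⟨hz1, hz2⟩, Set.mem_univ _⟩
    · rintro w ⟨⟨hw1, hw2⟩, -⟩
      refine ⟨hw1, ?_⟩
      refine (congrArg (· ∈ Q) ?_).mp hw2
      funext j
      rcases j with q | k
      · rfl
      · exact (hsol w hw1 k).symm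
    · rintro z ⟨hz1, hz2⟩
      funext j
      rcases j with q | a
      · rfl
      · by_cases h : a ∈ Set.range e
        · obtain ⟨k, rfl⟩ := h
          simp only [Sum.elim_inr, hG1, Sum.elim_inl]
          have h1 : ∀ k', ∑ a, eval (fun q => z (Sum.inl q)) (A k' a) * z (Sum.inr a) +
              eval (fun q => z (Sum.inl q)) (b k') - eval (fun q => z (Sum.inl q)) (b k') -
              ∑ a' : γ, eval (fun q => z (Sum.inl q)) (A k' a') * z (Sum.inr (a' : α)) =
              ∑ l, eval (fun q => z (Sum.inl q)) (A k' (e l)) * z (Sum.inr (e l)) := by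
            intro k'
            rw [hsplit]
            ring
          simp only [h1, Finset.mul_sum]
          rw [Finset.sum_comm]
          have h2 : ∀ l, ∑ k', ((eval (fun q => z (Sum.inl q)) Bp.det)⁻¹ *
              eval (fun q => z (Sum.inl q)) (Bp.adjugate k k')) *
              (eval (fun q => z (Sum.inl q)) (A k' (e l)) * z (Sum.inr (e l))) =
              (if k = l then 1 else 0) * z (Sum.inr (e l)) := by
            intro l
            rw [← hNM _ hz1 k l, Finset.sum_mul]
            exact Finset.sum_congr rfl fun k' _ => by ring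
          rw [Finset.sum_congr rfl fun l _ => h2 l]
          simp
        · exact hG2 _ ⟨a, h⟩
    · rintro w ⟨⟨hw1, hw2⟩, -⟩
      funext j
      rcases j with (q | k) | a
      · rfl
      · exact hsol w hw1 k
      · exact hG2 w a
  rw [cls_iso hLc (hR'c.prodSet constr_univ) hiso, cls_prodSet hR'c constr_univ, cls_univ, hcard,
    mul_comm]

end HY
end MotMono
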