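import Pool.Agent.Lib.MP_4e5fcd_ag.HY.R0
import Pool.Agent.Lib.MP_4e5fcd_ag.CN.C4

/-!
# HY-R4: cones over forms of one degree

`chi_fixed`: `E` is the disjoint union of its fixed points and of `{z ∈ E | ∃ q, w q ≠ 0 ∧ z q ≠ 0}` (stable), `chi_cstar`.
`perAt_cone_zero`: `E = CA (span F) 0 η m`, `m > 0`, `η` the coefficients `n` along `γ₀`: by `mem_CA_span` the conditions
are `f (γ) = η f t ^ m` for `f ∈ F`. It is stable under the weights `w (i, l) = d l - m` (`coeff_along_weight` with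
`a = d`, `b = - m`: the coefficient `l` is multiplied by `s ^ (d l - m d)`, which is `1` for `l = m`). Fixed points: `γ (i, l) = 0`
for `d l ≠ m`. If `d ∤ m`: only `γ = 0`, which is not in `E` because `η f₀ ≠ 0` for some `f₀ ∈ F` (`exOrd_span`) and
`f₀ (0) = 0`: `χ = 0`. If `m = d l₀`: the fixed points are the jets `x t ^ l₀`, `f (γ) = f (x) t ^ m`
(`coeff_along_shiftj`, CN/C3, constant jet `x`, or `along` directly), isomorphic to
`{x | ∀ f ∈ F, f (x) = η f}` (`constr_zeroLocus`), independent of `m`. So `M = d`: `d ∣ m ↔ d ∣ gcd (m, d)`.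
`per_cone`: `h = 1`; at `c ≠ 0`: `hloc` (zeros; `PerAt` at `c` itself because `eval c h ≠ 0`) or `perAt_of_ne`.
-/

open MvPolynomial

namespace MotMono
namespace HY

open CN

private theorem r4_constr_coord {τ : Type} [Finite τ] (P : τ → Prop) :
    Constr {z : τ → ℂ | ∀ q, P q → z q = 0} := by
  have h1 := constr_zeroLocus {g : MvPolynomial τ ℂ | ∃ q, P q ∧ g = X q}
  have h2 : {z : τ → ℂ | ∀ q, P q → z q = 0} =
      {x | ∀ f ∈ {g : MvPolynomial τ ℂ | ∃ q, P q ∧ g = X q}, eval x f = 0} := by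
    ext γ
    simp only [Set.mem_ofPred_eq]
    constructor
    · rintro h g ⟨q, hq, rfl⟩
      rw [eval_X]
      exact h q hq
    · intro h q hq
      have := h _ ⟨q, hq, rfl⟩
      rwa [eval_X] at this
  rw [h2]
  exact h1

theorem chi_fixed {χ : K0 →+* ℤ} (hχ : IsEulerCharF χ) {τ : Type} [Finite τ] (w : τ → ℤ)
    (E : Set (τ → ℂ)) (hE : Constr E)
    (hs : ∀ s : ℂ, s ≠ 0 → ∀ z ∈ E, (fun q => s ^ (w q) * z q) ∈ E) :
    χ (cls E) = χ (cls {z | z ∈ E ∧ ∀ q, w q ≠ 0 → z q = 0}) := by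
  have hC := r4_constr_coord fun q => w q ≠ 0
  have e1 : {z | z ∈ E ∧ ∀ q, w q ≠ 0 → z q = 0} = E ∩ {z | ∀ q, w q ≠ 0 → z q = 0} := rfl
  have h0 : χ (cls (E \ {z | ∀ q, w q ≠ 0 → z q = 0})) = 0 := by
    refine chi_cstar hχ w _ (hE.diff hC) ?_ ?_
    · rintro s hs0 z ⟨hz1, hz2⟩
      refine ⟨hs s hs0 z hz1, fun h => hz2 fun q hq => ?_⟩
      exact (mul_eq_zero.1 (h q hq)).resolve_left (zpow_ne_zero _ hs0)
    · rintro z ⟨hz1, hz2⟩
      rw [Set.mem_ofPred_eq] at hz2
      push Not at hz2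
      exact hz2
  have h1 : cls E = cls (E ∩ {z | ∀ q, w q ≠ 0 → z q = 0}) +
      cls (E \ {z | ∀ q, w q ≠ 0 → z q = 0}) := by
    rw [← cls_union (hE.inter hC) (hE.diff hC) (Set.disjoint_sdiff_inter.symm),
      Set.inter_union_sdiff]
  rw [e1, h1, map_add, h0, add_zero]

private theorem r4_zero {N n : ℕ} (f : MvPolynomial (Fin N) ℂ) (γ : Fin N × Fin n → ℂ)
    (h : ∀ q, γ q = 0) (m : ℕ) (hm : 0 < m) : (along f γ).coeff m = 0 := by
  have h1 : arc γ = fun _ => 0 := by
    funext i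
    ext l
    rw [a1_arc_coeff]
    split_ifs
    · rw [h]
      simp
    · simp
  have h2 : along f γ = Polynomial.C (constantCoeff f) := by
    unfold along
    rw [h1]
    have h3 := MvPolynomial.aeval_zero (R := ℂ) (S₁ := Polynomial ℂ) f
    exact h3
  rw [h2, Polynomial.coeff_C, if_neg hm.ne']

theorem perAt_cone_zero {χ : K0 →+* ℤ} (hχ : IsEulerCharF χ) {N d : ℕ} (hd : 0 < d)
    (F : Set (MvPolynomial (Fin N) ℂ)) (hF : ∀ f ∈ F, f.IsHomogeneous d) :
    PerAt χ (Ideal.span F) 0 := by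
  classical
  refine ⟨d, hd, fun n γ₀ hn hb ho hne m hm => ?_⟩
  have hmem : ∀ (m : ℕ) (γ : Fin N × Fin (m + 1) → ℂ),
      γ ∈ CA (Ideal.span F) 0 (fun f => (along f γ₀).coeff n) m ↔
      bp γ = 0 ∧ ∀ f ∈ F, (∀ l < m, (along f γ).coeff l = 0) ∧
        (along f γ).coeff m = (along f γ₀).coeff n := by
    intro m γ
    have h1 := mem_CA_span (m := m) F γ₀ ho γ
    rw [hb] at h1
    exact h1
  obtain ⟨f₀, hf₀, hf0⟩ : ∃ f ∈ F, (along f γ₀).coeff n ≠ 0 := by
    have h1 : γ₀ ∈ ExOrd (Ideal.span F) n := ⟨ho, hne⟩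
    rw [exOrd_span] at h1
    exact h1.2
  set V : Set (Fin N → ℂ) := {x | ∀ f ∈ F, eval x f = (along f γ₀).coeff n} with hV
  have hVc : Constr V := by
    have h1 := constr_zeroLocus {g : MvPolynomial (Fin N) ℂ |
      ∃ f ∈ F, g = f - C ((along f γ₀).coeff n)}
    have h2 : V = {x | ∀ g ∈ {g : MvPolynomial (Fin N) ℂ |
        ∃ f ∈ F, g = f - C ((along f γ₀).coeff n)}, eval x g = 0} := by
      ext x
      simp only [hV, Set.mem_ofPred_eq]
      constructor
      · rintro h g ⟨f, hf, rfl⟩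
        rw [map_sub, eval_C, h f hf, sub_self]
      · intro h f hf
        have := h _ ⟨f, hf, rfl⟩
        rw [map_sub, eval_C] at this
        exact sub_eq_zero.1 this
    rw [h2]
    exact h1
  have key : ∀ m, 0 < m → χ (cls (CA (Ideal.span F) 0 (fun f => (along f γ₀).coeff n) m)) =
      if d ∣ m then χ (cls V) else 0 := by
    intro m hm
    set E := CA (Ideal.span F) 0 (fun f => (along f γ₀).coeff n) m with hE
    have hEc : Constr E := constr_CA _ _ _ _
    have h1 := chi_fixed hχ (fun q : Fin N × Fin (m + 1) => (d : ℤ) * (q.2 : ℕ) + (-(m : ℤ))) E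
      hEc (by
        intro s hs γ hγ
        rw [hE, hmem] at hγ ⊢
        obtain ⟨h2, h3⟩ := hγ
        refine ⟨?_, fun f hf => ⟨fun l hl => ?_, ?_⟩⟩
        · funext i
          have h4 := congrFun h2 i
          show s ^ _ * γ (i, 0) = 0
          have h5 : γ (i, 0) = 0 := h4
          rw [h5, mul_zero]
        · rw [coeff_along_weight f (hF f hf) γ s hs d (-(m : ℤ)) l, (h3 f hf).1 l hl, mul_zero]
        · rw [coeff_along_weight f (hF f hf) γ s hs d (-(m : ℤ)) m, (h3 f hf).2]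
          have h6 : (d : ℤ) * (m : ℕ) + -(m : ℤ) * (d : ℕ) = 0 := by ring
          rw [h6, zpow_zero, one_mul])
    rw [h1]
    by_cases hdm : d ∣ m
    · rw [if_pos hdm]
      obtain ⟨l₀, rfl⟩ := hdm
      have hl₀ : 0 < l₀ := Nat.pos_of_mul_pos_left hm
      have hl₀m : l₀ ≤ d * l₀ := Nat.le_mul_of_pos_left l₀ hd
      have hlev : ∀ l : ℕ, ((d : ℤ) * (l : ℕ) + (-((d * l₀ : ℕ) : ℤ)) ≠ 0) ↔ l ≠ l₀ := by
        intro l
        push_cast
        constructor
        · rintro h rfl
          exact h (by ring)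
        · intro h h'
          apply h
          have h2 : (d : ℤ) * ((l : ℤ) - l₀) = 0 := by linarith
          rcases mul_eq_zero.1 h2 with h3 | h3
          · exact absurd h3 (by exact_mod_cast hd.ne')
          · have h4 : (l : ℤ) = l₀ := by linarith
            exact_mod_cast h4
      congr 1
      refine cls_iso (hEc.inter (r4_constr_coord _)) hVc ?_
      -- the values of a form along a jet with only one level
      have hval : ∀ (γ : Fin N × Fin (d * l₀ + 1) → ℂ) (x : Fin N → ℂ),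
          (∀ q, ((q.2 : ℕ)) ≠ l₀ → γ q = 0) → (∀ i, γ (i, ⟨l₀, by omega⟩) = x i) →
          ∀ f ∈ F, (∀ l < d * l₀, (along f γ).coeff l = 0) ∧
            (along f γ).coeff (d * l₀) = eval x f := by
        intro γ x h2 h3 f hf
        have h4 := coeff_along_shiftj f (hF f hf) γ
          (fun q : Fin N × Fin (d * l₀ - l₀ + 1) => if q.2 = 0 then x q.1 else 0)
          (j := l₀) (m := d * l₀ - l₀) (by omega)
          (fun i l hl => h2 (i, l) (by simp only; omega)) (by
            intro i l h5 h6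
            by_cases hl : l = 0
            · subst hl
              have h7 : (⟨0, h6⟩ : Fin (d * l₀ - l₀ + 1)) = 0 := Fin.ext (by simp)
              show γ (i, ⟨0 + l₀, h5⟩) =
                if (⟨0, h6⟩ : Fin (d * l₀ - l₀ + 1)) = 0 then x i else 0
              rw [if_pos h7, ← h3 i]
              congr 2
              exact Fin.ext (by simp)
            · show γ (i, ⟨l + l₀, h5⟩) =
                if (⟨l, h6⟩ : Fin (d * l₀ - l₀ + 1)) = 0 then x i else 0
              rw [if_neg (by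
                intro h7
                exact hl (by simpa using congrArg Fin.val h7))]
              exact h2 _ (by simp only; omega))
        refine ⟨fun l hl => h4.1 l (by rwa [mul_comm l₀ d]), ?_⟩
        have h5 := h4.2 0
        rw [zero_add, mul_comm l₀ d, LF.coeff_along_zero] at h5
        rw [h5]
        congr 1
      refine ⟨fun γ i => γ (i, ⟨l₀, by omega⟩),
        fun x q => if (q.2 : ℕ) = l₀ then x q.1 else 0,
        fun i => regFun_coord _ _, fun q => ?_, ?_, ?_, ?_, ?_⟩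
      · by_cases hq : (q.2 : ℕ) = l₀
        · simp only [hq, if_true]
          exact regFun_coord _ _
        · simp only [hq, if_false]
          exact regFun_const _ 0
      · rintro γ ⟨h2, h3⟩ f hf
        rw [hE, hmem] at h2
        have h4 := hval γ (fun i => γ (i, ⟨l₀, by omega⟩))
          (fun q hq => h3 q ((hlev _).2 hq)) (fun i => rfl) f hf
        rw [← h4.2, (h2.2 f hf).2]
      · intro x hx
        have h2 : ∀ q : Fin N × Fin (d * l₀ + 1), ((q.2 : ℕ)) ≠ l₀ →
            (if (q.2 : ℕ) = l₀ then x q.1 else 0) = 0 := fun q hq => if_neg hq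
        have h4 := hval (fun q : Fin N × Fin (d * l₀ + 1) => if (q.2 : ℕ) = l₀ then x q.1 else 0) x
          h2 (fun i => if_pos rfl)
        refine ⟨?_, fun q hq => h2 q ((hlev _).1 hq)⟩
        rw [hE, hmem]
        refine ⟨?_, fun f hf => ⟨(h4 f hf).1, ?_⟩⟩
        · funext i
          exact if_neg (by simp; omega)
        · rw [(h4 f hf).2]
          exact hx f hf
      · rintro γ ⟨h2, h3⟩
        funext q
        by_cases hq : (q.2 : ℕ) = l₀
        · simp only [hq, if_true]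
          congr 1
          exact Prod.ext rfl (Fin.ext hq.symm)
        · simp only [hq, if_false]
          exact (h3 q ((hlev _).2 hq)).symm
      · intro x hx
        funext i
        exact if_pos rfl
    · rw [if_neg hdm]
      have h2 : {z | z ∈ E ∧ ∀ q : Fin N × Fin (m + 1),
          (d : ℤ) * (q.2 : ℕ) + (-(m : ℤ)) ≠ 0 → z q = 0} = ∅ := by
        rw [Set.eq_empty_iff_forall_notMem]
        rintro γ ⟨h3, h4⟩
        rw [hE, hmem] at h3
        apply hf0
        rw [← (h3.2 f₀ hf₀).2]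
        refine r4_zero f₀ γ (fun q => h4 q fun h5 => hdm ?_) m hm
        have h6 : (m : ℤ) = (d : ℤ) * (q.2 : ℕ) := by linarith
        exact ⟨(q.2 : ℕ), by exact_mod_cast h6⟩
      rw [h2, cls_empty, map_zero]
  rw [key m hm, key _ (Nat.gcd_pos_of_pos_left _ hm)]
  have h9 : d ∣ m ↔ d ∣ Nat.gcd m d :=
    ⟨fun h => Nat.dvd_gcd h dvd_rfl, fun h => h.trans (Nat.gcd_dvd_left m d)⟩
  by_cases hc : d ∣ m
  · rw [if_pos hc, if_pos (h9.1 hc)]
  · rw [if_neg hc, if_neg fun h => hc (h9.2 h)]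

theorem per_cone {χ : K0 →+* ℤ} (hχ : IsEulerCharF χ) {N d : ℕ} (hd : 0 < d)
    (F : Set (MvPolynomial (Fin N) ℂ)) (hF : ∀ f ∈ F, f.IsHomogeneous d)
    (hloc : ∀ c : Fin N → ℂ, c ≠ 0 → (∀ f ∈ F, eval c f = 0) → Per χ (Ideal.span F) c) :
    Per χ (Ideal.span F) 0 := by
  refine ⟨1, by simp, fun q _ => ?_⟩
  by_cases h0 : q = 0
  · rw [h0]
    exact perAt_cone_zero hχ hd F hF
  by_cases h : ∀ f ∈ F, eval q f = 0
  · obtain ⟨g, hg, hP⟩ := hloc q h0 h
    exact hP q hg
  · push Not at h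
    obtain ⟨f, hf, hf0⟩ := h
    exact perAt_of_ne ⟨f, Ideal.subset_span hf, hf0⟩

end HY
end MotMono
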