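import Pool.Agent.Lib.MP_4e5fcd_ag.HY.B3
import Pool.Agent.Lib.MP_4e5fcd_ag.LF.X5

/-!
# HY-B4: inversion of the Radon transform, and the period of the numbers `χ (RR)`

`radon`: `LF.fubini_C` with `ι = S` (subtype), `τ = Fin s × Fin r`, `X e = GG f p v₀ w e`, `c e = W e`: the fibre over `C` is
`RR f p C w e` if `C v₀ = w` and empty otherwise. Then `chi_GG`. (`Finset.sum_coe_sort`, `Finset.sum_attach`.)
`per_RR`: `LF.x4_fub2` with `τ = Fin r`, `X₁ = {(γ, v) | γ ∈ RR f p C w d, v = vec f d γ}`, `X₂` the same with `gcd d M`,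
coefficients `1, -1`. `cls X₁ = cls (RR ..)` (regular isomorphism onto the graph: the coordinates of
`vec f d γ` are polynomials in `γ`, `exists_alongPoly`). The fibre over `v` is `CT f p v d` if `C v = w` and empty
otherwise; `w ≠ 0` gives `v ≠ 0`; `PerT`.
-/

open MvPolynomial Matrix

namespace MotMono
namespace HY

open CN

variable {N r s : ℕ}

theorem radon {χ : K0 →+* ℤ} (hχ : IsEulerCharF χ) (f : Fin r → MvPolynomial (Fin N) ℂ)
    (p : Fin N → ℂ) {v₀ : Fin r → ℂ} (hv₀ : v₀ ≠ 0) {w : Fin s → ℂ} (hw : w ≠ 0)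
    (S : Finset ℕ) (hS : ∀ e ∈ S, 0 < e) (W : ℕ → ℂ)
    (h : ∀ C : Matrix (Fin s) (Fin r) ℂ,
      ∑ e ∈ S, W e * ((χ (cls (RR f p C w e)) : ℤ) : ℂ) = 0) :
    ∑ e ∈ S, W e * ((χ (cls (CT f p v₀ e)) : ℤ) : ℂ) = 0 := by
  have key := LF.fubini_C hχ (ι := S) (τ := Fin s × Fin r)
    (fun e => Fin N × Fin ((e : ℕ) + 1)) (fun e => GG f p v₀ w (e : ℕ))
    (fun e => constr_GG f p v₀ w (e : ℕ)) (fun e => W (e : ℕ)) (fun y => by
      set C : Matrix (Fin s) (Fin r) ℂ := Matrix.of fun i j => y (i, j) with hC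
      by_cases hy : C *ᵥ v₀ = w
      · have e1 : ∀ e : S, {x : Fin N × Fin ((e : ℕ) + 1) → ℂ |
            Sum.elim x y ∈ GG f p v₀ w (e : ℕ)} = RR f p C w (e : ℕ) := by
          intro e
          ext x
          exact ⟨fun hx => hx.1, fun hx => ⟨hx, hy⟩⟩
        simp only [e1]
        rw [Finset.sum_coe_sort S (fun e => W e * ((χ (cls (RR f p C w e)) : ℤ) : ℂ))]
        exact h C
      · have e1 : ∀ e : S, {x : Fin N × Fin ((e : ℕ) + 1) → ℂ |
            Sum.elim x y ∈ GG f p v₀ w (e : ℕ)} = ∅ := by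
          intro e
          ext x
          simp only [Set.mem_ofPred_eq, Set.mem_empty_iff_false, iff_false]
          exact fun hx => hy hx.2
        simp only [e1, cls_empty, map_zero, Int.cast_zero, mul_zero, Finset.sum_const_zero])
  rw [Finset.sum_coe_sort S (fun e => W e * ((χ (cls (GG f p v₀ w e)) : ℤ) : ℂ))] at key
  rw [← key]
  apply Finset.sum_congr rfl
  intro e he
  rw [chi_GG hχ f p hv₀ hw (hS e he)]

theorem cls_graph_RR (f : Fin r → MvPolynomial (Fin N) ℂ) (p : Fin N → ℂ)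
    (C : Matrix (Fin s) (Fin r) ℂ) (w : Fin s → ℂ) (d : ℕ) :
    Constr {z : (Fin N × Fin (d + 1)) ⊕ Fin r → ℂ | (fun q => z (Sum.inl q)) ∈ RR f p C w d ∧
        (fun j => z (Sum.inr j)) = vec f d fun q => z (Sum.inl q)} ∧
      cls {z : (Fin N × Fin (d + 1)) ⊕ Fin r → ℂ | (fun q => z (Sum.inl q)) ∈ RR f p C w d ∧
        (fun j => z (Sum.inr j)) = vec f d fun q => z (Sum.inl q)} = cls (RR f p C w d) := by
  choose P hP using fun j : Fin r => exists_alongPoly (n := d + 1) (f j) d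
  have hR := constr_RR f p C w d
  have hG : Constr {z : (Fin N × Fin (d + 1)) ⊕ Fin r → ℂ |
      (fun q => z (Sum.inl q)) ∈ RR f p C w d ∧
        (fun j => z (Sum.inr j)) = vec f d fun q => z (Sum.inl q)} := by
    have h1 := hR.comp (Sum.inl : Fin N × Fin (d + 1) → (Fin N × Fin (d + 1)) ⊕ Fin r)
    have h2 : ∀ j : Fin r, Constr {z : (Fin N × Fin (d + 1)) ⊕ Fin r → ℂ |
        eval z (X (Sum.inr j) : MvPolynomial ((Fin N × Fin (d + 1)) ⊕ Fin r) ℂ) =
          eval z (rename Sum.inl (P j))} := fun j => constr_eq _ _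
    have h3 := h1.inter (constr_iInter h2)
    convert h3 using 1
    ext z
    simp only [Set.mem_ofPred_eq, Set.mem_inter_iff, Set.mem_iInter, eval_X, eval_rename]
    refine and_congr_right fun _ => ?_
    rw [funext_iff]
    refine forall_congr' fun j => ?_
    have h4 : eval (z ∘ Sum.inl) (P j) = (along (f j) fun q => z (Sum.inl q)).coeff d :=
      hP j (z ∘ Sum.inl)
    rw [h4]
    rfl
  refine ⟨hG, ?_⟩
  refine (cls_iso hR hG ?_).symm
  refine ⟨fun γ => Sum.elim γ (vec f d γ), fun z q => z (Sum.inl q), ?_, fun q => regFun_coord _ _,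
    ?_, fun z hz => hz.1, fun γ _ => rfl, ?_⟩
  · rintro (q | j)
    · exact regFun_coord _ q
    · refine (regFun_poly _ (P j)).congr ?_
      intro x _
      exact hP j x
  · intro γ hγ
    exact ⟨hγ, rfl⟩
  · intro z hz
    funext i
    rcases i with q | j
    · rfl
    · exact (congrFun hz.2 j).symm

theorem per_RR {χ : K0 →+* ℤ} (hχ : IsEulerCharF χ) (f : Fin r → MvPolynomial (Fin N) ℂ)
    (p : Fin N → ℂ) {M : ℕ} (hM : 0 < M) (h : PerT χ f p M) (C : Matrix (Fin s) (Fin r) ℂ)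
    {w : Fin s → ℂ} (hw : w ≠ 0) {d : ℕ} (hd : 0 < d) :
    χ (cls (RR f p C w d)) = χ (cls (RR f p C w (Nat.gcd d M))) := by
  obtain ⟨c1, e1⟩ := cls_graph_RR f p C w d
  obtain ⟨c2, e2⟩ := cls_graph_RR f p C w (Nat.gcd d M)
  have hfib : ∀ (y : Fin r → ℂ) (e : ℕ), χ (cls {x : Fin N × Fin (e + 1) → ℂ |
      Sum.elim x y ∈ {z : (Fin N × Fin (e + 1)) ⊕ Fin r → ℂ |
        (fun q => z (Sum.inl q)) ∈ RR f p C w e ∧
        (fun j => z (Sum.inr j)) = vec f e fun q => z (Sum.inl q)}}) =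
      if C *ᵥ y = w then χ (cls (CT f p y e)) else 0 := by
    intro y e
    split_ifs with hy
    · congr 2
      ext x
      constructor
      · rintro ⟨⟨h1, h2, -⟩, h3⟩
        exact ⟨h1, h2, h3.symm⟩
      · rintro ⟨h1, h2, h3⟩
        refine ⟨⟨h1, h2, ?_⟩, h3.symm⟩
        change C *ᵥ vec f e x = w
        rw [h3, hy]
    · have e3 : {x : Fin N × Fin (e + 1) → ℂ |
          Sum.elim x y ∈ {z : (Fin N × Fin (e + 1)) ⊕ Fin r → ℂ |
            (fun q => z (Sum.inl q)) ∈ RR f p C w e ∧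
            (fun j => z (Sum.inr j)) = vec f e fun q => z (Sum.inl q)}} = ∅ := by
        ext x
        simp only [Set.mem_ofPred_eq, Set.mem_empty_iff_false, iff_false]
        rintro ⟨⟨-, -, h2⟩, h3⟩
        apply hy
        have h4 : y = vec f e x := h3
        rw [h4]
        exact h2
      rw [e3, cls_empty, map_zero]
  have key := LF.x4_fub2 hχ c1 c2 1 (-1) (fun y => by
    rw [hfib y d, hfib y (Nat.gcd d M)]
    by_cases hy : C *ᵥ y = w
    · rw [if_pos hy, if_pos hy]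
      have hy0 : y ≠ 0 := by
        rintro rfl
        rw [Matrix.mulVec_zero] at hy
        exact hw hy.symm
      rw [h y hy0 d hd]
      ring
    · rw [if_neg hy, if_neg hy]
      ring)
  rw [e1, e2] at key
  linarith

end HY
end MotMono
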