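import Pool.Agent.Lib.MP_4e5fcd_ag.TV.Y3
import Pool.Agent.Lib.MP_4e5fcd_ag.TV.Y6
import Pool.Agent.Lib.MP_4e5fcd_ag.CN.P3
import Pool.Agent.Lib.MP_4e5fcd_ag.CN.P4

/-!
# HY-E2: powers and products in disjoint variables: the zeta functions at the origin

`zmot_pow`: `Zf_pow` (TV/Y3) with `Γ = {0}`, `σ = Empty` and `Zf_zero`, `cls_singleton` (see `HY.zmot_of_ureg` in HY/D1.lean):
`Zmot (I ^ k) = expand k (Zmot I)`. `exists_ubd` for `Zmot I`, then `den_expand`, `ubd_expand`, `mem_of_ubd`.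
`zmot_box`: `coeff_box` and `row_left` (TV/Y6) with `Γ = {0}`: the coefficient of `T ^ i` of `Zf I (par1 J {0} j)` is
`algebraMap (cls (ordLocus J j)) * (coefficient of Zmot I)` (`Zf_zero`: the base points of `par1 J {0} j` are `0`;
`cls (par1 J {0} j) = cls (ordLocus J j)`: isomorphic by forgetting the zero base point), so
`Zmot (boxProd I J) = Zmot I * Zmot J`. (The factor `L^(-M (j+1))` in `row_left` gives the coefficient of `Zmot J`.)
-/

open MvPolynomial

namespace MotMono
namespace HY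

open CN TV

private theorem e2_zf {N : ℕ} (I : Ideal (MvPolynomial (Fin N) ℂ)) :
    Zf I ({0} : Set (Empty ⊕ Fin N → ℂ)) = Zmot I := by
  rw [Zf_zero I (constr_singleton 0) (by
    intro z hz i
    rw [Set.mem_singleton_iff] at hz
    subst hz
    rfl), cls_singleton, map_one, map_one, one_mul]

theorem zmot_pow {s₀ : ℚ} {N : ℕ} (I : Ideal (MvPolynomial (Fin N) ℂ)) {k : ℕ} (hk : 0 < k)
    (h : Zmot I ∈ polarRing (k * s₀)) : Zmot (I ^ k) ∈ polarRing s₀ := by
  obtain ⟨D, hD, K, hK⟩ := exists_ubd h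
  rw [← e2_zf, Zf_pow I hk.ne' (constr_singleton 0), e2_zf]
  exact mem_of_ubd (den_expand hk.ne' hD) (ubd_expand hk.ne' hK)

private theorem e2_par {N M : ℕ} (J : Ideal (MvPolynomial (Fin M) ℂ)) (j : ℕ)
    (z : (Empty ⊕ (Fin M × Fin (j + 1))) ⊕ Fin N → ℂ) :
    z ∈ par1 J ({0} : Set (Empty ⊕ Fin (N + M) → ℂ)) j ↔
      (∀ a, z (Sum.inr a) = 0) ∧ (fun q => z (Sum.inl (Sum.inr q))) ∈ ordLocus J j := by
  have e : (Sum.elim (fun s => z (Sum.inl (Sum.inl s)))
      (Fin.append (fun a => z (Sum.inr a)) fun b => z (Sum.inl (Sum.inr (b, 0)))) ∈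
        ({0} : Set (Empty ⊕ Fin (N + M) → ℂ))) ↔
      (∀ a, z (Sum.inr a) = 0) ∧ ∀ b, z (Sum.inl (Sum.inr (b, 0))) = 0 := by
    rw [Set.mem_singleton_iff]
    constructor
    · intro h
      refine ⟨fun a => ?_, fun b => ?_⟩
      · have h1 := congrFun h (Sum.inr (Fin.castAdd M a))
        rw [Sum.elim_inr, Fin.append_left] at h1
        exact h1
      · have h1 := congrFun h (Sum.inr (Fin.natAdd N b))
        rw [Sum.elim_inr, Fin.append_right] at h1
        exact h1
    · rintro ⟨h1, h2⟩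
      funext s
      rcases s with s | i
      · exact s.elim
      · rw [Sum.elim_inr]
        induction i using Fin.addCases with
        | left a =>
          rw [Fin.append_left]
          exact h1 a
        | right b =>
          rw [Fin.append_right]
          exact h2 b
  have e' : (fun q => z (Sum.inl (Sum.inr q))) ∈ ordLocus J j ↔
      (∀ b, z (Sum.inl (Sum.inr (b, 0))) = 0) ∧
        (fun q => z (Sum.inl (Sum.inr q))) ∈ ExOrd J j := Iff.rfl
  rw [e', ← and_assoc, ← e]
  rfl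

private theorem e2_cls {N M : ℕ} (J : Ideal (MvPolynomial (Fin M) ℂ)) (j : ℕ) :
    cls (par1 J ({0} : Set (Empty ⊕ Fin (N + M) → ℂ)) j) = cls (ordLocus J j) := by
  refine cls_iso (constr_par1 J (constr_singleton 0) j) (constr_ordLocus J j) ?_
  refine ⟨fun z q => z (Sum.inl (Sum.inr q)),
    fun w => Sum.elim (Sum.elim (fun s => s.elim) w) fun _ => 0, ?_, ?_, ?_, ?_, ?_, ?_⟩
  · intro q
    exact regFun_coord _ _
  · rintro ((s | q) | a)
    · exact s.elim
    · exact regFun_coord _ q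
    · exact regFun_const _ 0
  · intro z hz
    exact ((e2_par J j z).1 hz).2
  · intro w hw
    exact (e2_par J j _).2 ⟨fun _ => rfl, hw⟩
  · intro z hz
    funext s
    rcases s with (s | q) | a
    · exact s.elim
    · rfl
    · exact (((e2_par J j z).1 hz).1 a).symm
  · intro w _
    rfl

theorem zmot_box {s₀ : ℚ} {N M : ℕ} (I : Ideal (MvPolynomial (Fin N) ℂ))
    (J : Ideal (MvPolynomial (Fin M) ℂ)) (hI : Zmot I ∈ polarRing s₀)
    (hJ : Zmot J ∈ polarRing s₀) : Zmot (boxProd I J) ∈ polarRing s₀ := by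
  have key : Zmot (boxProd I J) = Zmot I * Zmot J := by
    ext k
    rw [← e2_zf (boxProd I J), coeff_box I J (constr_singleton 0), PowerSeries.coeff_mul]
    refine Finset.sum_congr rfl fun p _ => ?_
    rw [row_left I J (constr_singleton 0),
      Zf_zero I (constr_par1 J (constr_singleton 0) p.2)
        (fun z hz i => ((e2_par J p.2 z).1 hz).1 i),
      PowerSeries.coeff_C_mul, e2_cls]
    have e : PowerSeries.coeff p.2 (Zmot J) = algebraMap K0 MC (cls (ordLocus J p.2)) *
        ((Lu ^ (-(M * (p.2 + 1) : ℤ)) : MCˣ) : MC) := by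
      unfold Zmot
      rw [PowerSeries.coeff_mk]
    rw [e]
    ring
  rw [key]
  exact Subring.mul_mem _ hI hJ

end HY
end MotMono
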