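import Pool.Agent.Lib.MP_4e5fcd_ag.HY.Base
import Pool.Agent.Lib.MP_4e5fcd_ag.A1
import Pool.Agent.Lib.MP_4e5fcd_ag.CN.E1
import Pool.Agent.Lib.MP_4e5fcd_ag.LF.J2

/-!
# HY-A1: jets of the big space

`Fin.addCases_left`, `Fin.addCases_right`, `Equiv.symm_apply_apply`; every `a : Fin (N + s * r)` is
`Fin.castAdd _ i` or `Fin.natAdd _ b` (`Fin.addCases` / `Fin.addCases` induction), and
`b = finProdFinEquiv (i, j)`.
`along_rename`: `along g = aeval (arc _) g`, `aeval_rename`, and `arc z (castAdd i) = arc (xj z) i`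
(unfold `arc`, `xj`). `along_gen`: `map_sum, map_mul, aeval_X`.
`to_gen`, `vec_gen`: by `along_gen`: `X ^ m ∣ along (f j) (xj z)` (`Polynomial.X_pow_dvd_iff`), so
`X ^ m` divides the sum and the coefficient of level `m` of `arc * along (f j)` is
`(arc ..).coeff 0 * (along (f j) ..).coeff m` (as in the proof of `CN.coeff_mul_eq`,
`Polynomial.coeff_X_pow_mul'`), `(arc z a).coeff 0 = z (a, 0)` (`a1_arc_coeff`).
`eval_gen`: `map_sum, map_mul, eval_X, eval_rename`. `along_scale`: the proof of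
`CN.coeff_along_weight` with `b = 0` works for every polynomial: `arc (scaled) i = φ (arc γ i)`,
`φ = aeval (C c * X)`.
-/

open MvPolynomial Matrix

namespace MotMono
namespace HY

open CN

variable {N r s : ℕ}

theorem xj_zj {n : ℕ} (γ : Fin N × Fin n → ℂ) (Y : Fin s → Fin r → Fin n → ℂ) :
    xj (zj γ Y) = γ := by
  funext q
  simp only [xj, zj, Fin.addCases_left]

theorem yj_zj {n : ℕ} (γ : Fin N × Fin n → ℂ) (Y : Fin s → Fin r → Fin n → ℂ) :
    yj (zj γ Y) = Y := by
  funext i j l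
  simp only [yj, zj, Fin.addCases_right, Equiv.symm_apply_apply]

private theorem A1_cases {P : Fin (N + s * r) → Prop} (h1 : ∀ a : Fin N, P (Fin.castAdd (s * r) a))
    (h2 : ∀ (i : Fin s) (j : Fin r), P (Fin.natAdd N (finProdFinEquiv (i, j)))) (a) : P a := by
  refine Fin.addCases h1 (fun b => ?_) a
  obtain ⟨⟨i, j⟩, rfl⟩ := finProdFinEquiv.surjective b
  exact h2 i j

theorem zj_xj_yj {n : ℕ} (z : Fin (N + s * r) × Fin n → ℂ) : zj (xj z) (yj z) = z := by
  funext q
  obtain ⟨a, l⟩ := q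
  refine A1_cases (P := fun a => zj (xj z) (yj z) (a, l) = z (a, l)) (fun a => ?_)
    (fun i j => ?_) a
  · simp only [xj, zj, Fin.addCases_left]
  · simp only [yj, zj, Fin.addCases_right, Equiv.symm_apply_apply]

private theorem A1_pt_left (p : Fin N → ℂ) (C : Matrix (Fin s) (Fin r) ℂ) (a : Fin N) :
    pt p C (Fin.castAdd (s * r) a) = p a := by
  simp only [pt, Fin.addCases_left]

private theorem A1_pt_right (p : Fin N → ℂ) (C : Matrix (Fin s) (Fin r) ℂ) (i : Fin s)
    (j : Fin r) : pt p C (Fin.natAdd N (finProdFinEquiv (i, j))) = C i j := by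
  simp only [pt, Fin.addCases_right, Equiv.symm_apply_apply]

private theorem A1_ext_iff (q q' : Fin (N + s * r) → ℂ) :
    q = q' ↔ (∀ a, q (Fin.castAdd (s * r) a) = q' (Fin.castAdd (s * r) a)) ∧
      ∀ i j, q (Fin.natAdd N (finProdFinEquiv (i, j))) =
        q' (Fin.natAdd N (finProdFinEquiv (i, j))) := by
  constructor
  · rintro rfl
    exact ⟨fun _ => rfl, fun _ _ => rfl⟩
  · rintro ⟨h1, h2⟩
    funext a
    exact A1_cases (P := fun a => q a = q' a) h1 h2 a

theorem bp_eq_pt {n : ℕ} (z : Fin (N + s * r) × Fin (n + 1) → ℂ) (p : Fin N → ℂ)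
    (C : Matrix (Fin s) (Fin r) ℂ) :
    bp z = pt p C ↔ bp (xj z) = p ∧ ∀ i j, yj z i j 0 = C i j := by
  rw [A1_ext_iff]
  constructor
  · rintro ⟨h1, h2⟩
    refine ⟨?_, fun i j => ?_⟩
    · funext a
      have h := h1 a
      rw [A1_pt_left] at h
      exact h
    · have h := h2 i j
      rw [A1_pt_right] at h
      exact h
  · rintro ⟨h1, h2⟩
    refine ⟨fun a => ?_, fun i j => ?_⟩
    · rw [A1_pt_left]
      exact congrFun h1 a
    · rw [A1_pt_right]
      exact h2 i j

theorem eq_pt (q : Fin (N + s * r) → ℂ) :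
    q = pt (fun a => q (Fin.castAdd (s * r) a))
      (Matrix.of fun i j => q (Fin.natAdd N (finProdFinEquiv (i, j)))) := by
  rw [A1_ext_iff]
  refine ⟨fun a => ?_, fun i j => ?_⟩
  · rw [A1_pt_left]
  · rw [A1_pt_right, Matrix.of_apply]

theorem norm_pt_lt (p : Fin N → ℂ) (C : Matrix (Fin s) (Fin r) ℂ) {ε : ℝ} (hε : 0 < ε) :
    ‖(pt p C : Fin (N + s * r) → ℂ)‖ < ε ↔ ‖p‖ < ε ∧ ∀ i j, ‖C i j‖ < ε := by
  rw [pi_norm_lt_iff hε, pi_norm_lt_iff hε]
  constructor
  · intro h
    refine ⟨fun a => ?_, fun i j => ?_⟩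
    · have := h (Fin.castAdd (s * r) a)
      rwa [A1_pt_left] at this
    · have := h (Fin.natAdd N (finProdFinEquiv (i, j)))
      rwa [A1_pt_right] at this
  · rintro ⟨h1, h2⟩ a
    refine A1_cases (P := fun a => ‖pt p C a‖ < ε) (fun a => ?_) (fun i j => ?_) a
    · rw [A1_pt_left]
      exact h1 a
    · rw [A1_pt_right]
      exact h2 i j

theorem along_rename {n : ℕ} (g : MvPolynomial (Fin N) ℂ) (z : Fin (N + s * r) × Fin n → ℂ) :
    along (rename (Fin.castAdd (s * r)) g) z = along g (xj z) := by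
  unfold along
  rw [aeval_rename]
  rfl

theorem along_gen {n : ℕ} (f : Fin r → MvPolynomial (Fin N) ℂ) (i : Fin s)
    (z : Fin (N + s * r) × Fin n → ℂ) :
    along (gen f s i) z =
      ∑ j, arc z (Fin.natAdd N (finProdFinEquiv (i, j))) * along (f j) (xj z) := by
  unfold gen
  have h : ∀ g, along g z = aeval (arc z) g := fun _ => rfl
  rw [h, map_sum]
  refine Finset.sum_congr rfl fun j _ => ?_
  rw [map_mul, aeval_X, ← h, along_rename]

private theorem A1_dvd {n m : ℕ} (f : Fin r → MvPolynomial (Fin N) ℂ)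
    (γ : Fin N × Fin n → ℂ) (h : TO f m γ) (j : Fin r) :
    (Polynomial.X : Polynomial ℂ) ^ m ∣ along (f j) γ := by
  rw [Polynomial.X_pow_dvd_iff]
  exact h j

theorem to_gen {n m : ℕ} (f : Fin r → MvPolynomial (Fin N) ℂ)
    (z : Fin (N + s * r) × Fin n → ℂ) (h : TO f m (xj z)) : TO (gen f s) m z := by
  intro i
  rw [← Polynomial.X_pow_dvd_iff, along_gen]
  exact Finset.dvd_sum fun j _ => (A1_dvd f _ h j).mul_left _

theorem vec_gen {n m : ℕ} (f : Fin r → MvPolynomial (Fin N) ℂ)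
    (z : Fin (N + s * r) × Fin (n + 1) → ℂ) (h : TO f m (xj z)) :
    vec (gen f s) m z = (Matrix.of fun i j => yj z i j 0) *ᵥ vec f m (xj z) := by
  funext i
  unfold vec
  rw [along_gen, Polynomial.finsetSum_coeff]
  change _ = ∑ j, yj z i j 0 * (along (f j) (xj z)).coeff m
  refine Finset.sum_congr rfl fun j _ => ?_
  obtain ⟨Q, hQ⟩ := A1_dvd f _ h j
  have h1 : arc z (Fin.natAdd N (finProdFinEquiv (i, j))) * along (f j) (xj z) =
      Polynomial.X ^ m * (arc z (Fin.natAdd N (finProdFinEquiv (i, j))) * Q) := by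
    rw [hQ]
    ring
  have h0 : (arc z (Fin.natAdd N (finProdFinEquiv (i, j)))).coeff 0 = yj z i j 0 := by
    rw [a1_arc_coeff, dif_pos (Nat.succ_pos n)]
    rfl
  rw [h1, Polynomial.coeff_X_pow_mul', if_pos le_rfl, Nat.sub_self, Polynomial.mul_coeff_zero, h0,
    hQ, Polynomial.coeff_X_pow_mul', if_pos le_rfl, Nat.sub_self]

theorem eval_gen (f : Fin r → MvPolynomial (Fin N) ℂ) (p : Fin N → ℂ)
    (C : Matrix (Fin s) (Fin r) ℂ) (i : Fin s) :
    eval (pt p C) (gen f s i) = (C *ᵥ fun j => eval p (f j)) i := by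
  unfold gen
  rw [map_sum]
  change _ = ∑ j, C i j * eval p (f j)
  refine Finset.sum_congr rfl fun j _ => ?_
  rw [map_mul, eval_X, A1_pt_right, eval_rename]
  have h : (pt p C ∘ Fin.castAdd (s * r)) = p := funext fun a => A1_pt_left p C a
  rw [h]

theorem eval_rename_pt (g : MvPolynomial (Fin N) ℂ) (p : Fin N → ℂ)
    (C : Matrix (Fin s) (Fin r) ℂ) :
    eval (pt p C) (rename (Fin.castAdd (s * r)) g) = eval p g := by
  rw [eval_rename]
  have h : (pt p C ∘ Fin.castAdd (s * r)) = p := funext fun a => A1_pt_left p C a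
  rw [h]

theorem along_scale {n : ℕ} (g : MvPolynomial (Fin N) ℂ) (γ : Fin N × Fin n → ℂ) (c : ℂ)
    (l : ℕ) :
    (along g (fun q : Fin N × Fin n => c ^ (q.2 : ℕ) * γ q)).coeff l =
      c ^ l * (along g γ).coeff l := by
  let φ : Polynomial ℂ →ₐ[ℂ] Polynomial ℂ :=
    Polynomial.aeval (Polynomial.C c * Polynomial.X)
  have hφ : ∀ g : Polynomial ℂ, ∀ k, (φ g).coeff k = g.coeff k * c ^ k := by
    intro g k
    have h1 : φ g = g.comp (Polynomial.C c * Polynomial.X) := by
      change Polynomial.aeval _ g = _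
      rw [Polynomial.aeval_def, Polynomial.comp, Polynomial.algebraMap_eq]
    rw [h1, Polynomial.comp_C_mul_X_coeff]
  have harc : arc (fun q : Fin N × Fin n => c ^ (q.2 : ℕ) * γ q) =
      fun i => φ (arc γ i) := by
    funext i
    ext k
    rw [hφ, a1_arc_coeff, a1_arc_coeff]
    by_cases h : k < n
    · rw [dif_pos h, dif_pos h]
      ring
    · rw [dif_neg h, dif_neg h, zero_mul]
  have h2 : aeval (fun i => φ (arc γ i)) g = φ (aeval (arc γ) g) := by
    rw [← MvPolynomial.comp_aeval_apply]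
  rw [along, harc, h2, hφ, along]
  ring

end HY
end MotMono
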