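import Pool.Agent.Lib.MP_4e5fcd_ag.HY.A2
import Pool.Agent.Lib.MP_4e5fcd_ag.HY.A3
import Pool.Agent.Lib.MP_4e5fcd_ag.CN.E1
import Pool.Agent.Lib.MP_4e5fcd_ag.CN.P3
import Pool.Agent.Lib.MP_4e5fcd_ag.TV.Y0

/-!
# HY-A7: truncation of jets

`cls_truncJ`: the left set is isomorphic (reindexing `Fin N × Fin (m + 1) ≃ (Fin N × Fin (j + 1)) ⊕ (Fin N × Fin (m - j))`,
`RegIso.reindex`) to `prodSet E univ`; `cls_prodSet`, `cls_univ` (`Fintype.card = N * (m - j)`). The same statement with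
parameters is proved in `TV/Y0.lean` (`cls_trunc`), or in `CN/P5.lean`, `CN/C3.lean`.
`cls_TE_zero`: the coefficients of level `≤ m` of `along (f j) γ` depend only on the truncation of `γ` at
level `m` (`along_trunc`), so `γ` is in the left set iff its truncation is in `ordLocus _ m`
(`mem_ordLocus_iff`).
-/

open MvPolynomial Matrix

namespace MotMono
namespace HY

open CN

variable {N r : ℕ}

theorem cls_truncJ {m j : ℕ} (h : j ≤ m) {E : Set (Fin N × Fin (j + 1) → ℂ)} (hE : Constr E) :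
    cls {γ : Fin N × Fin (m + 1) → ℂ |
        (fun q : Fin N × Fin (j + 1) => γ (q.1, Fin.castLE (Nat.succ_le_succ h) q.2)) ∈ E} =
      LL ^ (N * (m - j)) * cls E := by
  have hE0 : Constr {w : Empty ⊕ (Fin N × Fin (j + 1)) → ℂ | (fun q => w (Sum.inr q)) ∈ E} :=
    hE.comp Sum.inr
  have h1 := TV.cls_trunc (σ := Empty) h hE0
  have h2 : cls {w : Empty ⊕ (Fin N × Fin (j + 1)) → ℂ | (fun q => w (Sum.inr q)) ∈ E} =
      cls E :=
    (cls_iso hE hE0 (RegIso.reindex (Equiv.emptySum Empty _).symm E)).symm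
  have hc : Constr {γ : Fin N × Fin (m + 1) → ℂ |
      (fun q : Fin N × Fin (j + 1) => γ (q.1, Fin.castLE (Nat.succ_le_succ h) q.2)) ∈ E} :=
    hE.comp (fun q : Fin N × Fin (j + 1) => (q.1, Fin.castLE (Nat.succ_le_succ h) q.2))
  have h3 := cls_iso hc (TV.constr_tr (σ := Empty) h hE0)
    (RegIso.reindex (Equiv.emptySum Empty (Fin N × Fin (m + 1))).symm _)
  rw [h3, h1, h2, mul_comm]

theorem cls_TE_zero (f : Fin r → MvPolynomial (Fin N) ℂ) {m k : ℕ} (h : m ≤ k) :
    cls {γ : Fin N × Fin (k + 1) → ℂ | bp γ = 0 ∧ TE f m γ} =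
      LL ^ (N * (k - m)) * cls (ordLocus (Ideal.span (Set.range f)) m) := by
  rw [← cls_truncJ h (constr_ordLocus _ m)]
  congr 1
  ext γ
  rw [Set.mem_ofPred_eq, Set.mem_ofPred_eq, mem_ordLocus_iff]
  have h1 : ∀ (j : Fin r) (l : ℕ), l ≤ m →
      (along (f j) (fun q : Fin N × Fin (m + 1) =>
        γ (q.1, Fin.castLE (Nat.succ_le_succ h) q.2))).coeff l = (along (f j) γ).coeff l := by
    intro j l hl
    refine along_trunc (f j) _ _ l fun i l' hl' => ?_
    rw [a1_arc_coeff, a1_arc_coeff, dif_pos (show l' < m + 1 by omega),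
      dif_pos (show l' < k + 1 by omega)]
    rfl
  have h2 : bp (fun q : Fin N × Fin (m + 1) =>
      γ (q.1, Fin.castLE (Nat.succ_le_succ h) q.2)) = bp γ := rfl
  rw [h2]
  have h3 : TE f m (fun q : Fin N × Fin (m + 1) =>
      γ (q.1, Fin.castLE (Nat.succ_le_succ h) q.2)) ↔ TE f m γ := by
    have h4 : vec f m (fun q : Fin N × Fin (m + 1) =>
      γ (q.1, Fin.castLE (Nat.succ_le_succ h) q.2)) = vec f m γ := funext fun j => h1 j m le_rfl
    unfold TE
    rw [h4]
    refine and_congr_left fun _ => ?_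
    exact forall_congr' fun j => forall₂_congr fun l hl => by rw [h1 j l hl.le]
  rw [h3]

end HY
end MotMono
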