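import Pool.Agent.Lib.MP_4e5fcd_ag.HY.A6
import Pool.Agent.Lib.MP_4e5fcd_ag.HY.A7

/-!
# HY-A8: the class of the jets along which `linGen f s` vanishes exactly to order `k`
-/

open MvPolynomial Matrix

namespace MotMono
namespace HY

open CN

variable {N r : ℕ}

/-- the target set -/
private def A8T (s k : ℕ) : Set (Fin s × Fin (k + 1) → ℂ) :=
  {y | (∀ i (l : Fin (k + 1)), (l : ℕ) < k → y (i, l) = 0) ∧ ∃ i, y (i, Fin.last k) ≠ 0}

private theorem A8_constr (s k : ℕ) : Constr (A8T s k) := by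
  have e : A8T s k = (⋂ i : Fin s, ⋂ l : Fin (k + 1), {y | (l : ℕ) < k → y (i, l) = 0}) ∩
      (⋂ i : Fin s, {y | eval y (X (i, Fin.last k) : MvPolynomial (Fin s × Fin (k + 1)) ℂ) =
        eval y 0})ᶜ := by
    ext y
    simp only [A8T, Set.mem_ofPred_eq, Set.mem_inter_iff, Set.mem_iInter, Set.mem_compl_iff, eval_X,
      map_zero, not_forall]
  rw [e]
  refine Constr.inter (constr_iInter fun i => constr_iInter fun l => ?_)
    (constr_iInter fun i => constr_eq _ _).compl
  by_cases h : (l : ℕ) < k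
  · simpa [h] using Constr.zeroSet (X (i, l) : MvPolynomial (Fin s × Fin (k + 1)) ℂ)
  · simpa [h] using constr_univ (σ := Fin s × Fin (k + 1))

private theorem A8_cls (s k : ℕ) : cls (A8T s k) = LL ^ s - 1 := by
  classical
  have h1 : cls ((Set.univ : Set (Fin s → ℂ)) \ {0}) = LL ^ s - 1 := by
    rw [cls_diff constr_univ (constr_singleton _) (Set.subset_univ _), cls_univ, cls_singleton,
      Fintype.card_fin]
  rw [← h1]
  refine cls_iso (A8_constr s k) (constr_univ.diff (constr_singleton _))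
    ⟨fun y i => y (i, Fin.last k), fun v q => if q.2 = Fin.last k then v q.1 else 0,
      fun i => regFun_coord _ _, fun q => ?_, ?_, ?_, ?_, ?_⟩
  · by_cases h : q.2 = Fin.last k
    · simp only [h, if_true]; exact regFun_coord _ _
    · simp only [h, if_false]; exact regFun_const _ _
  · rintro y ⟨-, i, hi⟩
    refine ⟨Set.mem_univ _, fun h => hi ?_⟩
    exact congrFun (Set.mem_singleton_iff.1 h) i
  · rintro v ⟨-, hv⟩
    refine ⟨fun i l hl => ?_, ?_⟩
    · have : l ≠ Fin.last k := fun h => by rw [h, Fin.val_last] at hl; exact lt_irrefl _ hl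
      simp only [this, if_false]
    · by_contra h
      push Not at h
      refine hv (Set.mem_singleton_iff.2 (funext fun i => ?_))
      have := h i
      simpa using this
  · rintro y ⟨h1, -⟩
    funext q
    by_cases h : q.2 = Fin.last k
    · simp only [h, if_true]
      rw [← h]
    · simp only [h, if_false]
      have h2 : (q.2 : ℕ) < k := by
        have h3 := q.2.2
        have h4 : (q.2 : ℕ) ≠ k := fun h5 => h (Fin.ext (by rw [h5, Fin.val_last]))
        omega
      exact (h1 q.1 q.2 h2).symm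
  · rintro v -
    funext i
    simp

private theorem A8_TE_iff (g : Fin r → MvPolynomial (Fin N) ℂ) (k : ℕ)
    (z : Fin N × Fin (k + 1) → ℂ) : TE g k z ↔ cj g z ∈ A8T r k := by
  constructor
  · rintro ⟨h1, h2⟩
    refine ⟨fun i l hl => h1 i l hl, ?_⟩
    obtain ⟨i, hi⟩ := Function.ne_iff.1 h2
    exact ⟨i, hi⟩
  · rintro ⟨h1, i, hi⟩
    refine ⟨fun j l hl => h1 j ⟨l, by omega⟩ hl, Function.ne_iff.2 ⟨i, hi⟩⟩

private theorem A8_unique {n : ℕ} (f : Fin r → MvPolynomial (Fin N) ℂ) {m m' : ℕ}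
    {γ : Fin N × Fin n → ℂ} (h : TE f m γ) (h' : TE f m' γ) : m = m' := by
  rcases lt_trichotomy m m' with hlt | he | hlt
  · exact absurd (funext fun j => h'.1 j m hlt) h.2
  · exact he
  · exact absurd (funext fun j => h.1 j m' hlt) h'.2

private theorem A8_exists {n : ℕ} (f : Fin r → MvPolynomial (Fin N) ℂ) {k : ℕ}
    {γ : Fin N × Fin n → ℂ} (h : ¬ TO f k γ) : ∃ m < k, TE f m γ := by
  classical
  unfold TO at h
  push Not at h
  obtain ⟨j, l, hl, hne⟩ := h
  have hex : ∃ l, ∃ j, (along (f j) γ).coeff l ≠ 0 := ⟨l, j, hne⟩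
  refine ⟨Nat.find hex, lt_of_le_of_lt (Nat.find_min' hex ⟨j, hne⟩) hl, ?_, ?_⟩
  · intro j' l' hl'
    by_contra hc
    exact Nat.find_min hex hl' ⟨j', hc⟩
  · obtain ⟨j', hj'⟩ := Nat.find_spec hex
    exact Function.ne_iff.2 ⟨j', hj'⟩

private theorem A8_pt (s : ℕ) : (pt (0 : Fin N → ℂ) (0 : Matrix (Fin s) (Fin r) ℂ)) = 0 := by
  funext a
  refine Fin.addCases (fun a => ?_) (fun b => ?_) a
  · simp [pt]
  · simp [pt]

private theorem A8_constrS (f : Fin r → MvPolynomial (Fin N) ℂ) (s k m : ℕ) :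
    Constr {z : Fin (N + s * r) × Fin (k + 1) → ℂ |
      xj z ∈ {γ : Fin N × Fin (k + 1) → ℂ | bp γ = 0} ∧ TE f m (xj z) ∧
      (∀ i j, yj z i j 0 = (0 : Matrix (Fin s) (Fin r) ℂ) i j) ∧ cj (gen f s) z ∈ A8T s k} := by
  have h1 : Constr {z : Fin (N + s * r) × Fin (k + 1) → ℂ |
      xj z ∈ {γ : Fin N × Fin (k + 1) → ℂ | bp γ = 0}} :=
    (constr_bp (0 : Fin N → ℂ)).comp (fun q => (Fin.castAdd (s * r) q.1, q.2))
  have h2 : Constr {z : Fin (N + s * r) × Fin (k + 1) → ℂ | TE f m (xj z)} :=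
    (constr_TE f m).comp (fun q => (Fin.castAdd (s * r) q.1, q.2))
  have h3 : Constr {z : Fin (N + s * r) × Fin (k + 1) → ℂ |
      ∀ i j, yj z i j 0 = (0 : Matrix (Fin s) (Fin r) ℂ) i j} := by
    have e3 : {z : Fin (N + s * r) × Fin (k + 1) → ℂ |
        ∀ i j, yj z i j 0 = (0 : Matrix (Fin s) (Fin r) ℂ) i j} =
        ⋂ i, ⋂ j, {z | eval z (X (Fin.natAdd N (finProdFinEquiv (i, j)), (0 : Fin (k + 1))) :
          MvPolynomial (Fin (N + s * r) × Fin (k + 1)) ℂ) =
            eval z (MvPolynomial.C ((0 : Matrix (Fin s) (Fin r) ℂ) i j))} := by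
      ext z
      simp only [Set.mem_ofPred_eq, Set.mem_iInter, eval_X, eval_C]
      rfl
    rw [e3]
    exact constr_iInter fun i => constr_iInter fun j => constr_eq _ _
  choose R hR using fun q : Fin s × Fin (k + 1) =>
    exists_alongPoly (n := k + 1) (gen f s q.1) (q.2 : ℕ)
  have h4 : Constr {z : Fin (N + s * r) × Fin (k + 1) → ℂ | cj (gen f s) z ∈ A8T s k} := by
    have := (A8_constr s k).preimage R
    have e4 : {z : Fin (N + s * r) × Fin (k + 1) → ℂ | cj (gen f s) z ∈ A8T s k} =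
        {x | (fun j => eval x (R j)) ∈ A8T s k} := by
      ext z
      have : cj (gen f s) z = fun j => eval z (R j) := by
        funext q
        rw [hR]
        rfl
      simp only [Set.mem_ofPred_eq, this]
    rw [e4]
    exact this
  exact h1.inter (h2.inter (h3.inter h4))

theorem cls_ordLocus_gen (f : Fin r → MvPolynomial (Fin N) ℂ) (s k : ℕ) :
    cls (ordLocus (linGen f s) k) =
      ∑ m ∈ Finset.range k, LL ^ (s * r * k - s * (k - m)) * ((LL ^ s - 1) *
        (LL ^ (N * (k - m)) * cls (ordLocus (Ideal.span (Set.range f)) m))) := by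
  classical
  have hset : ordLocus (linGen f s) k = ⋃ m ∈ Finset.range k,
      {z : Fin (N + s * r) × Fin (k + 1) → ℂ |
        xj z ∈ {γ : Fin N × Fin (k + 1) → ℂ | bp γ = 0} ∧ TE f m (xj z) ∧
        (∀ i j, yj z i j 0 = (0 : Matrix (Fin s) (Fin r) ℂ) i j) ∧
        cj (gen f s) z ∈ A8T s k} := by
    ext z
    have hlin : linGen f s = Ideal.span (Set.range (gen f s)) := rfl
    rw [hlin, mem_ordLocus_iff, ← A8_pt (N := N) (r := r) s, bp_eq_pt]
    simp only [Set.mem_iUnion, Finset.mem_range, exists_prop, Set.mem_ofPred_eq]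
    constructor
    · rintro ⟨⟨h1, h2⟩, h3⟩
      have h4 : ¬ TO f k (xj z) := by
        intro h5
        apply h3.2
        rw [vec_gen f z h5]
        have h6 : (Matrix.of fun i j => yj z i j 0) = (0 : Matrix (Fin s) (Fin r) ℂ) := by
          ext i j
          exact h2 i j
        rw [h6, Matrix.zero_mulVec]
      obtain ⟨m, hm, hTE⟩ := A8_exists f h4
      exact ⟨m, hm, h1, hTE, h2, (A8_TE_iff _ _ _).1 h3⟩
    · rintro ⟨m, -, h1, -, h2, h3⟩
      exact ⟨⟨h1, h2⟩, (A8_TE_iff _ _ _).2 h3⟩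
  rw [hset, cls_biUnion]
  · refine Finset.sum_congr rfl fun m hm => ?_
    have hmk : m ≤ k := (Finset.mem_range.1 hm).le
    have h1 := cls_unif (s := s) f hmk (0 : Matrix (Fin s) (Fin r) ℂ)
      (constr_bp (n := k) (0 : Fin N → ℂ)) (A8_constr s k)
    rw [h1]
    congr 1
    have h2 : {z : (Fin N × Fin (k + 1)) ⊕ (Fin s × Fin (k + 1)) → ℂ |
        (fun q => z (Sum.inl q)) ∈ {γ : Fin N × Fin (k + 1) → ℂ | bp γ = 0} ∧
        TE f m (fun q => z (Sum.inl q)) ∧ (fun q => z (Sum.inr q)) ∈ A8T s k ∧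
        (∀ i (l : Fin (k + 1)), (l : ℕ) < m → z (Sum.inr (i, l)) = 0) ∧
        ∀ i (l : Fin (k + 1)), (l : ℕ) = m → z (Sum.inr (i, l)) =
          ((0 : Matrix (Fin s) (Fin r) ℂ) *ᵥ vec f m fun q => z (Sum.inl q)) i} =
        prodSet {γ : Fin N × Fin (k + 1) → ℂ | bp γ = 0 ∧ TE f m γ} (A8T s k) := by
      ext z
      simp only [prodSet, Set.mem_ofPred_eq]
      have hlt := Finset.mem_range.1 hm
      constructor
      · rintro ⟨h1, h2, h3, -, -⟩
        exact ⟨⟨h1, h2⟩, h3⟩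
      · rintro ⟨⟨h1, h2⟩, h3⟩
        refine ⟨h1, h2, h3, fun i l hl => h3.1 i l (by omega), fun i l hl => ?_⟩
        rw [Matrix.zero_mulVec]
        exact h3.1 i l (by omega)
    have h3 : Constr {γ : Fin N × Fin (k + 1) → ℂ | bp γ = 0 ∧ TE f m γ} :=
      (constr_bp (n := k) (0 : Fin N → ℂ)).inter (constr_TE f m)
    rw [h2, cls_prodSet h3 (A8_constr s k), A8_cls, cls_TE_zero f hmk]
    ring
  · exact fun m _ => A8_constrS f s k m
  · intro m _ m' _ hne
    rw [Set.disjoint_left]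
    rintro z ⟨-, h1, -⟩ ⟨-, h2, -⟩
    exact hne (A8_unique f h1 h2)

end HY
end MotMono
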