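import Pool.Agent.Lib.MP_4e5fcd_ag.TV.YDefs

/-!
# Generic linear combinations of the generators: definitions of the statement

* `linGen f s`: the ideal generated by `s` generic linear combinations of the tuple `f`;
* `TameX χ s₀ I`: ideals which are obtained from ideals tame at `s₀` by passing to generic linear
  combinations of generators, and by other operations.
-/

open MvPolynomial

namespace MotMono

/-- The ideal generated by `s` generic linear combinations `∑ j, Y_ij f_j` (`i < s`) of the tuple
`f`; the `s * r` coefficients `Y_ij` are new variables. -/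
noncomputable def linGen {N r : ℕ} (f : Fin r → MvPolynomial (Fin N) ℂ) (s : ℕ) :
    Ideal (MvPolynomial (Fin (N + s * r)) ℂ) :=
  Ideal.span (Set.range fun i : Fin s => ∑ j : Fin r,
    X (Fin.natAdd N (finProdFinEquiv (i, j))) * rename (Fin.castAdd (s * r)) (f j))

/-- Ideals obtained from ideals tame at `s₀` (the least class with the following properties):
* `base`: ideals which are tame at `s₀`;
* `gen`: the ideal generated by `s > 0` generic linear combinations `∑ j, Y_ij f_j` of a system
  `f_1, …, f_r` of generators of such an ideal, the coefficients `Y_ij` being new variables (for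
  `s = 1` this is the hypersurface `∑ j, y_j f_j = 0`);
* `pull`: ideals which near the origin are pull-backs of such ideals under étale coordinates;
* `adj`: `(I, z)`, `z` a new variable, if `I` is in the class of `s₀ + 1`;
* `pow`: `I ^ k`, `k > 0`, if `I` is in the class of `k s₀`;
* `box`: products in disjoint sets of variables. -/
inductive TameX (χ : K0 →+* ℤ) : ℚ → {N : ℕ} → Ideal (MvPolynomial (Fin N) ℂ) → Prop
  | base (s₀ : ℚ) {N : ℕ} (I : Ideal (MvPolynomial (Fin N) ℂ)) (h : TameAt χ s₀ I) :
      TameX χ s₀ I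
  | gen (s₀ : ℚ) {N r : ℕ} (f : Fin r → MvPolynomial (Fin N) ℂ) (s : ℕ) (hs : 0 < s)
      (h : TameX χ s₀ (Ideal.span (Set.range f))) : TameX χ s₀ (linGen f s)
  | pull (s₀ : ℚ) {N k : ℕ} (I : Ideal (MvPolynomial (Fin N) ℂ))
      (G : Ideal (MvPolynomial (Fin k) ℂ)) (h : LocPull I 0 G) (hG : TameX χ s₀ G) :
      TameX χ s₀ I
  | adj (s₀ : ℚ) {N : ℕ} (I : Ideal (MvPolynomial (Fin N) ℂ)) (h : TameX χ (s₀ + 1) I) :
      TameX χ s₀ (adjVar I)
  | pow (s₀ : ℚ) {N : ℕ} (I : Ideal (MvPolynomial (Fin N) ℂ)) (k : ℕ) (hk : 0 < k)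
      (h : TameX χ (k * s₀) I) : TameX χ s₀ (I ^ k)
  | box (s₀ : ℚ) {N M : ℕ} (I : Ideal (MvPolynomial (Fin N) ℂ))
      (J : Ideal (MvPolynomial (Fin M) ℂ)) (hI : TameX χ s₀ I) (hJ : TameX χ s₀ J) :
      TameX χ s₀ (boxProd I J)

end MotMono
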