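import Pool.Agent.Lib.MP_4e5fcd_ag.CN.Base
import Pool.Agent.Lib.MP_4e5fcd_ag.HY.Defs

/-!
# HY-Base: generic linear combinations: notation for the proof

`f : Fin r → ℂ[x₁,…,x_N]`, `s ≥ 1`, new variables `Y_ij` (`i < s`, `j < r`), in all `N + s * r`
variables; `Y_ij` is the variable `Fin.natAdd N (finProdFinEquiv (i, j))`. A jet `z` of the big space
has the `x`-part `xj z` and the `Y`-part `yj z`.
-/

open MvPolynomial Matrix

namespace MotMono

namespace HY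

open CN

/-- the generators of `linGen f s` -/
noncomputable def gen {N r : ℕ} (f : Fin r → MvPolynomial (Fin N) ℂ) (s : ℕ) (i : Fin s) :
    MvPolynomial (Fin (N + s * r)) ℂ :=
  ∑ j : Fin r, X (Fin.natAdd N (finProdFinEquiv (i, j))) * rename (Fin.castAdd (s * r)) (f j)

/-- the `x`-part of a jet -/
def xj {N r s n : ℕ} (z : Fin (N + s * r) × Fin n → ℂ) : Fin N × Fin n → ℂ :=
  fun q => z (Fin.castAdd (s * r) q.1, q.2)

/-- the `Y`-part of a jet -/
def yj {N r s n : ℕ} (z : Fin (N + s * r) × Fin n → ℂ) (i : Fin s) (j : Fin r) (l : Fin n) : ℂ :=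
  z (Fin.natAdd N (finProdFinEquiv (i, j)), l)

/-- the jet with the given `x`-part and `Y`-part -/
def zj {N r s n : ℕ} (γ : Fin N × Fin n → ℂ) (Y : Fin s → Fin r → Fin n → ℂ) :
    Fin (N + s * r) × Fin n → ℂ :=
  fun q => Fin.addCases (motive := fun _ => ℂ) (fun a => γ (a, q.2))
    (fun b => Y (finProdFinEquiv.symm b).1 (finProdFinEquiv.symm b).2 q.2) q.1

/-- the point `(p, C)` of the big space -/
def pt {N r s : ℕ} (p : Fin N → ℂ) (C : Matrix (Fin s) (Fin r) ℂ) : Fin (N + s * r) → ℂ :=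
  fun a => Fin.addCases (motive := fun _ => ℂ) p
    (fun b => C (finProdFinEquiv.symm b).1 (finProdFinEquiv.symm b).2) a

/-- all `f j` vanish to order `m` along `γ` -/
def TO {N r n : ℕ} (f : Fin r → MvPolynomial (Fin N) ℂ) (m : ℕ) (γ : Fin N × Fin n → ℂ) : Prop :=
  ∀ j, ∀ l < m, (along (f j) γ).coeff l = 0

/-- the coefficients of level `m` of the `f j` along `γ` -/
noncomputable def vec {N r n : ℕ} (f : Fin r → MvPolynomial (Fin N) ℂ) (m : ℕ)
    (γ : Fin N × Fin n → ℂ) : Fin r → ℂ :=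
  fun j => (along (f j) γ).coeff m

/-- the tuple `f` vanishes exactly to order `m` along `γ` -/
def TE {N r n : ℕ} (f : Fin r → MvPolynomial (Fin N) ℂ) (m : ℕ) (γ : Fin N × Fin n → ℂ) : Prop :=
  TO f m γ ∧ vec f m γ ≠ 0

/-- contact jets of a tuple: `f (γ) = v t ^ d` -/
def CT {N r : ℕ} (f : Fin r → MvPolynomial (Fin N) ℂ) (p : Fin N → ℂ) (v : Fin r → ℂ) (d : ℕ) :
    Set (Fin N × Fin (d + 1) → ℂ) :=
  {γ | bp γ = p ∧ TO f d γ ∧ vec f d γ = v}

/-- the jets at `p` with `f (γ) = v t ^ d`, `C v = w` -/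
def RR {N r s : ℕ} (f : Fin r → MvPolynomial (Fin N) ℂ) (p : Fin N → ℂ)
    (C : Matrix (Fin s) (Fin r) ℂ) (w : Fin s → ℂ) (d : ℕ) : Set (Fin N × Fin (d + 1) → ℂ) :=
  {γ | bp γ = p ∧ TO f d γ ∧ C *ᵥ vec f d γ = w}

/-- the jets at `p` along which `f` vanishes exactly to order `m`, with `C v = 0` for the vector `v`
of the leading coefficients -/
def KK {N r s : ℕ} (f : Fin r → MvPolynomial (Fin N) ℂ) (p : Fin N → ℂ)
    (C : Matrix (Fin s) (Fin r) ℂ) (m n : ℕ) : Set (Fin N × Fin (n + 1) → ℂ) :=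
  {γ | bp γ = p ∧ TE f m γ ∧ C *ᵥ vec f m γ = 0}

/-- the pairs `(γ, C)` with `γ ∈ RR f p C w d` and `C v₀ = w` -/
def GG {N r s : ℕ} (f : Fin r → MvPolynomial (Fin N) ℂ) (p : Fin N → ℂ) (v₀ : Fin r → ℂ)
    (w : Fin s → ℂ) (d : ℕ) : Set ((Fin N × Fin (d + 1)) ⊕ (Fin s × Fin r) → ℂ) :=
  {z | (fun q => z (Sum.inl q)) ∈ RR f p (Matrix.of fun i j => z (Sum.inr (i, j))) w d ∧
    (Matrix.of fun i j => z (Sum.inr (i, j))) *ᵥ v₀ = w}

/-- the Lefschetz numbers of the tuple `f` at `p` have the period `M` -/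
def PerT {N r : ℕ} (χ : K0 →+* ℤ) (f : Fin r → MvPolynomial (Fin N) ℂ) (p : Fin N → ℂ) (M : ℕ) :
    Prop :=
  ∀ v : Fin r → ℂ, v ≠ 0 → ∀ d, 0 < d →
    χ (cls (CT f p v d)) = χ (cls (CT f p v (Nat.gcd d M)))

/-- the Lefschetz numbers of `I` at all points of the cone over `p` have a common period -/
def PerAt {N : ℕ} (χ : K0 →+* ℤ) (I : Ideal (MvPolynomial (Fin N) ℂ)) (p : Fin N → ℂ) : Prop :=
  ∃ M, 0 < M ∧ ∀ (n : ℕ) (γ₀ : Fin N × Fin (n + 1) → ℂ), 1 ≤ n → bp γ₀ = p → OrdGe I n γ₀ →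
    (∃ f ∈ I, (along f γ₀).coeff n ≠ 0) → ∀ d, 0 < d →
      χ (cls (CA I p (fun f => (along f γ₀).coeff n) d)) =
        χ (cls (CA I p (fun f => (along f γ₀).coeff n) (Nat.gcd d M)))

/-- the Lefschetz numbers of `I` have common periods at all points near `p` -/
def Per {N : ℕ} (χ : K0 →+* ℤ) (I : Ideal (MvPolynomial (Fin N) ℂ)) (p : Fin N → ℂ) : Prop :=
  ∃ h, eval p h ≠ 0 ∧ ∀ q, eval q h ≠ 0 → PerAt χ I q

/-- a property of the set `{γ : TE}` used for the class computations: jets at level `n` with first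
non-vanishing coefficient of level `m` at the index `j₀` -/
def TF {N r n : ℕ} (f : Fin r → MvPolynomial (Fin N) ℂ) (m : ℕ) (j₀ : Fin r)
    (γ : Fin N × Fin n → ℂ) : Prop :=
  TO f m γ ∧ (∀ j < j₀, vec f m γ j = 0) ∧ vec f m γ j₀ ≠ 0

end HY
end MotMono
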