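import Pool.Agent.Lib.MP_4e5fcd_ag.LFM.D3

/-!
# HY-C1: zeta functions of periodic sequences

As in the proof of `LFM.lam_sum` (LFM/D3.lean; copy the first part): there are integers `c e` (`e ∣ M₀`) with
`Λ d = ∑ e ∈ M₀.divisors, if e ∣ d then c e * e else 0` for all `d > 0`, and
`∑_{m=1}^{M₀} lam ^ m Λ m = M₀ * ∑_{e ∣ M₀, lam ^ e = 1} c e` if `lam ^ M₀ = 1` (geometric sums, `d3_geom` there is private:
copy it). Let `P = ∏_{c e > 0} (1 - t ^ e) ^ (c e)`, `Q = ∏_{c e < 0} (1 - t ^ e) ^ (- c e)` (polynomials). Then `Q Z = P` as power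
series: both sides have constant coefficient `1` and the same logarithmic derivative
(`t (QZ)' = ..`; uniqueness: if `t A' = B A`, `t A'' = B A''` .. compare coefficients; or use `Kum.exists_zeta_prod`
/ the lemmas `e11_*` in `Kum/E11.lean`, and `IsZeta` determines `Z`: `d * coeff d Z = - ∑_{0 < i ≤ d} Λ i coeff (d - i) Z`).
Let `P' , Q'` be the coprime polynomials of `ZeroOrPole`, `Q' Z = P'`. So `P' Q = Q' P` (polynomials; coe to power
series is injective). The multiplicity of `lam` as a root (`Polynomial.rootMultiplicity`, all polynomials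
are non-zero: constant coefficients `1`, and `Q' ≠ 0` as otherwise `P' = 0`) of `1 - t ^ e` is `1` if `lam ^ e = 1` and `0`
otherwise (derivative). As `P' (lam) = 0` or `Q' (lam) = 0`, not both (coprime), the multiplicities of `lam` in `P'`, `Q'`
are different, so those in `P`, `Q` are different: `∑_{e ∣ M₀, lam ^ e = 1} c e ≠ 0`. In particular `lam ^ e = 1` for some
`e ∣ M₀`, so `lam ^ M₀ = 1`.
-/

open MvPolynomial

namespace MotMono
namespace HY

/-- the logarithmic derivative of `(1 - X ^ n)⁻¹` -/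
private noncomputable def hyc1_G (n : ℕ) : PowerSeries ℂ :=
  PowerSeries.mk fun d => if d = 0 then (0 : ℂ) else if n ∣ d then (n : ℂ) else 0

private theorem hyc1_key (n : ℕ) (hn : 0 < n) :
    (1 - PowerSeries.X ^ n) * hyc1_G n = (n : PowerSeries ℂ) * PowerSeries.X ^ n := by
  have hC : (n : PowerSeries ℂ) = PowerSeries.C (n : ℂ) := by simp
  ext d
  rw [hC, sub_mul, one_mul, map_sub, PowerSeries.coeff_X_pow_mul', PowerSeries.coeff_C_mul,
    PowerSeries.coeff_X_pow]
  simp only [hyc1_G, PowerSeries.coeff_mk]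
  rcases lt_trichotomy d n with h | h | h
  · rw [if_neg (not_le.mpr h), if_neg h.ne]
    by_cases h0 : d = 0
    · simp [h0]
    · rw [if_neg h0, if_neg (Nat.not_dvd_of_pos_of_lt (Nat.pos_of_ne_zero h0) h)]
      simp
  · subst h
    rw [if_neg hn.ne', if_pos dvd_rfl, if_pos le_rfl]
    simp
  · rw [if_neg (by omega : ¬ d = 0), if_pos h.le, if_neg (by omega : ¬ d - n = 0), if_neg h.ne']
    have : n ∣ d ↔ n ∣ d - n := by
      constructor
      · intro h2
        exact Nat.dvd_sub h2 dvd_rfl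
      · intro h2
        have h3 := Nat.dvd_add h2 (dvd_refl n)
        rwa [Nat.sub_add_cancel h.le] at h3
    by_cases h1 : n ∣ d
    · rw [if_pos h1, if_pos (this.mp h1)]; simp
    · rw [if_neg h1, if_neg (fun h2 => h1 (this.mpr h2))]; simp

private theorem hyc1_dX (n : ℕ) :
    PowerSeries.X * PowerSeries.derivative ℂ ((PowerSeries.X : PowerSeries ℂ) ^ n) =
      (n : PowerSeries ℂ) * PowerSeries.X ^ n := by
  rcases n with _ | n
  · simp
  · rw [Derivation.leibniz_pow]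
    simp only [Nat.add_sub_cancel, PowerSeries.derivative_X, smul_eq_mul, mul_one, nsmul_eq_mul]
    ring

/-- `U (0) = 1` and `X U' = A U` -/
private def hyc1_LD (U A : PowerSeries ℂ) : Prop :=
  PowerSeries.constantCoeff U = 1 ∧ PowerSeries.X * PowerSeries.derivative ℂ U = A * U

private theorem hyc1_LD_one : hyc1_LD 1 0 := by
  refine ⟨map_one _, ?_⟩
  simp

private theorem hyc1_LD_mul {U V A B : PowerSeries ℂ} (hU : hyc1_LD U A) (hV : hyc1_LD V B) :
    hyc1_LD (U * V) (A + B) := by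
  refine ⟨by rw [map_mul, hU.1, hV.1, one_mul], ?_⟩
  rw [Derivation.leibniz, smul_eq_mul, smul_eq_mul, mul_add]
  have h1 : PowerSeries.X * (U * PowerSeries.derivative ℂ V) =
      U * (PowerSeries.X * PowerSeries.derivative ℂ V) := by ring
  have h2 : PowerSeries.X * (V * PowerSeries.derivative ℂ U) =
      V * (PowerSeries.X * PowerSeries.derivative ℂ U) := by ring
  rw [h1, h2, hU.2, hV.2]
  ring

private theorem hyc1_LD_pow {U A : PowerSeries ℂ} (hU : hyc1_LD U A) (m : ℕ) :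
    hyc1_LD (U ^ m) ((m : PowerSeries ℂ) * A) := by
  induction m with
  | zero => simpa using hyc1_LD_one
  | succ m ih =>
    have h := hyc1_LD_mul ih hU
    rw [← pow_succ] at h
    have e : (m : PowerSeries ℂ) * A + A = ((m + 1 : ℕ) : PowerSeries ℂ) * A := by
      push_cast; ring
    rwa [e] at h

private theorem hyc1_LD_inv {U A : PowerSeries ℂ} (hU : hyc1_LD U A) :
    hyc1_LD U⁻¹ (-A) := by
  have hU0 : PowerSeries.constantCoeff U ≠ 0 := by rw [hU.1]; exact one_ne_zero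
  have hUZ : U * U⁻¹ = 1 := PowerSeries.mul_inv_cancel U hU0
  refine ⟨by rw [PowerSeries.constantCoeff_inv, hU.1, inv_one], ?_⟩
  have h1 : PowerSeries.derivative ℂ (U * U⁻¹) = 0 := by
    rw [hUZ]; simp
  rw [Derivation.leibniz, smul_eq_mul, smul_eq_mul] at h1
  have h2 : U * (PowerSeries.X * PowerSeries.derivative ℂ U⁻¹) +
      U⁻¹ * (PowerSeries.X * PowerSeries.derivative ℂ U) = 0 := by
    have : U * (PowerSeries.X * PowerSeries.derivative ℂ U⁻¹) +
      U⁻¹ * (PowerSeries.X * PowerSeries.derivative ℂ U) = PowerSeries.X *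
        (U * PowerSeries.derivative ℂ U⁻¹ + U⁻¹ * PowerSeries.derivative ℂ U) := by ring
    rw [this, h1, mul_zero]
  rw [hU.2] at h2
  have h3 : U * (PowerSeries.X * PowerSeries.derivative ℂ U⁻¹) = -A := by
    have : U⁻¹ * (A * U) = A * (U * U⁻¹) := by ring
    rw [this, hUZ, mul_one] at h2
    linear_combination h2
  calc PowerSeries.X * PowerSeries.derivative ℂ U⁻¹ =
      (U * U⁻¹) * (PowerSeries.X * PowerSeries.derivative ℂ U⁻¹) := by rw [hUZ, one_mul]
    _ = (U * (PowerSeries.X * PowerSeries.derivative ℂ U⁻¹)) * U⁻¹ := by ring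
    _ = _ := by rw [h3]

private theorem hyc1_LD_prod {ι : Type} (s : Finset ι) (U A : ι → PowerSeries ℂ)
    (h : ∀ i ∈ s, hyc1_LD (U i) (A i)) : hyc1_LD (∏ i ∈ s, U i) (∑ i ∈ s, A i) := by
  classical
  induction s using Finset.induction_on with
  | empty => simpa using hyc1_LD_one
  | insert i s hi ih =>
    rw [Finset.prod_insert hi, Finset.sum_insert hi]
    exact hyc1_LD_mul (h i (Finset.mem_insert_self _ _))
      (ih fun j hj => h j (Finset.mem_insert_of_mem hj))

private theorem hyc1_LD_base (n : ℕ) (hn : 0 < n) :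
    hyc1_LD (1 - PowerSeries.X ^ n) (-hyc1_G n) := by
  refine ⟨?_, ?_⟩
  · rw [map_sub, map_pow, PowerSeries.constantCoeff_X, zero_pow hn.ne', map_one, sub_zero]
  · have h1 : PowerSeries.derivative ℂ (1 : PowerSeries ℂ) = 0 := by simp
    rw [map_sub, mul_sub, hyc1_dX, h1, mul_zero, zero_sub, ← hyc1_key n hn]
    ring

/-- the factor `(1 - X ^ n) ^ c`, `c` an integer -/
private noncomputable def hyc1_U (n : ℕ) (c : ℤ) : PowerSeries ℂ :=
  (1 - PowerSeries.X ^ n) ^ c.toNat * ((1 - PowerSeries.X ^ n) ^ (-c).toNat)⁻¹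

private theorem hyc1_LD_U (n : ℕ) (hn : 0 < n) (c : ℤ) :
    hyc1_LD (hyc1_U n c) (-(PowerSeries.C (c : ℂ) * hyc1_G n)) := by
  have h := hyc1_LD_mul (hyc1_LD_pow (hyc1_LD_base n hn) c.toNat)
    (hyc1_LD_inv (hyc1_LD_pow (hyc1_LD_base n hn) (-c).toNat))
  have e : (c.toNat : PowerSeries ℂ) * -hyc1_G n + -(((-c).toNat : PowerSeries ℂ) * -hyc1_G n) =
      -(PowerSeries.C (c : ℂ) * hyc1_G n) := by
    have h1 : PowerSeries.C (c : ℂ) = (c.toNat : PowerSeries ℂ) - ((-c).toNat : PowerSeries ℂ) := by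
      have h2 : (c : ℂ) = (c.toNat : ℂ) - ((-c).toNat : ℂ) := by
        have h3 : c = (c.toNat : ℤ) - ((-c).toNat : ℤ) := by omega
        exact_mod_cast congrArg (fun z : ℤ => (z : ℂ)) h3
      rw [h2, map_sub]
      simp
    rw [h1]
    ring
  rw [e] at h
  exact h

private theorem hyc1_U_mul (n : ℕ) (hn : 0 < n) (c : ℤ) :
    (1 - PowerSeries.X ^ n) ^ (-c).toNat * hyc1_U n c = (1 - PowerSeries.X ^ n) ^ c.toNat := by
  have h1 := (hyc1_LD_pow (hyc1_LD_base n hn) (-c).toNat).1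
  have h2 : (1 - PowerSeries.X ^ n : PowerSeries ℂ) ^ (-c).toNat *
      ((1 - PowerSeries.X ^ n) ^ (-c).toNat)⁻¹ = 1 :=
    PowerSeries.mul_inv_cancel _ (by rw [h1]; exact one_ne_zero)
  unfold hyc1_U
  calc _ = (1 - PowerSeries.X ^ n : PowerSeries ℂ) ^ c.toNat *
      ((1 - PowerSeries.X ^ n : PowerSeries ℂ) ^ (-c).toNat *
      ((1 - PowerSeries.X ^ n) ^ (-c).toNat)⁻¹) := by ring
    _ = _ := by rw [h2, mul_one]

private theorem hyc1_ne (n : ℕ) (hn : 0 < n) : (1 - Polynomial.X ^ n : Polynomial ℂ) ≠ 0 := by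
  intro h
  have := congrArg (Polynomial.eval 0) h
  simp [hn.ne'] at this

private theorem hyc1_rm (n : ℕ) (hn : 0 < n) (α : ℂ) [Decidable (α ^ n = 1)] :
    (1 - Polynomial.X ^ n : Polynomial ℂ).rootMultiplicity α = if α ^ n = 1 then 1 else 0 := by
  have hne := hyc1_ne n hn
  split_ifs with h
  · have hroot : (1 - Polynomial.X ^ n : Polynomial ℂ).IsRoot α := by
      simp [Polynomial.IsRoot, h]
    have hpos := (Polynomial.rootMultiplicity_pos hne).2 hroot
    have hle : ¬ 1 < (1 - Polynomial.X ^ n : Polynomial ℂ).rootMultiplicity α := by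
      rw [Polynomial.one_lt_rootMultiplicity_iff_isRoot hne]
      rintro ⟨-, h2⟩
      have hα : α ≠ 0 := by
        rintro rfl
        rw [zero_pow hn.ne'] at h
        exact zero_ne_one h
      rw [Polynomial.IsRoot, Polynomial.derivative_sub, Polynomial.derivative_one,
        Polynomial.derivative_X_pow, zero_sub, Polynomial.eval_neg, neg_eq_zero,
        Polynomial.eval_mul, Polynomial.eval_C, Polynomial.eval_pow, Polynomial.eval_X] at h2
      rcases mul_eq_zero.1 h2 with h2 | h2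
      · exact hn.ne' (Nat.cast_eq_zero.1 h2)
      · exact pow_ne_zero _ hα h2
    omega
  · apply Polynomial.rootMultiplicity_eq_zero
    intro hroot
    apply h
    have : (1 : ℂ) - α ^ n = 0 := by simpa [Polynomial.IsRoot] using hroot
    rw [sub_eq_zero] at this
    exact this.symm

private theorem hyc1_pow_rm (p : Polynomial ℂ) (hp : p ≠ 0) (α : ℂ) (m : ℕ) :
    (p ^ m).rootMultiplicity α = m * p.rootMultiplicity α := by
  induction m with
  | zero => simp
  | succ m ih =>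
    rw [pow_succ, Polynomial.rootMultiplicity_mul (mul_ne_zero (pow_ne_zero _ hp) hp), ih]
    ring

open Classical in
private theorem hyc1_rm_prod {ι : Type} (s : Finset ι) (n : ι → ℕ) (m : ι → ℕ)
    (hn : ∀ i ∈ s, 0 < n i) (α : ℂ) :
    (∏ i ∈ s, (1 - Polynomial.X ^ n i : Polynomial ℂ) ^ m i) ≠ 0 ∧
    (∏ i ∈ s, (1 - Polynomial.X ^ n i : Polynomial ℂ) ^ m i).rootMultiplicity α =
      ∑ i ∈ s, if α ^ n i = 1 then m i else 0 := by
  induction s using Finset.induction_on with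
  | empty => simp
  | insert i s hi ih =>
    obtain ⟨h1, h2⟩ := ih fun j hj => hn j (Finset.mem_insert_of_mem hj)
    have hni := hn i (Finset.mem_insert_self _ _)
    have h3 : (1 - Polynomial.X ^ n i : Polynomial ℂ) ^ m i ≠ 0 := pow_ne_zero _ (hyc1_ne _ hni)
    rw [Finset.prod_insert hi, Finset.sum_insert hi]
    refine ⟨mul_ne_zero h3 h1, ?_⟩
    rw [Polynomial.rootMultiplicity_mul (mul_ne_zero h3 h1), h2, hyc1_pow_rm _ (hyc1_ne _ hni),
      hyc1_rm _ hni]
    congr 1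
    split_ifs <;> simp

private theorem hyc1_geom (lam : ℂ) {M e : ℕ} (he : 0 < e) (hdvd : e ∣ M) (hlam : lam ^ M = 1)
    [Decidable (lam ^ e = 1)] :
    ∑ m ∈ Finset.Icc 1 M, (if e ∣ m then lam ^ m else 0) =
      if lam ^ e = 1 then ((M / e : ℕ) : ℂ) else 0 := by
  obtain ⟨q, rfl⟩ := hdvd
  rw [Nat.mul_div_cancel_left q he]
  have h1 : ∑ m ∈ Finset.Icc 1 (e * q), (if e ∣ m then lam ^ m else 0) =
      ∑ j ∈ Finset.range q, (lam ^ e) ^ (j + 1) := by
    rw [← Finset.sum_filter]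
    symm
    refine Finset.sum_bij (fun j _ => e * (j + 1)) ?_ ?_ ?_ ?_
    · intro j hj
      rw [Finset.mem_range] at hj
      rw [Finset.mem_filter, Finset.mem_Icc]
      refine ⟨⟨?_, Nat.mul_le_mul_left e hj⟩, dvd_mul_right _ _⟩
      have := Nat.mul_le_mul he (Nat.succ_le_succ (Nat.zero_le j))
      omega
    · intro a _ b _ hab
      have := Nat.eq_of_mul_eq_mul_left he hab
      omega
    · intro m hm
      rw [Finset.mem_filter, Finset.mem_Icc] at hm
      obtain ⟨⟨h1, h2⟩, k, rfl⟩ := hm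
      have hk : 0 < k := by
        rcases Nat.eq_zero_or_pos k with h | h
        · rw [h] at h1
          omega
        · exact h
      refine ⟨k - 1, ?_, ?_⟩
      · rw [Finset.mem_range]
        have := Nat.le_of_mul_le_mul_left h2 he
        omega
      · have : k - 1 + 1 = k := by omega
        simp only [this]
    · intro j _
      rw [← pow_mul]
  rw [h1]
  split_ifs with h
  · rw [h]
    simp
  · have h2 : (lam ^ e) ^ q = 1 := by rw [← pow_mul, hlam]
    have h3 : ∑ j ∈ Finset.range q, (lam ^ e) ^ (j + 1) =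
        (∑ j ∈ Finset.range q, (lam ^ e) ^ j) * lam ^ e := by
      rw [Finset.sum_mul]
      exact Finset.sum_congr rfl fun j _ => pow_succ _ _
    have h4 := mul_geom_sum (lam ^ e) q
    rw [h2, sub_self] at h4
    rcases mul_eq_zero.1 h4 with h5 | h5
    · exact absurd (sub_eq_zero.1 h5) h
    · rw [h3, h5, zero_mul]

private theorem hyc1_unique {U V A : PowerSeries ℂ} (hU : hyc1_LD U A) (hV : hyc1_LD V A) :
    U = V := by
  have hV0 : PowerSeries.constantCoeff V ≠ 0 := by rw [hV.1]; exact one_ne_zero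
  have h := hyc1_LD_mul hU (hyc1_LD_inv hV)
  rw [add_neg_cancel] at h
  have h1 : PowerSeries.derivative ℂ (U * V⁻¹) = 0 := by
    have h2 := h.2
    rw [zero_mul] at h2
    exact (mul_eq_zero.1 h2).resolve_left PowerSeries.X_ne_zero
  have h3 : U * V⁻¹ = 1 := by
    refine PowerSeries.derivative.ext ?_ ?_
    · rw [h1]
      simp
    · rw [h.1, map_one]
  calc U = U * (V⁻¹ * V) := by rw [PowerSeries.inv_mul_cancel V hV0, mul_one]
    _ = (U * V⁻¹) * V := by rw [mul_assoc]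
    _ = V := by rw [h3, one_mul]

open Classical in
private theorem hyc1_main {ι : Type} (s : Finset ι) (n : ι → ℕ) (c : ι → ℤ)
    (hn : ∀ i ∈ s, 0 < n i) (Λ : ℕ → ℤ)
    (hΛ : ∀ d, 0 < d → Λ d = ∑ i ∈ s, if n i ∣ d then c i * n i else 0) (α : ℂ)
    {Z : PowerSeries ℂ} (hZ : IsZeta Λ Z) (hl : ZeroOrPole Z α) :
    ∑ i ∈ s.filter (fun i => α ^ n i = 1), c i ≠ 0 := by
  intro hα
  have hLD := hyc1_LD_prod s (fun i => hyc1_U (n i) (c i))
    (fun i => -(PowerSeries.C ((c i : ℤ) : ℂ) * hyc1_G (n i)))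
    (fun i hi => hyc1_LD_U _ (hn i hi) _)
  have hF : (PowerSeries.mk fun d => if d = 0 then (0 : ℂ) else (Λ d : ℂ)) =
      ∑ i ∈ s, PowerSeries.C ((c i : ℤ) : ℂ) * hyc1_G (n i) := by
    ext d
    rw [map_sum]
    simp only [PowerSeries.coeff_C_mul, hyc1_G, PowerSeries.coeff_mk]
    by_cases h0 : d = 0
    · simp [h0]
    · rw [if_neg h0, hΛ d (Nat.pos_of_ne_zero h0)]
      push_cast
      refine Finset.sum_congr rfl fun i _ => ?_
      rw [if_neg h0]
      split_ifs <;> simp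
  have hZ' : Z = ∏ i ∈ s, hyc1_U (n i) (c i) := by
    have h1 := hZ.2
    rw [hF, ← Finset.sum_neg_distrib] at h1
    exact hyc1_unique ⟨hZ.1, h1⟩ hLD
  set P : Polynomial ℂ := ∏ i ∈ s, (1 - Polynomial.X ^ n i) ^ (c i).toNat with hP
  set Q : Polynomial ℂ := ∏ i ∈ s, (1 - Polynomial.X ^ n i) ^ (-(c i)).toNat with hQ
  obtain ⟨hP0, hPr⟩ := hyc1_rm_prod s n (fun i => (c i).toNat) hn α
  obtain ⟨hQ0, hQr⟩ := hyc1_rm_prod s n (fun i => (-(c i)).toNat) hn α
  rw [← hP] at hP0 hPr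
  rw [← hQ] at hQ0 hQr
  have hZQ : (Q : PowerSeries ℂ) * Z = (P : PowerSeries ℂ) := by
    rw [hP, hQ, hZ']
    have e1 : ∀ m : ι → ℕ, ((∏ i ∈ s, (1 - Polynomial.X ^ n i : Polynomial ℂ) ^ m i :
        Polynomial ℂ) : PowerSeries ℂ) = ∏ i ∈ s, (1 - PowerSeries.X ^ n i) ^ m i := by
      intro m
      have : ∀ p : Polynomial ℂ, (p : PowerSeries ℂ) = Polynomial.coeToPowerSeries.ringHom p :=
        fun _ => rfl
      rw [this, map_prod]
      refine Finset.prod_congr rfl fun i _ => ?_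
      rw [map_pow, map_sub, map_pow, map_one]
      simp
    rw [e1, e1, ← Finset.prod_mul_distrib]
    exact Finset.prod_congr rfl fun i hi => hyc1_U_mul _ (hn i hi) _
  have hmul : P.rootMultiplicity α = Q.rootMultiplicity α := by
    have h1 : ((P.rootMultiplicity α : ℕ) : ℤ) - ((Q.rootMultiplicity α : ℕ) : ℤ) =
        ∑ i ∈ s.filter (fun i => α ^ n i = 1), c i := by
      rw [hPr, hQr]
      push_cast
      rw [← Finset.sum_sub_distrib, Finset.sum_filter]
      refine Finset.sum_congr rfl fun i _ => ?_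
      split_ifs
      · omega
      · simp
    rw [hα] at h1
    omega
  obtain ⟨P', Q', hcop, hPQ', hroot⟩ := hl
  have hZ0 : Z ≠ 0 := by
    intro h
    have h1 := hZ.1
    rw [h, map_zero] at h1
    exact zero_ne_one h1
  have hQ'0 : Q' ≠ 0 := by
    intro h
    rw [h] at hPQ' hcop
    rw [Polynomial.coe_zero, zero_mul] at hPQ'
    have h1 : P' = 0 := by
      apply Polynomial.coe_injective
      rw [← hPQ', Polynomial.coe_zero]
    rw [h1] at hcop
    exact not_isUnit_zero (isCoprime_self.1 hcop)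
  have hP'0 : P' ≠ 0 := by
    intro h
    rw [h, Polynomial.coe_zero] at hPQ'
    have h1 := (mul_eq_zero.1 hPQ').resolve_right hZ0
    exact hQ'0 (Polynomial.coe_injective ℂ (by rw [h1, Polynomial.coe_zero]))
  have hpoly : P' * Q = Q' * P := by
    apply Polynomial.coe_injective
    rw [Polynomial.coe_mul, Polynomial.coe_mul, ← hPQ', ← hZQ]
    ring
  have hm := congrArg (Polynomial.rootMultiplicity α) hpoly
  rw [Polynomial.rootMultiplicity_mul (mul_ne_zero hP'0 hQ0),
    Polynomial.rootMultiplicity_mul (mul_ne_zero hQ'0 hP0), hmul] at hm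
  have hm' : P'.rootMultiplicity α = Q'.rootMultiplicity α := by omega
  obtain ⟨a, b, hab⟩ := hcop
  have hnot : ¬ (P'.eval α = 0 ∧ Q'.eval α = 0) := by
    rintro ⟨h1, h2⟩
    have h3 := congrArg (Polynomial.eval α) hab
    rw [Polynomial.eval_add, Polynomial.eval_mul, Polynomial.eval_mul, h1, h2] at h3
    simp at h3
  rcases hroot with h | h
  · have h1 := (Polynomial.rootMultiplicity_pos hP'0).2 h
    rw [hm'] at h1
    exact hnot ⟨h, (Polynomial.rootMultiplicity_pos hQ'0).1 h1⟩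
  · have h1 := (Polynomial.rootMultiplicity_pos hQ'0).2 h
    rw [← hm'] at h1
    exact hnot ⟨(Polynomial.rootMultiplicity_pos hP'0).1 h1, h⟩

theorem sum_ne_zero_of_zeta (Λ : ℕ → ℤ) {M₀ : ℕ} (hM₀ : 0 < M₀)
    (hper : ∀ m, 1 ≤ m → Λ m = Λ (Nat.gcd m M₀))
    (hdold : ∀ d : ℕ, 0 < d → (d : ℤ) ∣ ∑ x ∈ d.divisorsAntidiagonal,
      ArithmeticFunction.moebius x.1 * Λ x.2)
    {Z : PowerSeries ℂ} (hZ : IsZeta Λ Z) {lam : ℂ} (hl : ZeroOrPole Z lam) :
    lam ^ M₀ = 1 ∧ ∑ m ∈ Finset.Icc 1 M₀, lam ^ m * ((Λ m : ℤ) : ℂ) ≠ 0 := by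
  classical
  set xx : ℕ → ℤ := fun n => ∑ x ∈ n.divisorsAntidiagonal,
    (ArithmeticFunction.moebius x.1 : ℤ) * Λ x.2 with hxx
  have hinv : ∀ n > 0, ∑ i ∈ n.divisors, xx i = Λ n := by
    refine (ArithmeticFunction.sum_eq_iff_sum_mul_moebius_eq (R := ℤ)).2 fun n _ => ?_
    simp only [hxx, Int.cast_id]
  have hdv : ∀ n, ∃ c : ℤ, 0 < n → xx n = c * n := by
    intro n
    rcases Nat.eq_zero_or_pos n with h | h
    · exact ⟨0, fun h1 => absurd h1 (by omega)⟩
    · obtain ⟨c, hc⟩ := hdold n h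
      refine ⟨c, fun _ => ?_⟩
      rw [mul_comm]
      exact hc
  choose c hc using hdv
  have hL : ∀ d, 0 < d → Λ d = ∑ e ∈ M₀.divisors, if e ∣ d then c e * (e : ℤ) else 0 := by
    intro d hd
    have h1 : Λ d = Λ (Nat.gcd d M₀) := hper d hd
    have hg : 0 < Nat.gcd d M₀ := Nat.gcd_pos_of_pos_left _ hd
    rw [h1, ← hinv _ hg, ← Finset.sum_filter]
    have h2 : M₀.divisors.filter (fun e => e ∣ d) = (Nat.gcd d M₀).divisors := by
      ext e
      rw [Finset.mem_filter, Nat.mem_divisors, Nat.mem_divisors, Nat.dvd_gcd_iff]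
      constructor
      · rintro ⟨⟨a, b⟩, c⟩
        exact ⟨⟨c, a⟩, hg.ne'⟩
      · rintro ⟨⟨a, b⟩, c⟩
        exact ⟨⟨b, hM₀.ne'⟩, a⟩
    rw [h2]
    exact Finset.sum_congr rfl fun e he => hc e (Nat.pos_of_mem_divisors he)
  have h0 : ∑ e ∈ M₀.divisors.filter (fun e => lam ^ e = 1), c e ≠ 0 :=
    hyc1_main M₀.divisors (fun e => e) c (fun e he => Nat.pos_of_mem_divisors he) Λ hL lam hZ hl
  have hlam : lam ^ M₀ = 1 := by
    obtain ⟨e, he, _⟩ := Finset.exists_ne_zero_of_sum_ne_zero h0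
    rw [Finset.mem_filter] at he
    obtain ⟨q, hq⟩ := Nat.dvd_of_mem_divisors he.1
    rw [hq, pow_mul, he.2, one_pow]
  refine ⟨hlam, ?_⟩
  have h1 : ∑ m ∈ Finset.Icc 1 M₀, lam ^ m * ((Λ m : ℤ) : ℂ) =
      ∑ e ∈ M₀.divisors, ((c e : ℤ) : ℂ) * (e : ℂ) *
        ∑ m ∈ Finset.Icc 1 M₀, (if e ∣ m then lam ^ m else 0) := by
    simp_rw [Finset.mul_sum]
    rw [Finset.sum_comm]
    refine Finset.sum_congr rfl fun m hm => ?_
    rw [hL m (Finset.mem_Icc.1 hm).1, Int.cast_sum, Finset.mul_sum]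
    refine Finset.sum_congr rfl fun e _ => ?_
    split_ifs
    · push_cast
      ring
    · simp
  rw [h1]
  have h2 : ∀ e ∈ M₀.divisors, ((c e : ℤ) : ℂ) * (e : ℂ) *
      ∑ m ∈ Finset.Icc 1 M₀, (if e ∣ m then lam ^ m else 0) =
      (M₀ : ℂ) * if lam ^ e = 1 then ((c e : ℤ) : ℂ) else 0 := by
    intro e he
    have hep := Nat.pos_of_mem_divisors he
    have hed : e ∣ M₀ := Nat.dvd_of_mem_divisors he
    rw [hyc1_geom lam hep hed hlam]
    split_ifs
    · obtain ⟨q, hq⟩ := hed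
      rw [hq, Nat.mul_div_cancel_left q hep]
      push_cast
      ring
    · simp
  rw [Finset.sum_congr rfl h2, ← Finset.mul_sum, ← Finset.sum_filter, ← Int.cast_sum]
  refine mul_ne_zero (Nat.cast_ne_zero.2 hM₀.ne') ?_
  exact_mod_cast h0

end HY
end MotMono
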