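import Pool.Agent.Lib.MP_4e5fcd_ag.HY.A2
import Pool.Agent.Lib.MP_4e5fcd_ag.HY.C1
import Pool.Agent.Lib.MP_4e5fcd_ag.CN.V1
import Pool.Agent.Lib.MP_4e5fcd_ag.LF.X4

/-!
# HY-C2: visible values and the weighted sums of the Lefschetz numbers

`exists_conePoint_jet`: the point constructed in the proof of `CN.cone_of_vis` (`φ k f = (along f γ).coeff (n * k)`;
copy it with its private lemmas). For this point `contactArcs I (bp γ) y d = CA I (bp γ) (..) d`
(`n * 1 = n`), for a tuple `= CT f (bp γ) (vec f n γ) d` (`CA_eq_CT`).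
`sum_ne_zero`: `Vis` for the ideal of the tuple gives a jet `γ₀` and `Z`; `v = vec f n γ₀ ≠ 0` (`ne_iff`);
`sum_ne_zero_of_zeta`, with `LFM.dold` (`LF.isEulerChar_of_F`) for the congruences and `PerT` for the period.
`sum_eq_zero`: if `CT f p v m` is empty for all `m ≥ 1` the sum is `0` (`cls_empty`). Otherwise let `γ₀ ∈ CT f p v n`,
`n ≥ 1`, and `y` its point: `LFM.lam_sum` with `M₀ = M`; if some `Z` were a zeta function with a zero or pole at `lam`, `lam` would
be visible (`Vis` with the jet `γ₀`).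
-/

open MvPolynomial Matrix

namespace MotMono
namespace HY

open CN

variable {N r : ℕ}

private theorem C2_along_mul {n : ℕ} (f g : MvPolynomial (Fin N) ℂ) (γ : Fin N × Fin n → ℂ) :
    along (f * g) γ = along f γ * along g γ := map_mul _ _ _

private theorem C2_along_add {n : ℕ} (f g : MvPolynomial (Fin N) ℂ) (γ : Fin N × Fin n → ℂ) :
    along (f + g) γ = along f γ + along g γ := map_add _ _ _

private theorem C2_dvd_pow {m : ℕ} (I : Ideal (MvPolynomial (Fin N) ℂ))
    (γ : Fin N × Fin m → ℂ) (n : ℕ) (h : ∀ f ∈ I, ∀ l < n, (along f γ).coeff l = 0) (k : ℕ) :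
    ∀ c ∈ I ^ k, Polynomial.X ^ (n * k) ∣ along c γ := by
  induction k with
  | zero => intro c _; simp
  | succ k ih =>
    intro c hc
    rw [pow_succ] at hc
    refine Submodule.mul_induction_on hc (fun a ha b hb => ?_) (fun a b ha hb => ?_)
    · rw [C2_along_mul, Nat.mul_succ, pow_add]
      exact mul_dvd_mul (ih a ha) (Polynomial.X_pow_dvd_iff.2 (h b hb))
    · rw [C2_along_add]
      exact dvd_add ha hb

private theorem C2_coeff_mul {F G : Polynomial ℂ} {m m' : ℕ} (hF : Polynomial.X ^ m ∣ F)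
    (hG : Polynomial.X ^ m' ∣ G) : (F * G).coeff (m + m') = F.coeff m * G.coeff m' := by
  obtain ⟨u, rfl⟩ := hF
  obtain ⟨v, rfl⟩ := hG
  have e : Polynomial.X ^ m * u * (Polynomial.X ^ m' * v) =
      Polynomial.X ^ (m + m') * (u * v) := by
    rw [pow_add]; ring
  rw [e]
  have c1 := Polynomial.coeff_X_pow_mul (u * v) (m + m') 0
  have c2 := Polynomial.coeff_X_pow_mul u m 0
  have c3 := Polynomial.coeff_X_pow_mul v m' 0
  rw [zero_add] at c1 c2 c3
  rw [c1, c2, c3, Polynomial.mul_coeff_zero]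

theorem exists_conePoint_jet {n : ℕ} (I : Ideal (MvPolynomial (Fin N) ℂ))
    (γ : Fin N × Fin (n + 1) → ℂ) (h : OrdGe I n γ) :
    ∃ y : ConePoint I (bp γ), ∀ f ∈ I, y.φ 1 f = (along f γ).coeff n := by
  have h0 : ∀ f : MvPolynomial (Fin N) ℂ, (along f γ).coeff 0 = eval (bp γ) f := by
    intro f
    rw [LF.coeff_along_zero]
    rfl
  refine ⟨
    { φ := fun k f => (along f γ).coeff (n * k)
      base := fun f => by
        show (along f γ).coeff (n * 0) = eval (bp γ) f
        rw [Nat.mul_zero, h0]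
      add := fun k f _ g _ => by
        show (along (f + g) γ).coeff (n * k) = _
        rw [C2_along_add, Polynomial.coeff_add]
      mul := fun k l f hf g hg => by
        show (along (f * g) γ).coeff (n * (k + l)) = _
        rw [C2_along_mul, Nat.mul_add]
        exact C2_coeff_mul (C2_dvd_pow I γ n h _ _ hf) (C2_dvd_pow I γ n h _ _ hg) }, ?_⟩
  intro f _
  show (along f γ).coeff (n * 1) = _
  rw [Nat.mul_one]

/-- contact jets of the point defined by a jet -/
private theorem C2_contact {n : ℕ} (f : Fin r → MvPolynomial (Fin N) ℂ)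
    (γ : Fin N × Fin (n + 1) → ℂ) (h : TO f n γ) :
    ∃ y : ConePoint (Ideal.span (Set.range f)) (bp γ), ∀ d,
      contactArcs (Ideal.span (Set.range f)) (bp γ) y d = CT f (bp γ) (vec f n γ) d := by
  obtain ⟨y, hy⟩ := exists_conePoint_jet (Ideal.span (Set.range f)) γ ((ordGe_iff f n γ).2 h)
  refine ⟨y, fun d => ?_⟩
  rw [← CA_eq_CT f γ h d]
  ext δ
  constructor
  · rintro ⟨h1, h2⟩
    exact ⟨h1, fun g hg => ⟨(h2 g hg).1, ((h2 g hg).2).trans (hy g hg)⟩⟩
  · rintro ⟨h1, h2⟩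
    exact ⟨h1, fun g hg => ⟨(h2 g hg).1, ((h2 g hg).2).trans (hy g hg).symm⟩⟩

theorem sum_ne_zero {χ : K0 →+* ℤ} (hχ : IsEulerCharF χ) (f : Fin r → MvPolynomial (Fin N) ℂ)
    (p : Fin N → ℂ) {M : ℕ} (hM : 0 < M) (hper : PerT χ f p M) {lam : ℂ}
    (hv : CN.Vis χ (Ideal.span (Set.range f)) p lam) :
    lam ^ M = 1 ∧ (∀ j, eval p (f j) = 0) ∧ ∃ v : Fin r → ℂ, v ≠ 0 ∧
      ∑ m ∈ Finset.Icc 1 M, lam ^ m * ((χ (cls (CT f p v m)) : ℤ) : ℂ) ≠ 0 := by
  obtain ⟨n, γ, hn, hbp, hord, hne, Z, hZ, hP⟩ := hv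
  subst hbp
  have hto : TO f n γ := (ordGe_iff f n γ).1 hord
  have hv0 : vec f n γ ≠ 0 := (ne_iff f n γ hto).1 hne
  obtain ⟨y, hy⟩ := C2_contact f γ hto
  have hZ' : IsZeta (fun d => χ (cls (CT f (bp γ) (vec f n γ) d))) Z := by
    have e : (fun d => χ (cls (CA (Ideal.span (Set.range f)) (bp γ)
        (fun g => (along g γ).coeff n) d))) =
        fun d => χ (cls (CT f (bp γ) (vec f n γ) d)) := by
      funext d
      rw [CA_eq_CT f γ hto d]
    rw [← e]
    exact hZ
  have hdold : ∀ d : ℕ, 0 < d → (d : ℤ) ∣ ∑ x ∈ d.divisorsAntidiagonal,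
      ArithmeticFunction.moebius x.1 * (fun d => χ (cls (CT f (bp γ) (vec f n γ) d))) x.2 := by
    intro d hd
    have h1 := LFM.dold (LF.isEulerChar_of_F hχ) y hd
    simp only [hy] at h1
    exact h1
  obtain ⟨h1, h2⟩ := sum_ne_zero_of_zeta (fun d => χ (cls (CT f (bp γ) (vec f n γ) d))) hM
    (fun m hm => hper _ hv0 m hm) hdold hZ' hP
  refine ⟨h1, fun j => ?_, vec f n γ, hv0, h2⟩
  have h3 := hto j 0 hn
  rw [LF.coeff_along_zero] at h3
  exact h3

theorem sum_eq_zero {χ : K0 →+* ℤ} (hχ : IsEulerCharF χ) (f : Fin r → MvPolynomial (Fin N) ℂ)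
    (p : Fin N → ℂ) (v : Fin r → ℂ) (hv : v ≠ 0) {M : ℕ} (hM : 0 < M)
    (hper : ∀ d, 0 < d → χ (cls (CT f p v d)) = χ (cls (CT f p v (Nat.gcd d M)))) {lam : ℂ}
    (hl : lam ^ M = 1) (hno : ¬ CN.Vis χ (Ideal.span (Set.range f)) p lam) :
    ∑ m ∈ Finset.Icc 1 M, lam ^ m * ((χ (cls (CT f p v m)) : ℤ) : ℂ) = 0 := by
  by_cases he : ∃ n, 0 < n ∧ (CT f p v n).Nonempty
  · obtain ⟨n, hn, γ, h1, h2, h3⟩ := he
    subst h1
    subst h3
    obtain ⟨y, hy⟩ := C2_contact f γ h2
    have h4 := (LFM.lam_sum (LF.isEulerChar_of_F hχ) y hM (fun m hm => by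
      rw [hy, hy]
      exact hper m hm) lam (fun Z hZ hP => hno ⟨n, γ, hn, rfl, (ordGe_iff f n γ).2 h2,
        (ne_iff f n γ h2).2 hv, Z, by
          have e : (fun d => χ (cls (contactArcs (Ideal.span (Set.range f)) (bp γ) y d))) =
              fun d => χ (cls (CA (Ideal.span (Set.range f)) (bp γ)
                (fun g => (along g γ).coeff n) d)) := by
            funext d
            rw [CA_eq_CT f γ h2 d, hy]
          rw [← e]
          exact hZ, hP⟩) hM (dvd_refl M) hl).2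
    simp only [hy] at h4
    exact h4
  · push Not at he
    refine Finset.sum_eq_zero fun m hm => ?_
    rw [he m (Finset.mem_Icc.1 hm).1, cls_empty]
    simp

end HY
end MotMono
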