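import Pool.Agent.Lib.MP_4e5fcd_ag.HY.B4
import Pool.Agent.Lib.MP_4e5fcd_ag.HY.C2

/-!
# HY-C3: the visible values of `linGen f s`

`RR_smul`: `(c • C) *ᵥ v = c • (C *ᵥ v)` (`smul_mulVec_assoc`/`Matrix.smul_mulVec`), `c ≠ 0`.
`vis_gen`: suppose there is no such `C`. By `sum_ne_zero` there is `v₀ ≠ 0` with `∑ lam ^ m χ (CT f p v₀ m) ≠ 0`, `lam ^ M = 1`,
`f (p) = 0`. Let `w = fun _ => 1` (`≠ 0` as `0 < s`). `radon` with `S = Icc 1 M`, `W m = lam ^ m`: it suffices that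
`∑ lam ^ m χ (RR f p C w m) = 0` for all `C`. Choose `c ≠ 0` so small that `‖c * C i j‖ < ε` for all `i, j` (finitely many
entries). `RR f p C w m = RR f p (c • C) (c • w) m`, whose `χ` is `χ (CT (gen f s) (pt p (c • C)) (c • w) m)`
(`chi_CT_gen_zero`), `c • w ≠ 0`. `sum_eq_zero` for the tuple `gen f s` (ideal `linGen f s`, `rfl`) at the point
`pt p (c • C)`, with the period `M` (`per_RR` and `chi_CT_gen_zero`; `gcd d M > 0`).
`near_gen`: let `h` be from `Per`; choose `δ ≤ ε` with `h ≠ 0` on the ball of radius `δ` (continuity: `MvPolynomial.continuous_eval`,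
`Metric.continuous_iff`), `p` with `‖p‖ < δ` visible for `I`; `perT_of_perAt`; `vis_gen`, `norm_pt_lt`.
-/

open MvPolynomial Matrix

namespace MotMono
namespace HY

open CN

variable {N r s : ℕ}

theorem RR_smul (f : Fin r → MvPolynomial (Fin N) ℂ) (p : Fin N → ℂ)
    (C : Matrix (Fin s) (Fin r) ℂ) (w : Fin s → ℂ) (d : ℕ) {c : ℂ} (hc : c ≠ 0) :
    RR f p (c • C) (c • w) d = RR f p C w d := by
  ext γ
  simp only [RR, Set.mem_ofPred_eq]
  rw [Matrix.smul_mulVec, (smul_right_injective _ hc).eq_iff]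

theorem exists_ball {h : MvPolynomial (Fin N) ℂ} (h0 : eval 0 h ≠ 0) :
    ∃ δ : ℝ, 0 < δ ∧ ∀ q : Fin N → ℂ, ‖q‖ < δ → eval q h ≠ 0 := by
  have hc : Continuous fun q : Fin N → ℂ => eval q h := MvPolynomial.continuous_eval h
  have ho : IsOpen ((fun q : Fin N → ℂ => eval q h) ⁻¹' {0}ᶜ) :=
    isOpen_compl_singleton.preimage hc
  obtain ⟨δ, hδ, hb⟩ := Metric.isOpen_iff.1 ho 0 h0
  refine ⟨δ, hδ, fun q hq => ?_⟩
  exact hb (by rw [Metric.mem_ball, dist_zero_right]; exact hq)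

theorem vis_gen {χ : K0 →+* ℤ} (hχ : IsEulerCharF χ) (f : Fin r → MvPolynomial (Fin N) ℂ)
    (hs : 0 < s) (p : Fin N → ℂ) {M : ℕ} (hM : 0 < M) (hper : PerT χ f p M) {lam : ℂ}
    (hv : CN.Vis χ (Ideal.span (Set.range f)) p lam) {ε : ℝ} (hε : 0 < ε) :
    ∃ C : Matrix (Fin s) (Fin r) ℂ, (∀ i j, ‖C i j‖ < ε) ∧ CN.Vis χ (linGen f s) (pt p C) lam := by
  obtain ⟨hl, hp, v₀, hv₀, hne⟩ := sum_ne_zero hχ f p hM hper hv
  by_contra hcon
  have hw : (fun _ : Fin s => (1 : ℂ)) ≠ 0 := fun h => one_ne_zero (congrFun h ⟨0, hs⟩)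
  apply hne
  refine radon hχ f p hv₀ hw (Finset.Icc 1 M) (fun e he => (Finset.mem_Icc.1 he).1)
    (fun m => lam ^ m) ?_
  intro C
  obtain ⟨c, hc0, hcC⟩ : ∃ c : ℂ, c ≠ 0 ∧ ∀ i j, ‖(c • C) i j‖ < ε := by
    have hB : 0 < (∑ i, ∑ j, ‖C i j‖) + 1 :=
      add_pos_of_nonneg_of_pos (Finset.sum_nonneg fun i _ => Finset.sum_nonneg fun j _ =>
        norm_nonneg _) one_pos
    have hc : 0 < ε / ((∑ i, ∑ j, ‖C i j‖) + 1) := div_pos hε hB
    refine ⟨((ε / ((∑ i, ∑ j, ‖C i j‖) + 1) : ℝ) : ℂ), ?_, fun i j => ?_⟩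
    · exact_mod_cast hc.ne'
    · have h1 : ‖C i j‖ ≤ ∑ i, ∑ j, ‖C i j‖ :=
        (Finset.single_le_sum (f := fun j => ‖C i j‖) (fun j _ => norm_nonneg _)
          (Finset.mem_univ j)).trans
        (Finset.single_le_sum (f := fun i => ∑ j, ‖C i j‖) (fun i _ => Finset.sum_nonneg
          fun j _ => norm_nonneg _) (Finset.mem_univ i))
      rw [Matrix.smul_apply, smul_eq_mul, norm_mul, Complex.norm_real, Real.norm_eq_abs,
        abs_of_pos hc, div_mul_eq_mul_div, div_lt_iff₀ hB]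
      exact mul_lt_mul_of_pos_left (by linarith) hε
  have hcw : c • (fun _ : Fin s => (1 : ℂ)) ≠ 0 := smul_ne_zero hc0 hw
  have h1 := sum_eq_zero hχ (gen f s) (pt p (c • C)) (c • fun _ : Fin s => (1 : ℂ)) hcw hM
    (fun d hd => by
      rw [chi_CT_gen_zero hχ f p _ _ hp, chi_CT_gen_zero hχ f p _ _ hp]
      exact per_RR hχ f p hM hper _ hcw hd) hl (fun h => hcon ⟨c • C, hcC, h⟩)
  rw [← h1]
  refine Finset.sum_congr rfl fun m _ => ?_
  rw [chi_CT_gen_zero hχ f p _ _ hp, RR_smul f p C _ m hc0]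

theorem near_gen {χ : K0 →+* ℤ} (hχ : IsEulerCharF χ) (f : Fin r → MvPolynomial (Fin N) ℂ)
    (hs : 0 < s) {lam : ℂ} (hn : CN.Near χ (Ideal.span (Set.range f)) 0 lam)
    (hp : Per χ (Ideal.span (Set.range f)) 0) : CN.Near χ (linGen f s) 0 lam := by
  intro ε hε
  obtain ⟨h, h0, hq⟩ := hp
  obtain ⟨δ, hδ, hb⟩ := exists_ball h0
  obtain ⟨p, hpn, hv⟩ := hn (min δ ε) (lt_min hδ hε)
  rw [sub_zero] at hpn
  obtain ⟨M, hM, hper⟩ := perT_of_perAt f p (hq p (hb p (hpn.trans_le (min_le_left _ _))))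
  obtain ⟨C, hC, hvis⟩ := vis_gen hχ f hs p hM hper hv hε
  refine ⟨pt p C, ?_, hvis⟩
  rw [sub_zero]
  exact (norm_pt_lt p C hε).2 ⟨hpn.trans_le (min_le_right _ _), hC⟩

end HY
end MotMono
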