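import Pool.Agent.Lib.MP_4e5fcd_ag.HY.B4
import Pool.Agent.Lib.MP_4e5fcd_ag.HY.A2
import Pool.Agent.Lib.MP_4e5fcd_ag.HY.A1
import Pool.Agent.Lib.MP_4e5fcd_ag.Z1

/-!
# HY-C4: common periods for `linGen f s`, and the value `1`

`per_gen`: let `h` be from `Per`, take `rename (Fin.castAdd _) h` (`eval_rename_pt`, `eq_pt`). Every point is `pt p C` (`eq_pt`).
If `f (p) = 0`: `perT_of_perAt` gives `M`; `PerT χ (gen f s) (pt p C) M`: `chi_CT_gen_zero`, `per_RR`; `perAt_of_perT`
(`linGen f s = span (range (gen f s))`, `rfl`). If `f (p) ≠ 0` and `C f (p) = 0`: `M = 1`, all numbers are `1`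
(`chi_CT_gen_one`). If `C f (p) ≠ 0`: `CT (gen f s) (pt p C) w d = ∅` for `d > 0` (`eval_gen`, `LF.coeff_along_zero`), `M = 1`.
`near_one_gen`: let `ε > 0`. Some `f j₀ ≠ 0`, so there is `q`, `‖q‖ < ε`, with `f j₀ (q) ≠ 0` (a non-zero polynomial does not
vanish on a ball: see `exists_ne_near` in `TV/Y5.lean`, or `MvPolynomial.funext_set`/`Y5`). Let `C = 0` and `z` the jet of
level `n = 1` with `xj z` constant `q` and `yj z i j 1 = 1` if `j = j₀`, else `0` (`zj`): `along (gen f s i) z = T * f j₀ (q)`, so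
`OrdGe`, `vec (gen f s) 1 z = fun _ => f j₀ (q) ≠ 0` (`0 < s`; `ordGe_iff`, `ne_iff`). `Λ d = 1` for all `d ≥ 1`
(`CA_eq_CT`, `chi_CT_gen_one`), so `exists_zeta` (Z1) with `n = 1`, `c = 1`, `α = 1`.
-/

open MvPolynomial Matrix

namespace MotMono
namespace HY

open CN

variable {N r s : ℕ}

private theorem C4_exists_near {M : ℕ} {g : MvPolynomial (Fin M) ℂ} (hg : g ≠ 0) (ε : ℝ)
    (hε : 0 < ε) : ∃ q : Fin M → ℂ, ‖q‖ < ε ∧ eval q g ≠ 0 := by
  by_contra hcon
  push Not at hcon
  apply hg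
  have hinf : (Metric.ball (0 : ℂ) ε).Infinite :=
    infinite_of_mem_nhds 0 (Metric.ball_mem_nhds 0 hε)
  have : ∀ i : Fin M, (Metric.ball (0 : ℂ) ε).Infinite := fun _ => hinf
  refine MvPolynomial.funext_set (fun _ : Fin M => Metric.ball (0 : ℂ) ε) this ?_
  intro x hx
  rw [map_zero]
  refine hcon x ?_
  rw [pi_norm_lt_iff hε]
  intro i
  have h := hx i (Set.mem_univ i)
  rwa [mem_ball_zero_iff] at h

private theorem C4_linGen (f : Fin r → MvPolynomial (Fin N) ℂ) (s : ℕ) :
    linGen f s = Ideal.span (Set.range (gen f s)) := rfl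

private theorem C4_coeff_zero {n : ℕ} (g : MvPolynomial (Fin N) ℂ)
    (γ : Fin N × Fin (n + 1) → ℂ) : (along g γ).coeff 0 = eval (bp γ) g :=
  LF.coeff_along_zero g

private theorem C4_empty (f : Fin r → MvPolynomial (Fin N) ℂ) (p : Fin N → ℂ)
    (C : Matrix (Fin s) (Fin r) ℂ) (w : Fin s → ℂ)
    (hC : (C *ᵥ fun j => eval p (f j)) ≠ 0) {d : ℕ} (hd : 0 < d) :
    CT (gen f s) (pt p C) w d = ∅ := by
  rw [Set.eq_empty_iff_forall_notMem]
  rintro γ ⟨h1, h2, -⟩
  apply hC
  funext i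
  have h3 := h2 i 0 hd
  rw [C4_coeff_zero, h1, eval_gen] at h3
  exact h3

theorem per_gen {χ : K0 →+* ℤ} (hχ : IsEulerCharF χ) (f : Fin r → MvPolynomial (Fin N) ℂ)
    (s : ℕ) (hp : Per χ (Ideal.span (Set.range f)) 0) : Per χ (linGen f s) 0 := by
  obtain ⟨h, h0, h1⟩ := hp
  refine ⟨rename (Fin.castAdd (s * r)) h, ?_, ?_⟩
  · rw [eval_rename]
    exact h0
  · intro q hq
    rw [eq_pt q, eval_rename_pt] at hq
    rw [eq_pt q]
    set p : Fin N → ℂ := fun a => q (Fin.castAdd (s * r) a) with hp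
    set C : Matrix (Fin s) (Fin r) ℂ :=
      Matrix.of fun i j => q (Fin.natAdd N (finProdFinEquiv (i, j))) with hC
    rw [C4_linGen]
    by_cases c1 : ∀ j, eval p (f j) = 0
    · obtain ⟨M, hM, h2⟩ := perT_of_perAt f p (h1 p hq)
      refine perAt_of_perT (gen f s) (pt p C) hM ?_
      intro w hw d hd
      rw [chi_CT_gen_zero hχ f p C w c1, chi_CT_gen_zero hχ f p C w c1]
      exact per_RR hχ f p hM h2 C hw hd
    · have c2 : (fun j => eval p (f j)) ≠ 0 := fun h2 => c1 fun j => congrFun h2 j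
      refine perAt_of_perT (gen f s) (pt p C) Nat.one_pos ?_
      intro w hw d hd
      by_cases c3 : (C *ᵥ fun j => eval p (f j)) = 0
      · rw [chi_CT_gen_one hχ f p C w c2 c3 hd,
          chi_CT_gen_one hχ f p C w c2 c3 (Nat.gcd_pos_of_pos_left _ hd)]
      · rw [C4_empty f p C w c3 hd, C4_empty f p C w c3 (Nat.gcd_pos_of_pos_left _ hd),
          cls_empty, cls_empty]

theorem near_one_gen {χ : K0 →+* ℤ} (hχ : IsEulerCharF χ)
    (f : Fin r → MvPolynomial (Fin N) ℂ) (hs : 0 < s) (hf : Ideal.span (Set.range f) ≠ ⊥) :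
    CN.Near χ (linGen f s) 0 1 := by
  intro ε hε
  obtain ⟨j₀, hj₀⟩ : ∃ j₀, f j₀ ≠ 0 := by
    by_contra hcon
    push Not at hcon
    apply hf
    rw [Ideal.span_eq_bot]
    rintro _ ⟨j, rfl⟩
    exact hcon j
  obtain ⟨q, hq, hq2⟩ := C4_exists_near hj₀ ε hε
  set z : Fin (N + s * r) × Fin (1 + 1) → ℂ := zj (fun a => if a.2 = 0 then q a.1 else 0)
    (fun _ j l => if l = 1 ∧ j = j₀ then 1 else 0) with hz
  have hx : xj z = fun a => if a.2 = 0 then q a.1 else 0 := xj_zj _ _
  have hy : yj z = fun _ j l => if l = 1 ∧ j = j₀ then 1 else 0 := yj_zj _ _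
  have hbx : bp (xj z) = q := by
    rw [hx]
    funext a
    simp [bp]
  have hb : bp z = pt q (0 : Matrix (Fin s) (Fin r) ℂ) := by
    rw [bp_eq_pt]
    refine ⟨hbx, fun i j => ?_⟩
    rw [hy]
    simp
  have h0 : TO (gen f s) 1 z := by
    intro i l hl
    have : l = 0 := by omega
    subst this
    rw [C4_coeff_zero, hb, eval_gen, Matrix.zero_mulVec]
    rfl
  have h1 : ∀ i, (along (gen f s i) z).coeff 1 = eval q (f j₀) := by
    intro i
    rw [along_gen, Polynomial.finsetSum_coeff, Finset.sum_eq_single j₀]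
    · rw [Polynomial.coeff_mul, Finset.Nat.antidiagonal_succ]
      simp only [Finset.Nat.antidiagonal_zero, Finset.map_singleton, Finset.sum_cons,
        Finset.sum_singleton, Function.Embedding.prodMap, Function.Embedding.coeFn_mk,
        Prod.map_apply]
      have e0 : (arc z (Fin.natAdd N (finProdFinEquiv (i, j₀)))).coeff 0 = 0 := by
        rw [a1_arc_coeff, dif_pos (by norm_num)]
        have := congrFun (congrFun (congrFun hy i) j₀) 0
        simpa [yj] using this
      have e1 : (arc z (Fin.natAdd N (finProdFinEquiv (i, j₀)))).coeff 1 = 1 := by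
        rw [a1_arc_coeff, dif_pos (by norm_num)]
        have := congrFun (congrFun (congrFun hy i) j₀) 1
        simpa [yj] using this
      have e2 : (along (f j₀) (xj z)).coeff 0 = eval q (f j₀) := by
        rw [C4_coeff_zero, hbx]
      simp only [e0, zero_mul, zero_add]
      simp [e1, e2]
    · intro j _ hj
      rw [Polynomial.coeff_mul]
      refine Finset.sum_eq_zero fun a ha => ?_
      have : (arc z (Fin.natAdd N (finProdFinEquiv (i, j)))).coeff a.1 = 0 := by
        rw [a1_arc_coeff]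
        split_ifs with hh
        · have := congrFun (congrFun (congrFun hy i) j) ⟨a.1, hh⟩
          rw [if_neg (fun h => hj h.2)] at this
          exact this
        · rfl
      rw [this, zero_mul]
    · intro h
      exact absurd (Finset.mem_univ j₀) h
  have hv : vec (gen f s) 1 z ≠ 0 := by
    intro h
    exact hq2 ((h1 ⟨0, hs⟩).symm.trans (congrFun h ⟨0, hs⟩))
  have hvis : (fun j => eval q (f j)) ≠ 0 := fun h => hq2 (congrFun h j₀)
  refine ⟨pt q (0 : Matrix (Fin s) (Fin r) ℂ), ?_, 1, z, le_refl 1, hb, ?_, ?_, ?_⟩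
  · rw [sub_zero, norm_pt_lt _ _ hε]
    refine ⟨hq, fun i j => ?_⟩
    simpa using hε
  · rw [C4_linGen, ordGe_iff]
    exact h0
  · rw [C4_linGen, ne_iff _ _ _ h0]
    exact hv
  · rw [C4_linGen]
    have hset : ∀ d, CA (Ideal.span (Set.range (gen f s))) (pt q (0 : Matrix (Fin s) (Fin r) ℂ))
        (fun g => (along g z).coeff 1) d =
        CT (gen f s) (pt q (0 : Matrix (Fin s) (Fin r) ℂ)) (vec (gen f s) 1 z) d := by
      intro d
      have := CA_eq_CT (gen f s) z h0 d
      rw [hb] at this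
      exact this
    simp only [hset]
    refine exists_zeta 1 Nat.one_pos 1 one_ne_zero 1 (one_pow 1) _ ?_
    intro d hd
    rw [if_pos (one_dvd d)]
    rw [chi_CT_gen_one hχ f q 0 _ hvis (Matrix.zero_mulVec _) hd]
    norm_num

end HY
end MotMono
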