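import Pool.Agent.Lib.MP_4e5fcd_ag.TV.Y0
import Pool.Agent.Lib.MP_4e5fcd_ag.TV.Y1
import Pool.Agent.Lib.MP_4e5fcd_ag.CN.P3
import Pool.Agent.Lib.MP_4e5fcd_ag.CN.P4

/-!
# HY-E1: a new variable as a generator: the zeta function at the origin

Copy of `TV/Y2.lean` (`ureg_adj`) for the single family `Γ = {0}`, `σ = Empty` (`Zf_zero`, `cls_singleton`:
`Zf I {0} = Zmot I`): with `P = mk g` one has `(1 - X) P = C c - Zmot I`, `Zmot (adjVar I) = C L⁻¹ (C c - (1 - X) rescale L⁻¹ P)`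
(TV/Y2, steps (1)-(3); all lemmas there are private: copy them). Let `D, K` be from `exists_ubd` for
`Zmot I ∈ polarRing (s₀ + 1)`; continue with step (4) (`ubd_sub`, `ubd_const`, `ubd_of_mul`, `den_rescale`,
`ubd_rescale`, `ubd_mul_left`) and `mem_of_ubd`.
-/

open MvPolynomial

namespace MotMono
namespace HY

open CN TV

/-- the jets of the family `Γ` along which `I` vanishes to order `m` -/
private def e1S {σ : Type} {N : ℕ} (I : Ideal (MvPolynomial (Fin N) ℂ))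
    (Γ : Set (σ ⊕ Fin N → ℂ)) (m k : ℕ) : Set (σ ⊕ (Fin N × Fin (k + 1)) → ℂ) :=
  {z | Sum.elim (fun s => z (Sum.inl s)) (fun i => z (Sum.inr (i, 0))) ∈ Γ ∧
    OrdGe I m (fun q => z (Sum.inr q))}

private theorem e1_constr {σ : Type} {N : ℕ} (I : Ideal (MvPolynomial (Fin N) ℂ))
    {Γ : Set (σ ⊕ Fin N → ℂ)} (hΓ : Constr Γ) (m k : ℕ) : Constr (e1S I Γ m k) := by
  have h1 := hΓ.comp (σ := σ ⊕ (Fin N × Fin (k + 1)))
    (Sum.elim Sum.inl fun i => Sum.inr (i, 0))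
  have h2 := (constr_ordGe (n := k + 1) I m).comp (σ := σ ⊕ (Fin N × Fin (k + 1))) Sum.inr
  have e : {x : σ ⊕ (Fin N × Fin (k + 1)) → ℂ |
      (fun j => x (Sum.elim Sum.inl (fun i => Sum.inr (i, 0)) j)) ∈ Γ} ∩
      {x | (fun j => x (Sum.inr j)) ∈ {γ : Fin N × Fin (k + 1) → ℂ | OrdGe I m γ}} =
      e1S I Γ m k := by
    ext z
    simp only [Set.mem_inter_iff, Set.mem_ofPred_eq, e1S]
    have : (fun j => z (Sum.elim Sum.inl (fun i => Sum.inr (i, 0)) j)) =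
        Sum.elim (fun s => z (Sum.inl s)) (fun i => z (Sum.inr (i, 0))) := by
      funext j
      rcases j with s | i <;> rfl
    rw [this]
  have h3 := h1.inter h2
  rwa [e] at h3

private theorem e1_sub {σ : Type} {N : ℕ} (I : Ideal (MvPolynomial (Fin N) ℂ))
    (Γ : Set (σ ⊕ Fin N → ℂ)) (k : ℕ) : e1S I Γ (k + 1) k ⊆ e1S I Γ k k := by
  rintro z ⟨h1, h2⟩
  exact ⟨h1, fun f hf l hl => h2 f hf l (by omega)⟩

private theorem e1_fam {σ : Type} {N : ℕ} (I : Ideal (MvPolynomial (Fin N) ℂ))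
    (Γ : Set (σ ⊕ Fin N → ℂ)) (k : ℕ) : fam I Γ k = e1S I Γ k k \ e1S I Γ (k + 1) k := by
  ext z
  constructor
  · rintro ⟨h1, h2, f, hf, h3⟩
    refine ⟨⟨h1, h2⟩, ?_⟩
    rintro ⟨-, h4⟩
    exact h3 (h4 f hf k (Nat.lt_succ_self k))
  · rintro ⟨⟨h1, h2⟩, h3⟩
    refine ⟨h1, h2, ?_⟩
    by_contra hc
    push Not at hc
    apply h3
    refine ⟨h1, fun f hf l hl => ?_⟩
    rcases Nat.lt_succ_iff_lt_or_eq.mp hl with h | h
    · exact h2 f hf l h
    · rw [h]
      exact hc f hf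

private theorem e1_step {σ : Type} {N : ℕ} (I : Ideal (MvPolynomial (Fin N) ℂ))
    (Γ : Set (σ ⊕ Fin N → ℂ)) (k : ℕ) :
    e1S I Γ (k + 1) (k + 1) = {z | tr (Nat.le_succ k) z ∈ e1S I Γ (k + 1) k} := by
  ext z
  have e1 : (Sum.elim (fun s => tr (Nat.le_succ k) z (Sum.inl s))
      (fun i => tr (Nat.le_succ k) z (Sum.inr (i, 0))) : σ ⊕ Fin N → ℂ) =
      Sum.elim (fun s => z (Sum.inl s)) (fun i => z (Sum.inr (i, 0))) := by
    funext j
    rcases j with s | i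
    · rfl
    · rfl
  constructor
  · rintro ⟨h1, h2⟩
    refine ⟨?_, fun f hf l hl => ?_⟩
    · rw [e1]
      exact h1
    · rw [along_tr (Nat.le_succ k) z f l (by omega)]
      exact h2 f hf l hl
  · rintro ⟨h1, h2⟩
    rw [e1] at h1
    refine ⟨h1, fun f hf l hl => ?_⟩
    rw [← along_tr (Nat.le_succ k) z f l (by omega)]
    exact h2 f hf l hl

private theorem e1_zero {σ : Type} [Finite σ] {N : ℕ} (I : Ideal (MvPolynomial (Fin N) ℂ))
    {Γ : Set (σ ⊕ Fin N → ℂ)} (hΓ : Constr Γ) : cls (e1S I Γ 0 0) = cls Γ := by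
  refine (cls_iso hΓ (e1_constr I hΓ 0 0) ?_).symm
  refine ⟨fun x s => Sum.elim (fun t => x (Sum.inl t)) (fun q => x (Sum.inr q.1)) s,
    fun z s => Sum.elim (fun t => z (Sum.inl t)) (fun i => z (Sum.inr (i, 0))) s, ?_, ?_, ?_, ?_,
    ?_, ?_⟩
  · rintro (t | q)
    · exact regFun_coord _ (Sum.inl t)
    · exact regFun_coord _ (Sum.inr q.1)
  · rintro (t | i)
    · exact regFun_coord _ (Sum.inl t)
    · exact regFun_coord _ (Sum.inr (i, 0))
  · intro x hx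
    have e1 : (Sum.elim (fun s => x (Sum.inl s)) (fun i => x (Sum.inr i)) : σ ⊕ Fin N → ℂ) = x := by
      funext s
      rcases s with t | i <;> rfl
    refine ⟨?_, ?_⟩
    · show (Sum.elim (fun s => x (Sum.inl s)) (fun i => x (Sum.inr i)) : σ ⊕ Fin N → ℂ) ∈ Γ
      rw [e1]; exact hx
    · intro f _ l hl
      exact absurd hl (Nat.not_lt_zero l)
  · intro z hz
    exact hz.1
  · intro x _
    funext s
    rcases s with t | i <;> rfl
  · intro z _
    funext s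
    rcases s with t | ⟨i, j⟩
    · rfl
    · have hj : j = 0 := Fin.ext (by have := j.2; omega)
      rw [hj]
      rfl

private theorem e1_LL (k : ℕ) : algebraMap K0 MC (LL ^ k) = ((Lu ^ (k : ℤ) : MCˣ) : MC) := by
  rw [map_pow, zpow_natCast, Units.val_pow_eq_pow_val]
  rfl

private noncomputable def e1g {σ : Type} {N : ℕ} [Finite σ] (I : Ideal (MvPolynomial (Fin N) ℂ))
    (Γ : Set (σ ⊕ Fin N → ℂ)) (k : ℕ) : MC :=
  algebraMap K0 MC (cls (e1S I Γ (k + 1) k)) * ((Lu ^ (-(N * (k + 1) : ℤ)) : MCˣ) : MC)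

private theorem e1_tel {σ : Type} {N : ℕ} [Finite σ] (I : Ideal (MvPolynomial (Fin N) ℂ))
    {Γ : Set (σ ⊕ Fin N → ℂ)} (hΓ : Constr Γ) :
    (1 - PowerSeries.X) * PowerSeries.mk (e1g I Γ) =
      PowerSeries.C (algebraMap K0 MC (cls Γ) * ((Lu ^ (-(N : ℤ)) : MCˣ) : MC)) - Zf I Γ := by
  have hcls : ∀ k, cls (fam I Γ k) = cls (e1S I Γ k k) - cls (e1S I Γ (k + 1) k) := by
    intro k
    rw [e1_fam, cls_diff (e1_constr I hΓ k k) (e1_constr I hΓ (k + 1) k) (e1_sub I Γ k)]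
  ext k
  rw [sub_mul, one_mul, map_sub, map_sub, PowerSeries.coeff_mk, PowerSeries.coeff_C]
  unfold Zf
  rw [PowerSeries.coeff_mk, hcls, map_sub]
  rcases k with _ | k
  · rw [PowerSeries.coeff_zero_X_mul, if_pos rfl, e1_zero I hΓ]
    unfold e1g
    have e : (-(N * ((0 : ℕ) + 1) : ℤ)) = -(N : ℤ) := by push_cast; ring
    rw [e]
    ring
  · rw [PowerSeries.coeff_succ_X_mul, PowerSeries.coeff_mk, if_neg (Nat.succ_ne_zero k), e1_step,
      cls_trunc (Nat.le_succ k) (e1_constr I hΓ (k + 1) k), map_mul, e1_LL]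
    unfold e1g
    have e1 : ((Lu ^ ((N * (k + 1 - k) : ℕ) : ℤ) : MCˣ) : MC) *
        ((Lu ^ (-(N * ((k + 1 : ℕ) + 1) : ℤ)) : MCˣ) : MC) =
        ((Lu ^ (-(N * (k + 1) : ℤ)) : MCˣ) : MC) := by
      rw [← Units.val_mul, ← zpow_add]
      congr 2
      rw [Nat.add_sub_cancel_left]
      push_cast
      ring
    rw [sub_mul, mul_assoc _ ((Lu ^ ((N * (k + 1 - k) : ℕ) : ℤ) : MCˣ) : MC), e1]
    ring

/-- the point with last coordinate `0` -/
private noncomputable def e1e {σ : Type} {N : ℕ} (w : σ ⊕ Fin N → ℂ) : σ ⊕ Fin (N + 1) → ℂ :=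
  Sum.elim (fun s => w (Sum.inl s)) (Fin.snoc (α := fun _ => ℂ) (fun i => w (Sum.inr i)) 0)

private noncomputable def e1r {σ : Type} {N : ℕ} (z : σ ⊕ Fin (N + 1) → ℂ) : σ ⊕ Fin N → ℂ :=
  Sum.elim (fun s => z (Sum.inl s)) (fun i => z (Sum.inr i.castSucc))

private theorem e1_re {σ : Type} {N : ℕ} (w : σ ⊕ Fin N → ℂ) : e1r (e1e w) = w := by
  funext s
  rcases s with s | i
  · rfl
  · show (Fin.snoc (α := fun _ => ℂ) (fun i => w (Sum.inr i)) 0 : Fin (N + 1) → ℂ) i.castSucc = _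
    rw [Fin.snoc_castSucc]

private theorem e1_er {σ : Type} {N : ℕ} (z : σ ⊕ Fin (N + 1) → ℂ)
    (hz : z (Sum.inr (Fin.last N)) = 0) : e1e (e1r z) = z := by
  funext s
  rcases s with s | i
  · rfl
  · show (Fin.snoc (α := fun _ => ℂ) (fun i => z (Sum.inr i.castSucc)) 0 : Fin (N + 1) → ℂ) i = _
    induction i using Fin.lastCases with
    | last => rw [Fin.snoc_last, hz]
    | cast i => rw [Fin.snoc_castSucc]

private theorem e1_constr' {σ : Type} {N : ℕ} {Γ : Set (σ ⊕ Fin (N + 1) → ℂ)} (hΓ : Constr Γ) :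
    Constr {w : σ ⊕ Fin N → ℂ | e1e w ∈ Γ} := by
  have h := hΓ.preimage (Sum.elim (fun s => (X (Sum.inl s) : MvPolynomial (σ ⊕ Fin N) ℂ))
    (Fin.snoc (α := fun _ => MvPolynomial (σ ⊕ Fin N) ℂ) (fun i => X (Sum.inr i)) 0))
  have e : ∀ w : σ ⊕ Fin N → ℂ, (fun j => eval w (Sum.elim
      (fun s => (X (Sum.inl s) : MvPolynomial (σ ⊕ Fin N) ℂ))
      (Fin.snoc (α := fun _ => MvPolynomial (σ ⊕ Fin N) ℂ) (fun i => X (Sum.inr i)) 0) j)) =
      e1e w := by
    intro w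
    funext j
    rcases j with s | i
    · show eval w (X (Sum.inl s)) = w (Sum.inl s)
      rw [eval_X]
    · show eval w ((Fin.snoc (α := fun _ => MvPolynomial (σ ⊕ Fin N) ℂ)
        (fun i => X (Sum.inr i)) 0 : Fin (N + 1) → _) i) =
        (Fin.snoc (α := fun _ => ℂ) (fun i => w (Sum.inr i)) 0 : Fin (N + 1) → ℂ) i
      induction i using Fin.lastCases with
      | last => rw [Fin.snoc_last, Fin.snoc_last, map_zero]
      | cast i => rw [Fin.snoc_castSucc, Fin.snoc_castSucc, eval_X]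
  simp only [e] at h
  exact h

private theorem e1_clsΓ {σ : Type} [Finite σ] {N : ℕ} {Γ : Set (σ ⊕ Fin (N + 1) → ℂ)}
    (hΓ : Constr Γ) (h0 : ∀ z ∈ Γ, z (Sum.inr (Fin.last N)) = 0) :
    cls Γ = cls {w : σ ⊕ Fin N → ℂ | e1e w ∈ Γ} := by
  refine cls_iso hΓ (e1_constr' hΓ) ?_
  refine ⟨e1r, e1e, ?_, ?_, ?_, ?_, ?_, ?_⟩
  · rintro (s | i)
    · exact regFun_coord _ (Sum.inl s)
    · exact regFun_coord _ (Sum.inr i.castSucc)
  · rintro (s | i)
    · exact regFun_coord _ (Sum.inl s)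
    · induction i using Fin.lastCases with
      | last =>
        have e : (fun w : σ ⊕ Fin N → ℂ => e1e w (Sum.inr (Fin.last N))) = fun _ => 0 := by
          funext w
          show (Fin.snoc (α := fun _ => ℂ) (fun i => w (Sum.inr i)) 0 : Fin (N + 1) → ℂ) _ = _
          rw [Fin.snoc_last]
        rw [e]
        exact regFun_const _ 0
      | cast i =>
        have e : (fun w : σ ⊕ Fin N → ℂ => e1e w (Sum.inr i.castSucc)) =
            fun w => w (Sum.inr i) := by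
          funext w
          show (Fin.snoc (α := fun _ => ℂ) (fun i => w (Sum.inr i)) 0 : Fin (N + 1) → ℂ) _ = _
          rw [Fin.snoc_castSucc]
        rw [e]
        exact regFun_coord _ (Sum.inr i)
  · intro z hz
    show e1e (e1r z) ∈ Γ
    rw [e1_er z (h0 z hz)]
    exact hz
  · intro w hw
    exact hw
  · intro z hz
    exact e1_er z (h0 z hz)
  · intro w _
    exact e1_re w

private theorem e1_ord {N k : ℕ} (I : Ideal (MvPolynomial (Fin N) ℂ))
    (γ : Fin (N + 1) × Fin (k + 1) → ℂ) :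
    OrdGe (adjVar I) (k + 1) γ ↔
      OrdGe I (k + 1) (fun q => γ (q.1.castSucc, q.2)) ∧ ∀ l, γ (Fin.last N, l) = 0 := by
  unfold adjVar
  rw [ordGe_span]
  constructor
  · intro h
    refine ⟨fun f hf l hl => ?_, fun l => ?_⟩
    · have h1 := h (rename Fin.castSucc f) (Or.inl ⟨f, hf, rfl⟩) l hl
      rw [along_castSucc] at h1
      exact h1
    · have h1 := h (X (Fin.last N)) (Or.inr rfl) l l.2
      unfold along at h1
      rw [aeval_X, a1_arc_coeff, dif_pos l.2] at h1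
      exact h1
  · rintro ⟨h1, h2⟩ f (⟨g, hg, rfl⟩ | rfl) l hl
    · rw [along_castSucc]
      exact h1 g hg l hl
    · unfold along
      rw [aeval_X, a1_arc_coeff, dif_pos hl]
      exact h2 _

private theorem e1_clsG {σ : Type} [Finite σ] {N : ℕ} (I : Ideal (MvPolynomial (Fin N) ℂ))
    {Γ : Set (σ ⊕ Fin (N + 1) → ℂ)} (hΓ : Constr Γ) (k : ℕ) :
    cls (e1S (adjVar I) Γ (k + 1) k) =
      cls (e1S I {w : σ ⊕ Fin N → ℂ | e1e w ∈ Γ} (k + 1) k) := by
  have key : ∀ w : σ ⊕ (Fin N × Fin (k + 1)) → ℂ,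
      (Sum.elim (fun s => w (Sum.inl s)) (fun q : Fin (N + 1) × Fin (k + 1) =>
        (Fin.snoc (α := fun _ => ℂ) (fun i => w (Sum.inr (i, q.2))) 0 : Fin (N + 1) → ℂ) q.1) :
        σ ⊕ (Fin (N + 1) × Fin (k + 1)) → ℂ) ∈ e1S (adjVar I) Γ (k + 1) k ↔
      w ∈ e1S I {w : σ ⊕ Fin N → ℂ | e1e w ∈ Γ} (k + 1) k := by
    intro w
    refine and_congr ?_ ?_
    · have e : (Sum.elim (fun s => w (Sum.inl s)) (fun i : Fin (N + 1) =>
          (Fin.snoc (α := fun _ => ℂ) (fun i => w (Sum.inr (i, 0))) 0 : Fin (N + 1) → ℂ) i) :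
          σ ⊕ Fin (N + 1) → ℂ) =
          e1e (Sum.elim (fun s => w (Sum.inl s)) (fun i => w (Sum.inr (i, 0)))) := by
        funext j
        rcases j with s | i <;> rfl
      exact Eq.to_iff (congrArg (· ∈ Γ) e)
    · rw [e1_ord]
      have e : (fun q : Fin N × Fin (k + 1) => (Sum.elim (fun s => w (Sum.inl s))
          (fun q : Fin (N + 1) × Fin (k + 1) =>
          (Fin.snoc (α := fun _ => ℂ) (fun i => w (Sum.inr (i, q.2))) 0 : Fin (N + 1) → ℂ) q.1) :
          σ ⊕ (Fin (N + 1) × Fin (k + 1)) → ℂ) (Sum.inr (q.1.castSucc, q.2))) =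
          fun q => w (Sum.inr q) := by
        funext q
        show (Fin.snoc (α := fun _ => ℂ) (fun i => w (Sum.inr (i, q.2))) 0 : Fin (N + 1) → ℂ)
          q.1.castSucc = _
        rw [Fin.snoc_castSucc]
      rw [e]
      refine and_iff_left ?_
      intro l
      show (Fin.snoc (α := fun _ => ℂ) (fun i => w (Sum.inr (i, l))) 0 : Fin (N + 1) → ℂ)
          (Fin.last N) = 0
      rw [Fin.snoc_last]
  have hinv : ∀ z ∈ e1S (adjVar I) Γ (k + 1) k,
      (Sum.elim (fun s => z (Sum.inl s)) (fun q : Fin (N + 1) × Fin (k + 1) =>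
        (Fin.snoc (α := fun _ => ℂ) (fun i : Fin N => z (Sum.inr (i.castSucc, q.2))) 0 :
          Fin (N + 1) → ℂ) q.1) : σ ⊕ (Fin (N + 1) × Fin (k + 1)) → ℂ) = z := by
    rintro z ⟨-, h2⟩
    rw [e1_ord] at h2
    funext s
    rcases s with s | ⟨i, l⟩
    · rfl
    · show (Fin.snoc (α := fun _ => ℂ) (fun i : Fin N => z (Sum.inr (i.castSucc, l))) 0 :
          Fin (N + 1) → ℂ) i = _
      induction i using Fin.lastCases with
      | last =>
        rw [Fin.snoc_last]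
        exact (h2.2 l).symm
      | cast i => rw [Fin.snoc_castSucc]
  refine cls_iso (e1_constr _ hΓ _ _) (e1_constr I (e1_constr' hΓ) _ _) ?_
  refine ⟨fun z => Sum.elim (fun s => z (Sum.inl s)) (fun q => z (Sum.inr (q.1.castSucc, q.2))),
    fun w => Sum.elim (fun s => w (Sum.inl s)) (fun q : Fin (N + 1) × Fin (k + 1) =>
        (Fin.snoc (α := fun _ => ℂ) (fun i => w (Sum.inr (i, q.2))) 0 : Fin (N + 1) → ℂ) q.1),
    ?_, ?_, ?_, ?_, ?_, ?_⟩
  · rintro (s | q)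
    · exact regFun_coord _ (Sum.inl s)
    · exact regFun_coord _ (Sum.inr (q.1.castSucc, q.2))
  · rintro (s | ⟨i, l⟩)
    · exact regFun_coord _ (Sum.inl s)
    · induction i using Fin.lastCases with
      | last =>
        have e : (fun w : σ ⊕ (Fin N × Fin (k + 1)) → ℂ =>
            (Fin.snoc (α := fun _ => ℂ) (fun i => w (Sum.inr (i, l))) 0 : Fin (N + 1) → ℂ)
              (Fin.last N)) = fun _ => 0 := by
          funext w
          rw [Fin.snoc_last]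
        show RegFun _ (fun w : σ ⊕ (Fin N × Fin (k + 1)) → ℂ =>
            (Fin.snoc (α := fun _ => ℂ) (fun i => w (Sum.inr (i, l))) 0 : Fin (N + 1) → ℂ)
              (Fin.last N))
        rw [e]
        exact regFun_const _ 0
      | cast i =>
        have e : (fun w : σ ⊕ (Fin N × Fin (k + 1)) → ℂ =>
            (Fin.snoc (α := fun _ => ℂ) (fun i => w (Sum.inr (i, l))) 0 : Fin (N + 1) → ℂ)
              i.castSucc) = fun w => w (Sum.inr (i, l)) := by
          funext w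
          rw [Fin.snoc_castSucc]
        show RegFun _ (fun w : σ ⊕ (Fin N × Fin (k + 1)) → ℂ =>
            (Fin.snoc (α := fun _ => ℂ) (fun i => w (Sum.inr (i, l))) 0 : Fin (N + 1) → ℂ)
              i.castSucc)
        rw [e]
        exact regFun_coord _ (Sum.inr (i, l))
  · intro z hz
    rw [← key]
    have h := hinv z hz
    have e : (Sum.elim (fun s => z (Sum.inl s)) (fun q : Fin (N + 1) × Fin (k + 1) =>
        (Fin.snoc (α := fun _ => ℂ) (fun i : Fin N => z (Sum.inr (i.castSucc, q.2))) 0 :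
          Fin (N + 1) → ℂ) q.1) : σ ⊕ (Fin (N + 1) × Fin (k + 1)) → ℂ) ∈
          e1S (adjVar I) Γ (k + 1) k := by
      rw [h]
      exact hz
    exact e
  · intro w hw
    exact (key w).2 hw
  · intro z hz
    exact hinv z hz
  · intro w _
    funext s
    rcases s with s | ⟨i, l⟩
    · rfl
    · show (Fin.snoc (α := fun _ => ℂ) (fun i => w (Sum.inr (i, l))) 0 : Fin (N + 1) → ℂ)
        i.castSucc = _
      rw [Fin.snoc_castSucc]

private theorem e1_g {σ : Type} [Finite σ] {N : ℕ} (I : Ideal (MvPolynomial (Fin N) ℂ))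
    {Γ : Set (σ ⊕ Fin (N + 1) → ℂ)} (hΓ : Constr Γ) :
    PowerSeries.mk (e1g (adjVar I) Γ) = PowerSeries.C ((Lu⁻¹ : MCˣ) : MC) *
      PowerSeries.rescale ((Lu⁻¹ : MCˣ) : MC)
        (PowerSeries.mk (e1g I {w : σ ⊕ Fin N → ℂ | e1e w ∈ Γ})) := by
  ext k
  rw [PowerSeries.coeff_mk, PowerSeries.coeff_C_mul, PowerSeries.coeff_rescale,
    PowerSeries.coeff_mk]
  unfold e1g
  rw [e1_clsG I hΓ k]
  have e : ((Lu ^ (-(((N + 1 : ℕ) : ℤ) * (k + 1))) : MCˣ) : MC) =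
      ((Lu⁻¹ : MCˣ) : MC) * (((Lu⁻¹ : MCˣ) : MC) ^ k *
        ((Lu ^ (-(N * (k + 1) : ℤ)) : MCˣ) : MC)) := by
    rw [← Units.val_pow_eq_pow_val, ← Units.val_mul, ← Units.val_mul]
    congr 1
    have h1 : (Lu⁻¹ : MCˣ) ^ k = Lu ^ (-(k : ℤ)) := by
      rw [inv_pow, zpow_neg, zpow_natCast]
    have h2 : (Lu⁻¹ : MCˣ) = Lu ^ (-(1 : ℤ)) := by
      rw [zpow_neg, zpow_one]
    rw [h1, h2, ← zpow_add, ← zpow_add]
    congr 1
    push_cast
    ring
  rw [e]
  ring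


theorem zmot_adj {s₀ : ℚ} (hs : s₀ + 1 ≠ 0) {N : ℕ} (I : Ideal (MvPolynomial (Fin N) ℂ))
    (h : Zmot I ∈ polarRing (s₀ + 1)) : Zmot (adjVar I) ∈ polarRing s₀ := by
  obtain ⟨D, hD, K, hK⟩ := exists_ubd h
  obtain ⟨k₀, hk₀⟩ := den_deg hD
  have hX1 : ∀ k, 1 < k → PowerSeries.coeff k (1 - PowerSeries.X : PowerSeries MC) = 0 := by
    intro k hk
    rw [map_sub, PowerSeries.coeff_one, if_neg (by omega), PowerSeries.coeff_X, if_neg (by omega),
      sub_zero]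
  have hX : (1 - PowerSeries.X : PowerSeries MC) ∈ Den (s₀ + 1) := by
    have h1 := den_gen (s₀ := s₀ + 1) 0 1 Nat.one_pos (by
      rw [Int.cast_zero, neg_zero, zero_div]
      exact fun h => hs h.symm)
    rw [neg_zero, zpow_zero, Units.val_one, map_one, one_mul, pow_one] at h1
    exact h1
  obtain ⟨D', hD'e⟩ : ∃ D', D' = PowerSeries.rescale ((Lu⁻¹ : MCˣ) : MC)
    (D * (1 - PowerSeries.X)) := ⟨_, rfl⟩
  have hD' : D' ∈ Den s₀ := by
    rw [hD'e]
    exact den_rescale (den_mul hD hX)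
  obtain ⟨k₁, hk₁⟩ := den_deg hD'
  obtain ⟨Γ₀, hΓ₀⟩ : ∃ Γ₀ : Set (Empty ⊕ Fin (N + 1) → ℂ), Γ₀ = {0} := ⟨_, rfl⟩
  have hΓ0 : Constr Γ₀ := by
    rw [hΓ₀]
    exact constr_singleton _
  have hw : {w : Empty ⊕ Fin N → ℂ | e1e w ∈ Γ₀} = {0} := by
    ext w
    rw [hΓ₀]
    simp only [Set.mem_ofPred_eq, Set.mem_singleton_iff]
    constructor
    · intro hw
      rw [← e1_re w, hw]
      funext s
      rcases s with s | i
      · rfl
      · rfl
    · rintro rfl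
      funext s
      rcases s with s | i
      · rfl
      · show (Fin.snoc (α := fun _ => ℂ) (fun _ => (0 : ℂ)) 0 : Fin (N + 1) → ℂ) i = 0
        induction i using Fin.lastCases with
        | last => rw [Fin.snoc_last]
        | cast i => rw [Fin.snoc_castSucc]
  have hZ0 : Zf (adjVar I) Γ₀ = Zmot (adjVar I) := by
    rw [Zf_zero (adjVar I) hΓ0 (by
      rw [hΓ₀]
      intro z hz i
      rw [Set.mem_singleton_iff.mp hz]
      rfl), hΓ₀, cls_singleton, map_one, map_one, one_mul]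
  have hZ1 : Zf I {w : Empty ⊕ Fin N → ℂ | e1e w ∈ Γ₀} = Zmot I := by
    rw [Zf_zero I (e1_constr' hΓ0) (by
      rw [hw]
      intro z hz i
      rw [Set.mem_singleton_iff.mp hz]
      rfl), hw, cls_singleton, map_one, map_one, one_mul]
  have h2 : UBd D (K + k₀) ((1 - PowerSeries.X) *
      PowerSeries.mk (e1g I {w : Empty ⊕ Fin N → ℂ | e1e w ∈ Γ₀})) := by
    rw [e1_tel I (e1_constr' hΓ0), hZ1]
    exact ubd_sub (ubd_mono (by omega) (ubd_const hk₀ _)) (ubd_mono (by omega) hK)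
  have h3 := ubd_rescale (ubd_of_mul h2) ((Lu⁻¹ : MCˣ) : MC)
  rw [← hD'e] at h3
  have h4 : UBd D' (1 + (K + k₀) + k₁) ((1 - PowerSeries.X) *
      PowerSeries.mk (e1g (adjVar I) Γ₀)) := by
    rw [e1_g I hΓ0]
    exact ubd_mono (by omega) (ubd_mul_left hX1 (ubd_C _ h3))
  have h5 : Zf (adjVar I) Γ₀ = PowerSeries.C (algebraMap K0 MC (cls Γ₀) *
      ((Lu ^ (-((N + 1 : ℕ) : ℤ)) : MCˣ) : MC)) -
      (1 - PowerSeries.X) * PowerSeries.mk (e1g (adjVar I) Γ₀) := by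
    rw [e1_tel (adjVar I) hΓ0]
    ring
  have h6 : UBd D' (1 + (K + k₀) + k₁) (Zf (adjVar I) Γ₀) := by
    rw [h5]
    exact ubd_sub (ubd_mono (by omega) (ubd_const hk₁ _)) h4
  rw [hZ0] at h6
  exact mem_of_ubd hD' h6

end HY
end MotMono
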