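import Pool.Agent.Lib.MP_4e5fcd_ag.HY.R0
import Pool.Agent.Lib.MP_4e5fcd_ag.TV.C6
import Pool.Agent.Lib.MP_4e5fcd_ag.TV.A10
import Pool.Agent.Lib.MP_4e5fcd_ag.TV.A2

/-!
# HY-R2: ideals in two variables

`two_zero`: `F` generators, `exists_cd`, `exists_rz`; by `contact_eq` (TV/C3) the Lefschetz numbers are sums of
terms `[e.N ∣ d] e.N cE e η` over the nodes of the resolution tree; `M` is the product of the `e.N`.
`per_two`: at a zero `q` the ideal is the pull-back of its germ (`locPull_germ`).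
-/

open MvPolynomial

namespace MotMono
namespace HY

open CN TV

private theorem r2_dvd {M e d : ℕ} (h : e ∣ M) : e ∣ d ↔ e ∣ Nat.gcd d M :=
  ⟨fun h1 => Nat.dvd_gcd h1 h, fun h1 => h1.trans (Nat.gcd_dvd_left d M)⟩

theorem two_zero {χ : K0 →+* ℤ} (hχ : IsEulerCharF χ) (G : Ideal P2) (hG : G ≠ ⊥)
    (h0 : ∀ f ∈ G, eval 0 f = 0) : PerAt χ G 0 := by
  classical
  obtain ⟨S, hS⟩ := (isNoetherianRing_iff_ideal_fg P2).1 inferInstance G
  let F : Fin S.card → P2 := fun j => (S.equivFin.symm j : P2)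
  have hF : Ideal.span (Set.range F) = G := by
    rw [← hS]
    congr 1
    ext f
    constructor
    · rintro ⟨j, rfl⟩
      exact (S.equivFin.symm j).2
    · intro hf
      exact ⟨S.equivFin ⟨f, hf⟩, by simp [F]⟩
  have hF0 : ∃ j, F j ≠ 0 := by
    by_contra hn
    push Not at hn
    apply hG
    rw [← hF, Ideal.span_eq_bot]
    rintro f ⟨j, rfl⟩
    exact hn j
  have hFz : ∀ j, eval 0 (F j) = 0 := fun j =>
    h0 (F j) (by rw [← hF]; exact Ideal.subset_span ⟨j, rfl⟩)
  obtain ⟨s, p, m, J, hcd⟩ := exists_cd F hF0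
  obtain ⟨X, hX, hR, -⟩ := exists_rz hcd hFz
  have hNpos := nds_pos X 0 1 0 1 (wf_of_rz hR)
  refine ⟨((X.nds 0 1 0 1).map fun e => e.N).prod, ?_, ?_⟩
  · refine Multiset.prod_pos ?_
    intro a ha
    obtain ⟨e, he, rfl⟩ := Multiset.mem_map.1 ha
    exact hNpos e he
  set M := ((X.nds 0 1 0 1).map fun e => e.N).prod with hM
  intro n γ₀ hn hb ho hne d hd
  rw [← hF] at ho hne ⊢
  set η : Fin S.card → ℂ := fun j => (along (F j) γ₀).coeff n with hη
  have hη0 : η ≠ 0 := by
    have h1 : γ₀ ∈ ExOrd (Ideal.span (Set.range F)) n := ⟨ho, hne⟩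
    rw [exOrd_span] at h1
    obtain ⟨_, f, ⟨j, rfl⟩, hf⟩ := h1
    exact fun h => hf (congrFun h j)
  have key : ∀ m, 0 < m → χ (cls (CA (Ideal.span (Set.range F)) 0
      (fun f => (along f γ₀).coeff n) m)) =
      ((X.nds 0 1 0 1).map fun e => if e.N ∣ m then (e.N : ℤ) * cE e η else 0).sum := by
    intro m hm
    have h1 : CA (Ideal.span (Set.range F)) 0 (fun f => (along f γ₀).coeff n) m =
        WW F m (Qe η m) := by
      ext γ'
      have h2 := mem_CA_span (m := m) (Set.range F) γ₀ ho γ'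
      rw [hb] at h2
      rw [h2]
      constructor
      · rintro ⟨h3, h4⟩
        refine ⟨h3, fun j => ⟨fun l hl => ?_, ?_⟩⟩
        · exact (h4 (F j) ⟨j, rfl⟩).1 l hl
        · exact (h4 (F j) ⟨j, rfl⟩).2
      · rintro ⟨h3, h4⟩
        refine ⟨h3, ?_⟩
        rintro f ⟨j, rfl⟩
        refine ⟨fun l hl => ?_, ?_⟩
        · exact (h4 j).1 ⟨l, by omega⟩ hl
        · exact (h4 j).2
    rw [h1, contact_eq hχ hR 1 1 hη0 hm]
    have h6 : leafC F 0 0 η m X = 0 := by
      cases X with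
      | triv => exact absurd rfl hX
      | strict M => rfl
      | node μ lab s0 si n fr => rfl
    rw [h6, zero_add]
  have hd' : 0 < Nat.gcd d M := Nat.gcd_pos_of_pos_left _ hd
  rw [key d hd, key _ hd']
  congr 1
  refine Multiset.map_congr rfl fun e he => ?_
  have h7 : e.N ∣ d ↔ e.N ∣ Nat.gcd d M :=
    r2_dvd (Multiset.dvd_prod (Multiset.mem_map_of_mem (fun e => e.N) he))
  by_cases hc : e.N ∣ d
  · rw [if_pos hc, if_pos (h7.1 hc)]
  · rw [if_neg hc, if_neg fun h => hc (h7.2 h)]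

private theorem r2_eval (c q : Fin 2 → ℂ) (f : P2) :
    eval q (aeval (fun i => (X i + C (c i) : P2)) f) = eval (q + c) f := by
  induction f using MvPolynomial.induction_on with
  | C a => simp
  | add a b ha hb => simp only [map_add, ha, hb]
  | mul_X a i ha => simp only [map_mul, ha, aeval_X, map_add, eval_X, eval_C, Pi.add_apply]

theorem per_two {χ : K0 →+* ℤ} (hχ : IsEulerCharF χ) (G : Ideal (MvPolynomial (Fin 2) ℂ))
    (hG : G ≠ ⊥) : Per χ G 0 := by
  refine ⟨1, by simp, fun q _ => ?_⟩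
  by_cases h : ∃ f ∈ G, eval q f ≠ 0
  · exact perAt_of_ne h
  push Not at h
  refine perAt_of_locPull hχ G q _ (locPull_germ G q) (two_zero hχ _ ?_ ?_)
  · intro hbot
    apply hG
    rw [eq_bot_iff]
    intro f hf
    have h1 : aeval (fun i => (X i + C (q i) : P2)) f ∈ germ G q :=
      Ideal.subset_span ⟨f, hf, rfl⟩
    rw [hbot, Ideal.mem_bot] at h1
    rw [Ideal.mem_bot]
    refine MvPolynomial.funext fun x => ?_
    have h2 := congrArg (eval (x - q)) h1
    rw [r2_eval, sub_add_cancel, map_zero] at h2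
    rw [h2, map_zero]
  · intro f hf
    have h1 : germ G q ≤ RingHom.ker (eval (0 : Fin 2 → ℂ)) := by
      unfold germ
      rw [Ideal.span_le]
      rintro f' ⟨f, hf, rfl⟩
      rw [SetLike.mem_coe, RingHom.mem_ker, r2_eval, zero_add]
      exact h f hf
    exact h1 hf

end HY
end MotMono
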