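import Pool.Agent.Lib.MP_4e5fcd_ag.HY.R0
import Pool.Agent.Lib.MP_4e5fcd_ag.TV.V3

/-!
# HY-R3: dehomogenisation

`per_descend`: as `ugood_descend` (TV/V2). `Chart I' I ψ id 1`. `h'` from `Per χ I' 0`; `x ↦ eval (ρ x) h'` is `P / Q`
on `{D ≠ 0}` (`RegFun.comp`, `regFun_poly`), the new neighbourhood is `P * D` (`ρ 0 = 0`, `h' (0) ≠ 0`). For `q` with
`P (q) D (q) ≠ 0`, `z = ρ q`: `ψ (z) = q` (`h2`), `D (z) = D (q) ≠ 0` (`hDψ`), `h' (z) ≠ 0`, so `PerAt χ I' z` and by `perAt_push`
`PerAt χ I q`.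
`per_dehom`: the proof of `ugood_dehom` (TV/V3) with `per_of_locPull`, `per_descend`.
-/

open MvPolynomial

namespace MotMono
namespace HY

open CN TV

private theorem R3_chart {N : ℕ} {I I' : Ideal (MvPolynomial (Fin N) ℂ)}
    {ψ : Fin N → MvPolynomial (Fin N) ℂ}
    (hI : I' = Ideal.span {f' | ∃ f ∈ I, f' = aeval ψ f}) : Chart I' I ψ id 1 where
  inj := Function.injective_id
  push := by
    intro g hg
    rw [hI, one_mul]
    exact Ideal.subset_span ⟨g, hg, rfl⟩
  pull := by
    intro f hf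
    rw [one_mul]
    rw [hI] at hf
    exact hf

theorem per_descend {χ : K0 →+* ℤ} (hχ : IsEulerCharF χ) {N : ℕ}
    (I I' : Ideal (MvPolynomial (Fin N) ℂ)) (ψ : Fin N → MvPolynomial (Fin N) ℂ)
    (D : MvPolynomial (Fin N) ℂ) (ρ : (Fin N → ℂ) → (Fin N → ℂ)) (hψ0 : ∀ i, eval 0 (ψ i) = 0)
    (hD : eval 0 D ≠ 0) (hj : ∀ z, eval z D ≠ 0 → eval z (jacDet ψ) ≠ 0)
    (hDψ : ∀ z, eval (fun i => eval z (ψ i)) D = eval z D)
    (hρ : RegularOn {x | eval x D ≠ 0} ρ)
    (h1 : ∀ z, eval z D ≠ 0 → ρ (fun i => eval z (ψ i)) = z)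
    (h2 : ∀ x, eval x D ≠ 0 → (fun i => eval (ρ x) (ψ i)) = x)
    (hI : I' = Ideal.span {f' | ∃ f ∈ I, f' = aeval ψ f}) (hG : Per χ I' 0) :
    Per χ I 0 := by
  obtain ⟨h', hh', hper⟩ := hG
  have hreg : RegFun {x : Fin N → ℂ | eval x D ≠ 0} (fun x => eval (ρ x) h') :=
    RegFun.comp (E := {x : Fin N → ℂ | eval x D ≠ 0}) (F := Set.univ) (f := ρ)
      (h := fun y => eval y h') hρ (regFun_poly _ _) (fun _ _ => Set.mem_univ _)
  obtain ⟨P, Q, hPQ⟩ := hreg
  have hρ0 : ρ 0 = 0 := by
    have h3 := h1 0 hD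
    have h4 : (fun i => eval (0 : Fin N → ℂ) (ψ i)) = 0 := funext hψ0
    rwa [h4] at h3
  refine ⟨P * D, ?_, ?_⟩
  · rw [map_mul]
    refine mul_ne_zero ?_ hD
    obtain ⟨h3, h4⟩ := hPQ 0 hD
    intro h5
    simp only [h5, zero_div, hρ0] at h4
    exact hh' h4
  · intro q hq
    rw [map_mul] at hq
    have hPq := left_ne_zero_of_mul hq
    have hDq := right_ne_zero_of_mul hq
    have hψ := h2 q hDq
    have hDz : eval (ρ q) D ≠ 0 := by
      rw [← hDψ, hψ]
      exact hDq
    obtain ⟨h3, h4⟩ := hPQ q hDq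
    have hhz : eval (ρ q) h' ≠ 0 := by
      intro h5
      simp only [h5] at h4
      exact div_ne_zero hPq h3 h4.symm
    have h5 := perAt_push hχ (R3_chart hI) (ρ q) (by simp) (hj _ hDz) (hper _ hhz)
    have h6 : (fun i => eval (ρ q) (ψ (id i))) = q := hψ
    rw [h6] at h5
    exact h5

private theorem R3_span_eq_map {A B : Type*} [CommRing A] [CommRing B] [Algebra ℂ A] [Algebra ℂ B]
    (φ : A →ₐ[ℂ] B) (I : Ideal A) : Ideal.span {f' | ∃ f ∈ I, f' = φ f} = I.map φ := by
  rw [Ideal.map]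
  congr 1
  ext x
  constructor
  · rintro ⟨f, hf, h⟩
    exact ⟨f, hf, h.symm⟩
  · rintro ⟨f, hf, h⟩
    exact ⟨f, hf, h.symm⟩

private theorem R3_span_image {A B : Type*} [CommRing A] [CommRing B] [Algebra ℂ A] [Algebra ℂ B]
    (φ : A →ₐ[ℂ] B) (F : Set A) : Ideal.span {f' | ∃ f ∈ Ideal.span F, f' = φ f} =
      Ideal.span (φ '' F) := by
  rw [R3_span_eq_map, Ideal.map_span]

private theorem R3_span_image₂ {A B E : Type*} [CommRing A] [CommRing B] [CommRing E] [Algebra ℂ A]
    [Algebra ℂ B] [Algebra ℂ E] (φ : A →ₐ[ℂ] B) (θ : B →ₐ[ℂ] E) (F : Set A) :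
    Ideal.span {f' | ∃ f ∈ Ideal.span {f' | ∃ f ∈ Ideal.span F, f' = φ f}, f' = θ f} =
      Ideal.span ((fun f => θ (φ f)) '' F) := by
  rw [R3_span_image φ F, R3_span_image θ, Set.image_image]

private theorem R3_aeval_scale {M N : ℕ} (f : MvPolynomial (Fin M) ℂ) (d : ℕ) (hf : f.IsHomogeneous d)
    (D : MvPolynomial (Fin N) ℂ) (v : Fin M → MvPolynomial (Fin N) ℂ) :
    aeval (fun a => D * v a) f = D ^ d * aeval v f := by
  rw [aeval_def, aeval_def, eval₂_eq, eval₂_eq, Finset.mul_sum]
  apply Finset.sum_congr rfl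
  intro m hm
  have hdeg : m.degree = d := by
    have h1 := hf (mem_support_iff.1 hm)
    rw [← h1]
    exact (Finsupp.degree_eq_weight_one (R := ℕ) ▸ rfl)
  have h2 : ∏ a ∈ m.support, (D * v a) ^ m a = D ^ d * ∏ a ∈ m.support, v a ^ m a := by
    rw [← hdeg]
    simp only [mul_pow]
    rw [Finset.prod_mul_distrib, Finset.prod_pow_eq_pow_sum]
    rfl
  rw [h2]
  ring

theorem per_dehom {χ : K0 →+* ℤ} (hχ : IsEulerCharF χ) {N : ℕ}
    (F : Set (MvPolynomial (Fin (N + 1)) ℂ)) (d : ℕ) (hF : ∀ f ∈ F, f.IsHomogeneous d)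
    (i : Fin (N + 1)) (c : Fin (N + 1) → ℂ) (hc : c i ≠ 0)
    (h : Per χ (germ (Ideal.span (dh i '' F)) fun j => c (i.succAbove j) / c i) 0) :
    Per χ (germ (Ideal.span F) c) 0 := by
  set c' : Fin N → ℂ := fun j => c (i.succAbove j) / c i with hc'
  have hcc : ∀ j, c i * c' j = c (i.succAbove j) := by
    intro j
    rw [hc']
    field_simp
  set D : MvPolynomial (Fin (N + 1)) ℂ := X i + C (c i) with hD
  set ψ : Fin (N + 1) → MvPolynomial (Fin (N + 1)) ℂ :=
    i.insertNth (X i) (fun j => D * (X (i.succAbove j) + C (c' j)) - C (c (i.succAbove j))) with hψ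
  have ψi : ψ i = X i := by rw [hψ, Fin.insertNth_apply_same]
  have ψs : ∀ j, ψ (i.succAbove j) =
      D * (X (i.succAbove j) + C (c' j)) - C (c (i.succAbove j)) := by
    intro j
    rw [hψ, Fin.insertNth_apply_succAbove]
  set ρ : (Fin (N + 1) → ℂ) → (Fin (N + 1) → ℂ) := fun x =>
    i.insertNth (x i) (fun j => (x (i.succAbove j) + c (i.succAbove j)) / (x i + c i) - c' j) with hρ
  have ρi : ∀ x, ρ x i = x i := by
    intro x
    rw [hρ]
    simp only [Fin.insertNth_apply_same]
  have ρs : ∀ x j, ρ x (i.succAbove j) =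
      (x (i.succAbove j) + c (i.succAbove j)) / (x i + c i) - c' j := by
    intro x j
    rw [hρ]
    simp only [Fin.insertNth_apply_succAbove]
  have evD : ∀ z, eval z D = z i + c i := by
    intro z
    rw [hD]
    simp
  -- the Jacobian determinant
  have hjac : jacDet ψ = D ^ N := by
    rw [jacDet, Matrix.det_succ_row _ i, Finset.sum_eq_single i]
    · have h1 : (Matrix.of fun a b => pderiv b (ψ a)).submatrix i.succAbove i.succAbove =
          D • (1 : Matrix (Fin N) (Fin N) (MvPolynomial (Fin (N + 1)) ℂ)) := by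
        ext1 a b
        rw [Matrix.submatrix_apply, Matrix.of_apply, ψs, map_sub, pderiv_C, sub_zero, pderiv_mul,
          map_add, map_add, pderiv_C, pderiv_C, add_zero, add_zero, pderiv_X, pderiv_X,
          Matrix.smul_apply, smul_eq_mul]
        rw [Pi.single_eq_of_ne' (Fin.succAbove_ne i b), zero_mul, zero_add]
        by_cases hab : a = b
        · rw [hab, Pi.single_eq_same, Matrix.one_apply_eq]
        · rw [Matrix.one_apply_ne hab, Pi.single_eq_of_ne']
          intro h2
          exact hab (Fin.succAbove_right_injective h2).symm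
      rw [h1, Matrix.det_smul, Matrix.det_one, mul_one, Fintype.card_fin, Matrix.of_apply, ψi,
        pderiv_X, Pi.single_eq_same, mul_one, Even.neg_one_pow (Even.add_self _), one_mul]
    · intro b _ hb
      rw [Matrix.of_apply, ψi, pderiv_X, Pi.single_eq_of_ne' hb]
      ring
    · intro h1
      exact absurd (Finset.mem_univ i) h1
  -- the key identity
  have key : ∀ f ∈ F, aeval ψ (aeval (fun a => X a + C (c a)) f) =
      D ^ d * aeval (fun j => X (i.succAbove j)) (aeval (fun j => X j + C (c' j)) (dh i f)) := by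
    intro f hf
    set v : Fin (N + 1) → MvPolynomial (Fin (N + 1)) ℂ :=
      i.insertNth 1 (fun j => X (i.succAbove j) + C (c' j)) with hv
    have vi : v i = 1 := by rw [hv, Fin.insertNth_apply_same]
    have vs : ∀ j, v (i.succAbove j) = X (i.succAbove j) + C (c' j) := by
      intro j
      rw [hv, Fin.insertNth_apply_succAbove]
    have e1 : aeval ψ (aeval (fun a => X a + C (c a)) f) = aeval (fun a => D * v a) f := by
      rw [← AlgHom.comp_apply, comp_aeval]
      congr 1
      congr 1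
      funext a
      rcases Fin.eq_self_or_eq_succAbove i a with ha | ⟨j, ha⟩
      · rw [ha, vi, map_add, aeval_X, ψi, ← algebraMap_eq, AlgHom.commutes, algebraMap_eq, mul_one]
      · rw [ha, vs, map_add, aeval_X, ψs, ← algebraMap_eq, AlgHom.commutes, algebraMap_eq]
        ring
    have e2 : aeval (fun j => X (i.succAbove j)) (aeval (fun j => X j + C (c' j)) (dh i f)) =
        aeval v f := by
      rw [dh, ← AlgHom.comp_apply, comp_aeval, ← AlgHom.comp_apply, comp_aeval]
      congr 1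
      congr 1
      funext a
      rcases Fin.eq_self_or_eq_succAbove i a with ha | ⟨j, ha⟩
      · rw [ha, vi, Fin.insertNth_apply_same, map_one]
      · rw [ha, vs, Fin.insertNth_apply_succAbove, aeval_X, map_add, aeval_X, ← algebraMap_eq,
          AlgHom.commutes, algebraMap_eq]
    rw [e1, e2, R3_aeval_scale f d (hF f hf)]
  -- the ideals
  set Φ : MvPolynomial (Fin (N + 1)) ℂ → MvPolynomial (Fin (N + 1)) ℂ := fun f =>
    aeval ψ (aeval (fun a => X a + C (c a)) f) with hΦ
  set Θ : MvPolynomial (Fin (N + 1)) ℂ → MvPolynomial (Fin (N + 1)) ℂ := fun f =>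
    aeval (fun j => X (i.succAbove j)) (aeval (fun j => X j + C (c' j)) (dh i f)) with hΘ
  have hI' : Ideal.span {f' | ∃ f ∈ germ (Ideal.span F) c, f' = aeval ψ f} =
      Ideal.span (Φ '' F) := by
    rw [germ]
    exact R3_span_image₂ _ _ _
  have hG' : Ideal.span {f' | ∃ g ∈ germ (Ideal.span (dh i '' F)) c',
      f' = aeval (fun j => (X (i.succAbove j) : MvPolynomial (Fin (N + 1)) ℂ)) g} =
      Ideal.span (Θ '' F) := by
    rw [germ, R3_span_image₂, Set.image_image]
  have hLP : LocPull (Ideal.span {f' | ∃ f ∈ germ (Ideal.span F) c, f' = aeval ψ f}) 0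
      (germ (Ideal.span (dh i '' F)) c') := by
    refine ⟨X, i.succAbove, D ^ d, Fin.succAbove_right_injective, ?_, ?_, ?_, ?_, ?_⟩
    · rw [map_pow, evD]
      simpa using pow_ne_zero d hc
    · have h1 : jacDet (X : Fin (N + 1) → MvPolynomial (Fin (N + 1)) ℂ) = 1 := by
        rw [jacDet]
        have : (Matrix.of fun a b => pderiv b (X a : MvPolynomial (Fin (N + 1)) ℂ)) = 1 := by
          ext1 a b
          rw [Matrix.of_apply, pderiv_X]
          by_cases hab : a = b
          · rw [hab, Pi.single_eq_same, Matrix.one_apply_eq]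
          · rw [Matrix.one_apply_ne hab, Pi.single_eq_of_ne hab]
        rw [this, Matrix.det_one]
      rw [h1, map_one]
      exact one_ne_zero
    · intro j
      simp
    · intro g hg
      rw [hI']
      have h1 : aeval (fun j => (X (i.succAbove j) : MvPolynomial (Fin (N + 1)) ℂ)) g ∈
          Ideal.span (Θ '' F) := by
        rw [← hG']
        exact Ideal.subset_span ⟨g, hg, rfl⟩
      refine Submodule.span_induction (p := fun x _ => D ^ d * x ∈ Ideal.span (Φ '' F))
        ?_ ?_ ?_ ?_ h1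
      · rintro x ⟨f, hf, rfl⟩
        have h2 : D ^ d * Θ f = Φ f := (key f hf).symm
        rw [h2]
        exact Ideal.subset_span ⟨f, hf, rfl⟩
      · rw [mul_zero]
        exact Ideal.zero_mem _
      · intro x y _ _ hx hy
        rw [mul_add]
        exact Ideal.add_mem _ hx hy
      · intro a x _ hx
        rw [smul_eq_mul]
        have h2 : D ^ d * (a * x) = a * (D ^ d * x) := by ring
        rw [h2]
        exact Ideal.mul_mem_left _ _ hx
    · intro f hf
      rw [hG']
      rw [hI'] at hf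
      apply Ideal.mul_mem_left
      have h1 : Ideal.span (Φ '' F) ≤ Ideal.span (Θ '' F) := by
        rw [Ideal.span_le]
        rintro x ⟨f, hf, rfl⟩
        have h2 : Φ f = D ^ d * Θ f := key f hf
        rw [h2]
        exact Ideal.mul_mem_left _ _ (Ideal.subset_span ⟨f, hf, rfl⟩)
      exact h1 hf
  refine per_descend hχ (germ (Ideal.span F) c) _ ψ D ρ ?_ ?_ ?_ ?_ ?_ ?_ ?_ rfl
    (per_of_locPull hχ _ 0 _ hLP h)
  · intro a
    rcases Fin.eq_self_or_eq_succAbove i a with ha | ⟨j, ha⟩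
    · rw [ha, ψi]
      simp
    · rw [ha, ψs, map_sub, map_mul, evD]
      simp only [map_add, eval_X, eval_C, Pi.zero_apply, zero_add]
      rw [hcc, sub_self]
  · rw [evD]
    simpa using hc
  · intro z hz
    rw [hjac, map_pow]
    exact pow_ne_zero _ hz
  · intro z
    rw [evD, evD, ψi, eval_X]
  · intro a
    rcases Fin.eq_self_or_eq_succAbove i a with ha | ⟨j, ha⟩
    · refine ⟨X i, 1, fun x _ => ⟨by simp, ?_⟩⟩
      show ρ x a = _
      rw [ha, ρi]
      simp
    · refine ⟨(X (i.succAbove j) + C (c (i.succAbove j))) - C (c' j) * (X i + C (c i)),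
        X i + C (c i), fun x hx => ⟨hx, ?_⟩⟩
      have hx' : x i + c i ≠ 0 := by
        rw [← evD]
        exact hx
      show ρ x a = _
      rw [ha, ρs]
      simp only [map_sub, map_add, map_mul, eval_X, eval_C]
      field_simp
  · intro z hz
    rw [evD] at hz
    funext a
    rcases Fin.eq_self_or_eq_succAbove i a with ha | ⟨j, ha⟩
    · rw [ha]
      refine (ρi (fun b => eval z (ψ b))).trans ?_
      simp only [ψi, eval_X]
    · rw [ha]
      refine (ρs (fun b => eval z (ψ b)) j).trans ?_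
      simp only [ψi, ψs, map_sub, map_add, map_mul, eval_X, eval_C, evD]
      field_simp
      ring
  · intro x hx
    rw [evD] at hx
    funext a
    rcases Fin.eq_self_or_eq_succAbove i a with ha | ⟨j, ha⟩
    · rw [ha, ψi, eval_X, ρi]
    · rw [ha, ψs]
      simp only [map_sub, map_add, map_mul, eval_X, eval_C, evD, ρi, ρs]
      field_simp
      ring

end HY
end MotMono
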