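import Pool.Agent.Lib.MP_4e5fcd_ag.HY.A6
import Pool.Agent.Lib.MP_4e5fcd_ag.K1

/-!
# HY-B1: the contact jets of `linGen f s`

Decompose `CT (gen f s) (pt p C) w e` (`bp_eq_pt`) according to `xj z`: either `TO f e (xj z)`, or `TE f m (xj z)` for
exactly one `m < e`.
* `TO f e (xj z)`: then `TO (gen f s) e z` (`to_gen`) and `vec (gen f s) e z = C *ᵥ vec f e (xj z)` (`vec_gen`): the set is
  `{z | xj z ∈ RR f p C w e ∧ ∀ i j, yj z i j 0 = C i j}`, isomorphic to the product of `RR` with the affine space of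
  the `yj z i j l`, `l ≥ 1` (dimension `s * r * e`).
* `TE f m (xj z)`, `m < e`: `cls_unif` with `n = e`, `E = {γ | bp γ = p}`,
  `T = {y | (∀ i l, l < e → y (i, l) = 0) ∧ ∀ i, y (i, last) = w i}`, a single point. In the set on the
  right `z (inr (i, m)) = 0`, so `C *ᵥ vec f m γ = 0`; it is `prodSet (KK f p C m e) T`, `cls T = 1` (`cls_singleton`).
-/

open MvPolynomial Matrix

namespace MotMono
namespace HY

open CN

variable {N r s : ℕ}

private theorem B1_exists (f : Fin r → MvPolynomial (Fin N) ℂ) (e : ℕ)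
    (γ : Fin N × Fin (e + 1) → ℂ) : TO f e γ ∨ ∃ m < e, TE f m γ := by
  classical
  by_cases h : TO f e γ
  · exact Or.inl h
  · right
    have h1 : ∃ l, l < e ∧ ∃ j, (along (f j) γ).coeff l ≠ 0 := by
      by_contra h2
      push Not at h2
      exact h fun j l hl => h2 l hl j
    obtain ⟨h3, h4⟩ := Nat.find_spec h1
    refine ⟨Nat.find h1, h3, fun j l hl => ?_, ?_⟩
    · by_contra h5
      exact Nat.find_min h1 hl ⟨lt_trans hl h3, j, h5⟩
    · obtain ⟨j, hj⟩ := h4
      exact fun h6 => hj (congrFun h6 j)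

private theorem B1_unique {f : Fin r → MvPolynomial (Fin N) ℂ} {n m m' : ℕ}
    {γ : Fin N × Fin n → ℂ} (h : TE f m γ) (h' : TE f m' γ) : m = m' := by
  rcases lt_trichotomy m m' with h1 | h1 | h1
  · exact absurd (funext fun j => h'.1 j m h1) h.2
  · exact h1
  · exact absurd (funext fun j => h.1 j m' h1) h'.2

private theorem B1_disj {f : Fin r → MvPolynomial (Fin N) ℂ} {n m e : ℕ} (hm : m < e)
    {γ : Fin N × Fin n → ℂ} (h : TE f m γ) (h' : TO f e γ) : False :=
  h.2 (funext fun j => h' j m hm)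

private theorem B1_RR (f : Fin r → MvPolynomial (Fin N) ℂ) (p : Fin N → ℂ)
    (C : Matrix (Fin s) (Fin r) ℂ) (w : Fin s → ℂ) (e : ℕ) :
    cls {z : Fin (N + s * r) × Fin (e + 1) → ℂ | z ∈ CT (gen f s) (pt p C) w e ∧
      TO f e (xj z)} = LL ^ (s * r * e) * cls (RR f p C w e) := by
  have hc1 : Constr {z : Fin (N + s * r) × Fin (e + 1) → ℂ | z ∈ CT (gen f s) (pt p C) w e ∧
      TO f e (xj z)} :=
    (constr_CT (gen f s) (pt p C) w e).inter
      ((constr_TO f e).comp (fun q => (Fin.castAdd (s * r) q.1, q.2)))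
  have hc2 : Constr (prodSet (RR f p C w e)
      (Set.univ : Set ((Fin s × Fin r) × Fin e → ℂ))) :=
    (constr_RR f p C w e).prodSet constr_univ
  have key : cls {z : Fin (N + s * r) × Fin (e + 1) → ℂ | z ∈ CT (gen f s) (pt p C) w e ∧
      TO f e (xj z)} = cls (prodSet (RR f p C w e)
      (Set.univ : Set ((Fin s × Fin r) × Fin e → ℂ))) := by
    refine cls_iso hc1 hc2 ⟨fun z => Sum.elim (xj z) fun a => yj z a.1.1 a.1.2 a.2.succ,
      fun w => zj (fun q => w (Sum.inl q)) fun i j l =>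
        Fin.cases (motive := fun _ => ℂ) (C i j) (fun a => w (Sum.inr ((i, j), a))) l,
      ?_, ?_, ?_, ?_, ?_, ?_⟩
    · rintro (q | q)
      · exact regFun_coord _ _
      · exact regFun_coord _ _
    · rintro ⟨a, l⟩
      refine Fin.addCases (fun a => ?_) (fun b => ?_) a
      · simp only [zj, Fin.addCases_left]
        exact regFun_coord _ _
      · simp only [zj, Fin.addCases_right]
        refine Fin.cases ?_ (fun l => ?_) l
        · exact regFun_const _ _
        · exact regFun_coord _ _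
    · rintro z ⟨⟨h1, h2, h3⟩, h4⟩
      obtain ⟨h5, h6⟩ := (bp_eq_pt z p C).1 h1
      refine ⟨⟨h5, h4, ?_⟩, Set.mem_univ _⟩
      have h7 := vec_gen f z h4
      rw [h3] at h7
      have h8 : (Matrix.of fun i j => yj z i j 0) = C := by
        ext i j
        exact h6 i j
      rw [h8] at h7
      exact h7.symm
    · rintro u ⟨⟨h1, h2, h3⟩, -⟩
      set z : Fin (N + s * r) × Fin (e + 1) → ℂ := zj (fun q => u (Sum.inl q)) fun i j l =>
        Fin.cases (motive := fun _ => ℂ) (C i j) (fun a => u (Sum.inr ((i, j), a))) l with hz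
      have e1 : xj z = fun q => u (Sum.inl q) := xj_zj _ _
      have e3 : ∀ i j, yj z i j 0 = C i j := by
        intro i j
        rw [hz, yj_zj]
        rfl
      have h4 : TO f e (xj z) := by rw [e1]; exact h2
      have h8 : (Matrix.of fun i j => yj z i j 0) = C := by
        ext i j
        exact e3 i j
      refine ⟨⟨(bp_eq_pt z p C).2 ⟨by rw [e1]; exact h1, e3⟩, to_gen f z h4, ?_⟩, h4⟩
      rw [vec_gen f z h4, h8, e1]
      exact h3
    · rintro z ⟨⟨h1, -, -⟩, -⟩
      obtain ⟨-, h3⟩ := (bp_eq_pt z p C).1 h1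
      have e1 : (fun i j l => Fin.cases (motive := fun _ => ℂ) (C i j)
          (fun a => (Sum.elim (xj z) fun a : (Fin s × Fin r) × Fin e =>
            yj z a.1.1 a.1.2 a.2.succ : _ → ℂ) (Sum.inr ((i, j), a))) l) = yj z := by
        funext i j l
        refine Fin.cases ?_ (fun l => ?_) l
        · exact (h3 i j).symm
        · rfl
      show zj (xj z) _ = z
      rw [e1, zj_xj_yj]
    · rintro w -
      funext q
      rcases q with q | q
      · exact congrFun (xj_zj (fun q => w (Sum.inl q)) (fun (i : Fin s) (j : Fin r) l =>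
          Fin.cases (motive := fun _ => ℂ) (C i j) (fun a => w (Sum.inr ((i, j), a))) l)) q
      · exact congrFun (congrFun (congrFun (yj_zj (fun q => w (Sum.inl q))
          (fun (i : Fin s) (j : Fin r) l => Fin.cases (motive := fun _ => ℂ) (C i j)
            (fun a => w (Sum.inr ((i, j), a))) l)) q.1.1) q.1.2) q.2.succ
  rw [key, cls_prodSet (constr_RR f p C w e) constr_univ, cls_univ, mul_comm]
  congr 2
  simp only [Fintype.card_prod, Fintype.card_fin]

private theorem B1_KK (f : Fin r → MvPolynomial (Fin N) ℂ) (p : Fin N → ℂ)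
    (C : Matrix (Fin s) (Fin r) ℂ) (w : Fin s → ℂ) {m e : ℕ} (hm : m < e) :
    cls {z : Fin (N + s * r) × Fin (e + 1) → ℂ | z ∈ CT (gen f s) (pt p C) w e ∧
      TE f m (xj z)} = LL ^ (s * r * e - s * (e - m)) * cls (KK f p C m e) := by
  set y₀ : Fin s × Fin (e + 1) → ℂ := fun q => if (q.2 : ℕ) = e then w q.1 else 0 with hy₀
  have h := cls_unif f (le_of_lt hm) C (constr_bp (n := e) p) (constr_singleton y₀)
  have e1 : {z : Fin (N + s * r) × Fin (e + 1) → ℂ | z ∈ CT (gen f s) (pt p C) w e ∧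
      TE f m (xj z)} = {z : Fin (N + s * r) × Fin (e + 1) → ℂ |
        xj z ∈ {γ : Fin N × Fin (e + 1) → ℂ | bp γ = p} ∧ TE f m (xj z) ∧
        (∀ i j, yj z i j 0 = C i j) ∧ cj (gen f s) z ∈ ({y₀} : Set _)} := by
    ext z
    simp only [Set.mem_ofPred_eq, Set.mem_singleton_iff, CT]
    rw [bp_eq_pt]
    constructor
    · rintro ⟨⟨⟨h1, h2⟩, h3, h4⟩, h5⟩
      refine ⟨h1, h5, h2, ?_⟩
      funext q
      obtain ⟨i, l⟩ := q
      show (along (gen f s i) z).coeff l = if (l : ℕ) = e then w i else 0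
      by_cases hl : (l : ℕ) = e
      · rw [if_pos hl, hl]
        exact congrFun h4 i
      · rw [if_neg hl]
        exact h3 i l (by omega)
    · rintro ⟨h1, h2, h3, h4⟩
      refine ⟨⟨⟨h1, h3⟩, ?_, ?_⟩, h2⟩
      · intro i l hl
        have := congrFun h4 (i, ⟨l, by omega⟩)
        have h5 : y₀ (i, ⟨l, by omega⟩) = 0 := by
          simp only [hy₀]
          rw [if_neg (by omega)]
        rw [h5] at this
        exact this
      · funext i
        have := congrFun h4 (i, Fin.last e)
        have h5 : y₀ (i, Fin.last e) = w i := by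
          simp [hy₀]
        rw [h5] at this
        exact this
  have e2 : {z : (Fin N × Fin (e + 1)) ⊕ (Fin s × Fin (e + 1)) → ℂ |
          (fun q => z (Sum.inl q)) ∈ {γ : Fin N × Fin (e + 1) → ℂ | bp γ = p} ∧
          TE f m (fun q => z (Sum.inl q)) ∧
          (fun q => z (Sum.inr q)) ∈ ({y₀} : Set _) ∧
          (∀ i (l : Fin (e + 1)), (l : ℕ) < m → z (Sum.inr (i, l)) = 0) ∧
          ∀ i (l : Fin (e + 1)), (l : ℕ) = m →
            z (Sum.inr (i, l)) = (C *ᵥ vec f m fun q => z (Sum.inl q)) i} =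
      prodSet (KK f p C m e) {y₀} := by
    ext z
    simp only [prodSet, KK, Set.mem_ofPred_eq, Set.mem_singleton_iff]
    constructor
    · rintro ⟨h1, h2, h3, h4, h5⟩
      refine ⟨⟨h1, h2, ?_⟩, h3⟩
      funext i
      rw [← h5 i ⟨m, by omega⟩ rfl]
      have := congrFun h3 (i, (⟨m, by omega⟩ : Fin (e + 1)))
      rw [this]
      simp only [hy₀]
      rw [if_neg (by omega)]
      rfl
    · rintro ⟨⟨h1, h2, h3⟩, h4⟩
      refine ⟨h1, h2, h4, ?_, ?_⟩
      · intro i l hl
        have := congrFun h4 (i, l)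
        rw [this]
        simp only [hy₀]
        rw [if_neg (by omega)]
      · intro i l hl
        have := congrFun h4 (i, l)
        rw [this, h3]
        simp only [hy₀]
        rw [if_neg (by omega)]
        rfl
  rw [e2, cls_prodSet (constr_KK f p C m e) (constr_singleton y₀), cls_singleton, mul_one] at h
  rw [e1]
  exact h

theorem cls_CT_gen (f : Fin r → MvPolynomial (Fin N) ℂ) (p : Fin N → ℂ)
    (C : Matrix (Fin s) (Fin r) ℂ) (w : Fin s → ℂ) (e : ℕ) :
    cls (CT (gen f s) (pt p C) w e) =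
      ∑ m ∈ Finset.range e, LL ^ (s * r * e - s * (e - m)) * cls (KK f p C m e) +
        LL ^ (s * r * e) * cls (RR f p C w e) := by
  have hcm : ∀ m, Constr {z : Fin (N + s * r) × Fin (e + 1) → ℂ |
      z ∈ CT (gen f s) (pt p C) w e ∧ TE f m (xj z)} := fun m =>
    (constr_CT (gen f s) (pt p C) w e).inter
      ((constr_TE f m).comp (fun q => (Fin.castAdd (s * r) q.1, q.2)))
  have hcR : Constr {z : Fin (N + s * r) × Fin (e + 1) → ℂ |
      z ∈ CT (gen f s) (pt p C) w e ∧ TO f e (xj z)} :=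
    (constr_CT (gen f s) (pt p C) w e).inter
      ((constr_TO f e).comp (fun q => (Fin.castAdd (s * r) q.1, q.2)))
  have h1 : CT (gen f s) (pt p C) w e =
      (⋃ m ∈ Finset.range e, {z : Fin (N + s * r) × Fin (e + 1) → ℂ |
        z ∈ CT (gen f s) (pt p C) w e ∧ TE f m (xj z)}) ∪
      {z : Fin (N + s * r) × Fin (e + 1) → ℂ | z ∈ CT (gen f s) (pt p C) w e ∧
        TO f e (xj z)} := by
    ext z
    simp only [Set.mem_union, Set.mem_iUnion, Set.mem_ofPred_eq, Finset.mem_range, exists_prop]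
    constructor
    · intro hz
      rcases B1_exists f e (xj z) with h | ⟨m, hm, h⟩
      · exact Or.inr ⟨hz, h⟩
      · exact Or.inl ⟨m, hm, hz, h⟩
    · rintro (⟨m, hm, hz, -⟩ | ⟨hz, -⟩)
      · exact hz
      · exact hz
  have h2 : Disjoint (⋃ m ∈ Finset.range e, {z : Fin (N + s * r) × Fin (e + 1) → ℂ |
        z ∈ CT (gen f s) (pt p C) w e ∧ TE f m (xj z)})
      {z : Fin (N + s * r) × Fin (e + 1) → ℂ | z ∈ CT (gen f s) (pt p C) w e ∧
        TO f e (xj z)} := by
    rw [Set.disjoint_left]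
    intro z hz hz2
    simp only [Set.mem_iUnion, Set.mem_ofPred_eq, Finset.mem_range, exists_prop] at hz
    obtain ⟨m, hm, -, h3⟩ := hz
    exact B1_disj hm h3 hz2.2
  rw [h1, cls_union (constr_biUnion _ fun m _ => hcm m) hcR h2, cls_biUnion _ (fun m _ => hcm m),
    B1_RR]
  · congr 1
    refine Finset.sum_congr rfl fun m hm => ?_
    exact B1_KK f p C w (Finset.mem_range.1 hm)
  · intro m _ m' _ hmm
    rw [Set.disjoint_left]
    rintro z ⟨-, h3⟩ ⟨-, h4⟩
    exact hmm (B1_unique h3 h4)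

end HY
end MotMono
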