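import Pool.Agent.Lib.MP_4e5fcd_ag.HY.B1
import Pool.Agent.Lib.MP_4e5fcd_ag.CN.C1
import Pool.Agent.Lib.MP_4e5fcd_ag.LF.X0
import Pool.Agent.Lib.MP_4e5fcd_ag.LF.J2

/-!
# HY-B2: Euler characteristics of the contact jets of `linGen f s`

`chi_scale`: `chi_cstar` with the weights `w q = q.2`: a jet in `E` with all coefficients of positive
level zero is the constant jet at `p`.
`chi_KK`: `chi_scale`; `TE`, `C *ᵥ vec = 0` are stable because `vec` of the rescaled jet is `c ^ m • vec`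
(`along_scale`, `mulVec_smul`); along the constant jet all coefficients of positive level of `f j` are
zero (`along` of a constant jet is a constant: `along_scale` with `c = 0`, or `CN.along_trunc`).
`chi_CT_gen_zero`: `cls_CT_gen`, `map_sum`, `χ LL = 1`; `KK f p C 0 e = ∅` because `vec f 0 γ j = eval (bp γ) (f j) = 0`
(`LF.coeff_along_zero`).
`chi_CT_gen_one`: `KK f p C 0 e = {γ | bp γ = p}`, of class `LL ^ (N * e)` (or `χ = 1`), `KK f p C m e` has `χ = 0` for
`m ≥ 1`, `RR f p C w e = ∅` (`TO f e γ` contradicts `vec f 0 γ ≠ 0`).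
-/

open MvPolynomial Matrix

namespace MotMono
namespace HY

open CN

variable {N r s : ℕ}

theorem chi_scale {χ : K0 →+* ℤ} (hχ : IsEulerCharF χ) {n : ℕ} {p : Fin N → ℂ}
    {E : Set (Fin N × Fin (n + 1) → ℂ)} (hE : Constr E) (hb : ∀ γ ∈ E, bp γ = p)
    (hs : ∀ c : ℂ, c ≠ 0 → ∀ γ ∈ E, (fun q : Fin N × Fin (n + 1) => c ^ (q.2 : ℕ) * γ q) ∈ E)
    (h0 : (fun q : Fin N × Fin (n + 1) => if q.2 = 0 then p q.1 else 0) ∉ E) :
    χ (cls E) = 0 := by
  refine chi_cstar hχ (fun q : Fin N × Fin (n + 1) => ((q.2 : ℕ) : ℤ)) E hE ?_ ?_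
  · intro c hc γ hγ
    have := hs c hc γ hγ
    simpa only [zpow_natCast] using this
  · intro γ hγ
    by_contra hcon
    push Not at hcon
    apply h0
    have e : (fun q : Fin N × Fin (n + 1) => if q.2 = 0 then p q.1 else 0) = γ := by
      funext q
      by_cases hq : q.2 = 0
      · rw [if_pos hq, ← hb γ hγ]
        show γ (q.1, 0) = γ q
        rw [← hq]
      · rw [if_neg hq]
        refine (hcon q ?_).symm
        intro h
        apply hq
        have h5 : (q.2 : ℕ) = 0 := by exact_mod_cast h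
        exact Fin.ext h5
    rw [e]
    exact hγ

theorem chi_base {χ : K0 →+* ℤ} (hχ : χ LL = 1) (n : ℕ) (p : Fin N → ℂ) :
    χ (cls {γ : Fin N × Fin (n + 1) → ℂ | bp γ = p}) = 1 := by
  let W : Submodule ℂ (Fin N × Fin (n + 1) → ℂ) :=
    { carrier := {γ | ∀ i, γ (i, 0) = 0}
      add_mem' := fun {a b} ha hb i => by
        show a (i, 0) + b (i, 0) = 0
        rw [ha i, hb i, add_zero]
      zero_mem' := fun i => rfl
      smul_mem' := fun c a ha i => by
        show c * a (i, 0) = 0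
        rw [ha i, mul_zero] }
  let p₀ : Fin N × Fin (n + 1) → ℂ := fun q => if q.2 = 0 then p q.1 else 0
  have h1 := LF.chi_linFib (β := Empty) hχ W p₀ 0 (fun y => ⟨0, W.zero_mem, by
    funext i; exact i.elim⟩) (X := Set.univ) constr_univ
  rw [k1_cls_one, map_one] at h1
  rw [← h1]
  congr 2
  ext γ
  simp only [Set.mem_ofPred_eq, Set.mem_univ, and_true]
  constructor
  · intro h i
    show γ (i, 0) - p₀ (i, 0) = 0
    have h2 : p₀ (i, 0) = p i := if_pos rfl
    rw [h2, ← h]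
    exact sub_self _
  · intro h
    funext i
    have h2 : γ (i, 0) - p₀ (i, 0) = 0 := h i
    have h3 : p₀ (i, 0) = p i := if_pos rfl
    rw [h3] at h2
    exact sub_eq_zero.1 h2

theorem vec_scale {n m : ℕ} (f : Fin r → MvPolynomial (Fin N) ℂ) (γ : Fin N × Fin n → ℂ)
    (c : ℂ) : vec f m (fun q : Fin N × Fin n => c ^ (q.2 : ℕ) * γ q) = c ^ m • vec f m γ := by
  funext j
  exact along_scale (f j) γ c m

theorem to_scale {n m : ℕ} (f : Fin r → MvPolynomial (Fin N) ℂ) {γ : Fin N × Fin n → ℂ}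
    (c : ℂ) (h : TO f m γ) : TO f m (fun q : Fin N × Fin n => c ^ (q.2 : ℕ) * γ q) := by
  intro j l hl
  rw [along_scale, h j l hl, mul_zero]

theorem vec_const {n m : ℕ} (hm : 0 < m) (f : Fin r → MvPolynomial (Fin N) ℂ) (p : Fin N → ℂ) :
    vec f m (fun q : Fin N × Fin (n + 1) => if q.2 = 0 then p q.1 else 0) = 0 := by
  have e : (fun q : Fin N × Fin (n + 1) => if q.2 = 0 then p q.1 else 0) =
      fun q : Fin N × Fin (n + 1) => (0 : ℂ) ^ (q.2 : ℕ) *
        (fun q : Fin N × Fin (n + 1) => p q.1) q := by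
    funext q
    by_cases hq : q.2 = 0
    · simp [hq]
    · have h1 : (q.2 : ℕ) ≠ 0 := fun h => hq (Fin.ext h)
      simp [hq, h1]
  rw [e, vec_scale, zero_pow hm.ne', zero_smul]

theorem chi_KK {χ : K0 →+* ℤ} (hχ : IsEulerCharF χ) (f : Fin r → MvPolynomial (Fin N) ℂ)
    (p : Fin N → ℂ) (C : Matrix (Fin s) (Fin r) ℂ) {m : ℕ} (hm : 0 < m) (n : ℕ) :
    χ (cls (KK f p C m n)) = 0 := by
  refine chi_scale hχ (constr_KK f p C m n) (fun γ hγ => hγ.1) ?_ ?_
  · rintro c hc γ ⟨h1, ⟨h2, h3⟩, h4⟩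
    refine ⟨?_, ⟨to_scale f c h2, ?_⟩, ?_⟩
    · rw [← h1]
      funext i
      show c ^ ((0 : Fin (n + 1)) : ℕ) * γ (i, 0) = γ (i, 0)
      simp
    · rw [vec_scale]
      exact smul_ne_zero (pow_ne_zero _ hc) h3
    · rw [vec_scale, Matrix.mulVec_smul, h4, smul_zero]
  · rintro ⟨-, ⟨-, h3⟩, -⟩
    exact h3 (vec_const hm f p)

private theorem B2_LL {χ : K0 →+* ℤ} (hχ : χ LL = 1) (k : ℕ) (x : K0) :
    χ (LL ^ k * x) = χ x := by
  rw [map_mul, map_pow, hχ, one_pow, one_mul]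

private theorem B2_vec_zero {n : ℕ} (f : Fin r → MvPolynomial (Fin N) ℂ)
    (γ : Fin N × Fin (n + 1) → ℂ) (p : Fin N → ℂ) (h : bp γ = p) :
    vec f 0 γ = fun j => eval p (f j) := by
  funext j
  rw [← h]
  exact LF.coeff_along_zero (f j)

theorem chi_CT_gen_zero {χ : K0 →+* ℤ} (hχ : IsEulerCharF χ)
    (f : Fin r → MvPolynomial (Fin N) ℂ) (p : Fin N → ℂ) (C : Matrix (Fin s) (Fin r) ℂ)
    (w : Fin s → ℂ) (hp : ∀ j, eval p (f j) = 0) (e : ℕ) :
    χ (cls (CT (gen f s) (pt p C) w e)) = χ (cls (RR f p C w e)) := by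
  rw [cls_CT_gen, map_add, map_sum, B2_LL hχ.line]
  rw [Finset.sum_eq_zero, zero_add]
  intro m _
  rw [B2_LL hχ.line]
  rcases Nat.eq_zero_or_pos m with hm | hm
  · subst hm
    have e1 : KK f p C 0 e = ∅ := by
      rw [Set.eq_empty_iff_forall_notMem]
      rintro γ ⟨h1, ⟨-, h2⟩, -⟩
      apply h2
      rw [B2_vec_zero f γ p h1]
      exact funext hp
    rw [e1, cls_empty, map_zero]
  · exact chi_KK hχ f p C hm e

theorem chi_CT_gen_one {χ : K0 →+* ℤ} (hχ : IsEulerCharF χ)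
    (f : Fin r → MvPolynomial (Fin N) ℂ) (p : Fin N → ℂ) (C : Matrix (Fin s) (Fin r) ℂ)
    (w : Fin s → ℂ) (hp : (fun j => eval p (f j)) ≠ 0) (hC : (C *ᵥ fun j => eval p (f j)) = 0)
    {e : ℕ} (he : 0 < e) : χ (cls (CT (gen f s) (pt p C) w e)) = 1 := by
  rw [cls_CT_gen, map_add, map_sum, B2_LL hχ.line]
  have e2 : RR f p C w e = ∅ := by
    rw [Set.eq_empty_iff_forall_notMem]
    rintro γ ⟨h1, h2, -⟩
    apply hp
    rw [← B2_vec_zero f γ p h1]
    exact funext fun j => h2 j 0 he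
  rw [e2, cls_empty, map_zero, add_zero, Finset.sum_eq_single 0]
  · rw [B2_LL hχ.line]
    have e1 : KK f p C 0 e = {γ : Fin N × Fin (e + 1) → ℂ | bp γ = p} := by
      ext γ
      constructor
      · rintro ⟨h1, -⟩
        exact h1
      · intro h1
        refine ⟨h1, ⟨fun j l hl => absurd hl (Nat.not_lt_zero l), ?_⟩, ?_⟩
        · rw [B2_vec_zero f γ p h1]
          exact hp
        · rw [B2_vec_zero f γ p h1]
          exact hC
    rw [e1, chi_base hχ.line]
  · intro m _ hm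
    rw [B2_LL hχ.line, chi_KK hχ f p C (Nat.pos_of_ne_zero hm) e]
  · intro h
    exact absurd (Finset.mem_range.2 he) h

end HY
end MotMono
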