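import Pool.Agent.Lib.MP_4e5fcd_ag.HY.R0
import Pool.Agent.Lib.MP_4e5fcd_ag.HY.B1
import Pool.Agent.Lib.MP_4e5fcd_ag.HY.B2
import Pool.Agent.Lib.MP_4e5fcd_ag.TV.YDefs
import Pool.Agent.Lib.MP_4e5fcd_ag.TV.Y1

/-!
# HY-R5: a new variable as a generator

`chi_inf`: the set `E` of the `m`-jets `γ` at a zero `p` of `I` with `OrdGe I (m + 1) γ` is stable under
`γ (i, l) ↦ c ^ l γ (i, l)` (`along_scale`, HY/B1: coefficients are multiplied by `c ^ l`); `E` without the constant jet `p` has
`χ = 0` (`chi_scale`, HY/B2), the constant jet is in `E` (its coefficients of positive level vanish: `along_scale` with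
`c = 0`; level `0`: `p` is a zero) and `cls` of a point is `1` (`cls_diff`/`cls_union`, `k1_cls_one` or `cls_singleton`).
`perAt_adj`: let `M` be the number of `PerAt χ I p`; the same `M` works at `(p, 0)`. If `I` does not vanish at `p`: `perAt_of_ne`
(`rename castSucc f ∈ adjVar I`). Let `γ₀` be an `n`-jet at `(p, 0)`, `δ₀ (i, l) = γ₀ (castSucc i, l)`, `a = γ₀ (last, n)`. By
`mem_CA_span` (`adjVar I` is a span), `along_castSucc` (TV/Y1): `γ ∈ CA (adjVar I) (p, 0) η m` iff its base point is `(p, 0)`,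
`δ (i, l) = γ (castSucc i, l)` satisfies `f (δ) = (coefficient n of f (δ₀)) t ^ m` for all `f ∈ I`, and the last component is
`a t ^ m` (coefficients of `X (last N)` along `γ` are `γ (last, l)`: `a1_arc_coeff`). So `CA (adjVar I) ..` is isomorphic to
`CA I p (coefficients n along δ₀) m` (`γ ↦ δ`; inverse: add the last component; `cls_iso`, `constr_CA`; `m ≥ 1`).
If some `f ∈ I` has coefficient `n` along `δ₀` not zero: `PerAt χ I p` for `δ₀` (`OrdGe I n δ₀`). Otherwise
`CA I p 0 m = {δ | bp δ = p, OrdGe I (m + 1) δ}` has `χ = 1` for all `m ≥ 1`.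
`per_adj`: the neighbourhood is given by `rename Fin.castSucc h`; at the points `(p, w)`, `w ≠ 0`: `perAt_of_ne` with `X (last N)`.
-/

open MvPolynomial

namespace MotMono
namespace HY

open CN

theorem chi_inf {χ : K0 →+* ℤ} (hχ : IsEulerCharF χ) {N : ℕ}
    (I : Ideal (MvPolynomial (Fin N) ℂ)) (p : Fin N → ℂ) (hp : ∀ f ∈ I, eval p f = 0) (m : ℕ) :
    χ (cls {γ : Fin N × Fin (m + 1) → ℂ | bp γ = p ∧ OrdGe I (m + 1) γ}) = 1 := by
  set E : Set (Fin N × Fin (m + 1) → ℂ) := {γ | bp γ = p ∧ OrdGe I (m + 1) γ} with hE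
  set γc : Fin N × Fin (m + 1) → ℂ := fun q => if q.2 = 0 then p q.1 else 0 with hγc
  have hbc : bp γc = p := by
    funext i
    show (if (0 : Fin (m + 1)) = 0 then p i else 0) = p i
    rw [if_pos rfl]
  have hc : γc ∈ E := by
    refine ⟨hbc, fun f hf l hl => ?_⟩
    rcases Nat.eq_zero_or_pos l with h0 | h0
    · subst h0
      have h1 := LF.coeff_along_zero (γ := γc) f
      rw [h1]
      have h2 : (fun j => γc (j, 0)) = p := hbc
      rw [h2]
      exact hp f hf
    · have e : γc = fun q : Fin N × Fin (m + 1) => (0 : ℂ) ^ (q.2 : ℕ) *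
          (fun q : Fin N × Fin (m + 1) => p q.1) q := by
        funext q
        by_cases hq : q.2 = 0
        · simp [hγc, hq]
        · have h1 : (q.2 : ℕ) ≠ 0 := fun h => hq (Fin.ext h)
          simp [hγc, hq, h1]
      rw [e, along_scale, zero_pow h0.ne', zero_mul]
  have hcE : Constr E := (constr_bp p).inter (constr_ordGe I (m + 1))
  have hc1 : Constr ({γc} : Set (Fin N × Fin (m + 1) → ℂ)) := constr_singleton γc
  have h0 : χ (cls (E \ {γc})) = 0 := by
    refine chi_scale (p := p) hχ (hcE.diff hc1) (fun γ hγ => hγ.1.1) ?_ ?_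
    · rintro c hc0 γ ⟨⟨h1, h2⟩, h3⟩
      refine ⟨⟨?_, ?_⟩, ?_⟩
      · rw [← h1]
        funext i
        show c ^ ((0 : Fin (m + 1)) : ℕ) * γ (i, 0) = γ (i, 0)
        simp
      · intro f hf l hl
        rw [along_scale, h2 f hf l hl, mul_zero]
      · intro h4
        apply h3
        rw [Set.mem_singleton_iff] at h4 ⊢
        funext q
        have h5 := congrFun h4 q
        by_cases hq : q.2 = 0
        · simp only [hγc, hq] at h5 ⊢
          simpa using h5
        · simp only [hγc, if_neg hq] at h5 ⊢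
          exact (mul_eq_zero.1 h5).resolve_left (pow_ne_zero _ hc0)
    · rintro ⟨-, h3⟩
      exact h3 rfl
  rw [cls_diff hcE hc1 (Set.singleton_subset_iff.2 hc), map_sub, cls_singleton, map_one] at h0
  linarith

/-- adding the last component `a t ^ m` -/
private def R5ext {N m : ℕ} (a : ℂ) (δ : Fin N × Fin (m + 1) → ℂ) :
    Fin (N + 1) × Fin (m + 1) → ℂ :=
  fun q => Fin.lastCases (motive := fun _ => ℂ) (if q.2 = Fin.last m then a else 0)
    (fun i => δ (i, q.2)) q.1

private theorem R5_cls {N n : ℕ} (I : Ideal (MvPolynomial (Fin N) ℂ)) (p : Fin N → ℂ)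
    (γ₀ : Fin (N + 1) × Fin (n + 1) → ℂ) (hb : bp γ₀ = Fin.snoc (α := fun _ => ℂ) p 0)
    (ho : OrdGe (adjVar I) n γ₀) {m : ℕ} (hm : 0 < m) :
    cls (CA (adjVar I) (Fin.snoc (α := fun _ => ℂ) p 0) (fun f => (along f γ₀).coeff n) m) =
      cls (CA I p (fun f => (along f fun q : Fin N × Fin (n + 1) =>
        γ₀ (q.1.castSucc, q.2)).coeff n) m) := by
  set a : ℂ := γ₀ (Fin.last N, Fin.last n) with ha
  have hX : ∀ {k : ℕ} (γ : Fin (N + 1) × Fin (k + 1) → ℂ) (l : ℕ) (hl : l < k + 1),
      (along (X (Fin.last N)) γ).coeff l = γ (Fin.last N, ⟨l, hl⟩) := by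
    intro k γ l hl
    rw [along, aeval_X, a1_arc_coeff, dif_pos hl]
  have hmem : ∀ γ : Fin (N + 1) × Fin (m + 1) → ℂ,
      γ ∈ CA (adjVar I) (Fin.snoc (α := fun _ => ℂ) p 0) (fun f => (along f γ₀).coeff n) m ↔
        (fun q : Fin N × Fin (m + 1) => γ (q.1.castSucc, q.2)) ∈
          CA I p (fun f => (along f fun q : Fin N × Fin (n + 1) =>
            γ₀ (q.1.castSucc, q.2)).coeff n) m ∧
        ∀ l : Fin (m + 1), γ (Fin.last N, l) = if l = Fin.last m then a else 0 := by
    intro γ
    have h1 := mem_CA_span ({f' | ∃ f ∈ I, f' = rename Fin.castSucc f} ∪ {X (Fin.last N)}) γ₀ ho γ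
    rw [hb] at h1
    rw [adjVar]
    rw [adjVar] at ho
    rw [h1]
    constructor
    · rintro ⟨h2, h3⟩
      refine ⟨⟨fun i => ?_, fun f hf => ?_⟩, fun l => ?_⟩
      · have h4 := congrFun h2 i.castSucc
        rw [Fin.snoc_castSucc] at h4
        exact h4
      · have h4 := h3 (rename Fin.castSucc f) (Or.inl ⟨f, hf, rfl⟩)
        rw [TV.along_castSucc, TV.along_castSucc] at h4
        exact h4
      · have h4 := h3 (X (Fin.last N)) (Or.inr rfl)
        by_cases hl : l = Fin.last m
        · rw [if_pos hl, hl]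
          have h5 := h4.2
          rw [hX γ m (Nat.lt_succ_self m), hX γ₀ n (Nat.lt_succ_self n)] at h5
          exact h5
        · rw [if_neg hl]
          have h6 : (l : ℕ) < m := by
            have h7 := l.2
            have h8 : (l : ℕ) ≠ m := fun h => hl (Fin.ext h)
            omega
          have h5 := h4.1 l h6
          rw [hX γ l l.2] at h5
          exact h5
    · rintro ⟨⟨h2, h3⟩, h4⟩
      refine ⟨?_, ?_⟩
      · funext i
        refine Fin.lastCases ?_ (fun j => ?_) i
        · rw [Fin.snoc_last]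
          show γ (Fin.last N, 0) = 0
          rw [h4 0, if_neg]
          intro h5
          have h6 := congrArg Fin.val h5
          simp at h6
          omega
        · rw [Fin.snoc_castSucc]
          exact h2 j
      · rintro f (⟨g, hg, rfl⟩ | hf)
        · rw [TV.along_castSucc, TV.along_castSucc]
          exact h3 g hg
        · rw [Set.mem_singleton_iff] at hf
          subst hf
          refine ⟨fun l hl => ?_, ?_⟩
          · rw [hX γ l (by omega), h4, if_neg]
            intro h5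
            have h6 := congrArg Fin.val h5
            simp at h6
            omega
          · rw [hX γ m (Nat.lt_succ_self m), hX γ₀ n (Nat.lt_succ_self n), h4]
            exact if_pos rfl
  refine cls_iso (constr_CA _ _ _ _) (constr_CA _ _ _ _)
    ⟨fun γ q => γ (q.1.castSucc, q.2), R5ext a, ?_, ?_, ?_, ?_, ?_, ?_⟩
  · intro q
    exact regFun_coord _ _
  · rintro ⟨i, l⟩
    refine Fin.lastCases ?_ (fun j => ?_) i
    · simp only [R5ext, Fin.lastCases_last]
      exact regFun_const _ _
    · simp only [R5ext, Fin.lastCases_castSucc]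
      exact regFun_coord _ _
  · intro γ hγ
    exact ((hmem γ).1 hγ).1
  · intro δ hδ
    rw [hmem]
    have e : (fun q : Fin N × Fin (m + 1) => R5ext a δ (q.1.castSucc, q.2)) = δ := by
      funext q
      simp only [R5ext, Fin.lastCases_castSucc]
    rw [e]
    refine ⟨hδ, fun l => ?_⟩
    simp only [R5ext, Fin.lastCases_last]
  · intro γ hγ
    have h1 := ((hmem γ).1 hγ).2
    funext q
    obtain ⟨i, l⟩ := q
    refine Fin.lastCases ?_ (fun j => ?_) i
    · simp only [R5ext, Fin.lastCases_last]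
      exact (h1 l).symm
    · simp only [R5ext, Fin.lastCases_castSucc]
  · intro δ _
    funext q
    simp only [R5ext, Fin.lastCases_castSucc]

theorem perAt_adj {χ : K0 →+* ℤ} (hχ : IsEulerCharF χ) {N : ℕ}
    (I : Ideal (MvPolynomial (Fin N) ℂ)) (p : Fin N → ℂ) (h : PerAt χ I p) :
    PerAt χ (adjVar I) (Fin.snoc (α := fun _ => ℂ) p 0) := by
  by_cases hp : ∀ f ∈ I, eval p f = 0
  swap
  · push Not at hp
    obtain ⟨f, hf, hfp⟩ := hp
    refine perAt_of_ne ⟨rename Fin.castSucc f, Ideal.subset_span (Or.inl ⟨f, hf, rfl⟩), ?_⟩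
    rw [eval_rename]
    have e : (Fin.snoc (α := fun _ => ℂ) p 0 ∘ Fin.castSucc : Fin N → ℂ) = p := by
      funext i
      exact Fin.snoc_castSucc (α := fun _ => ℂ) _ _ _
    rw [e]
    exact hfp
  obtain ⟨M, hM, hP⟩ := h
  refine ⟨M, hM, fun n γ₀ hn hb ho _ d hd => ?_⟩
  rw [R5_cls I p γ₀ hb ho hd, R5_cls I p γ₀ hb ho (Nat.gcd_pos_of_pos_left _ hd)]
  set δ₀ : Fin N × Fin (n + 1) → ℂ := fun q => γ₀ (q.1.castSucc, q.2) with hδ
  have hδo : OrdGe I n δ₀ := by
    intro f hf l hl
    have h1 := ho (rename Fin.castSucc f) (Ideal.subset_span (Or.inl ⟨f, hf, rfl⟩)) l hl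
    rw [TV.along_castSucc] at h1
    exact h1
  have hδb : bp δ₀ = p := by
    funext i
    have h1 := congrFun hb i.castSucc
    rw [Fin.snoc_castSucc] at h1
    exact h1
  by_cases hne : ∃ f ∈ I, (along f δ₀).coeff n ≠ 0
  · exact hP n δ₀ hn hδb hδo hne d hd
  · push Not at hne
    have h2 : ∀ m : ℕ, CA I p (fun f => (along f δ₀).coeff n) m =
        {γ : Fin N × Fin (m + 1) → ℂ | bp γ = p ∧ OrdGe I (m + 1) γ} := by
      intro m
      ext γ
      constructor
      · rintro ⟨h3, h4⟩
        refine ⟨funext h3, fun f hf l hl => ?_⟩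
        rcases Nat.lt_succ_iff_lt_or_eq.1 hl with h5 | h5
        · exact (h4 f hf).1 l h5
        · rw [h5, (h4 f hf).2]
          exact hne f hf
      · rintro ⟨h3, h4⟩
        exact ⟨fun i => congrFun h3 i, fun f hf =>
          ⟨fun l hl => h4 f hf l (by omega), by
            rw [h4 f hf m (Nat.lt_succ_self m)]
            exact (hne f hf).symm⟩⟩
    rw [h2, h2, chi_inf hχ I p hp, chi_inf hχ I p hp]

theorem per_adj {χ : K0 →+* ℤ} (hχ : IsEulerCharF χ) {N : ℕ}
    (I : Ideal (MvPolynomial (Fin N) ℂ)) (h : Per χ I 0) : Per χ (adjVar I) 0 := by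
  obtain ⟨g, hg, hP⟩ := h
  refine ⟨rename Fin.castSucc g, ?_, fun q hq => ?_⟩
  · rw [eval_rename]
    exact hg
  · rw [eval_rename] at hq
    by_cases h0 : q (Fin.last N) = 0
    · have e : q = Fin.snoc (α := fun _ => ℂ) (fun i => q i.castSucc) 0 := by
        funext i
        refine Fin.lastCases ?_ (fun j => ?_) i
        · rw [Fin.snoc_last, h0]
        · rw [Fin.snoc_castSucc]
      rw [e]
      exact perAt_adj hχ I _ (hP _ hq)
    · exact perAt_of_ne ⟨X (Fin.last N), Ideal.subset_span (Or.inr rfl), by rwa [eval_X]⟩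

end HY
end MotMono
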