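import Pool.Agent.Lib.MP_4e5fcd_ag.HY.R0
import Pool.Agent.Lib.MP_4e5fcd_ag.TV.Y3
import Pool.Agent.Lib.MP_4e5fcd_ag.TV.Y4

/-!
# HY-R6: powers of ideals

`perAt_pow`: let `M` be the number of `PerAt χ I p`; `k * M` works for `I ^ k`. Let `γ₀` be an `n₀`-jet at `p` along which `I ^ k`
vanishes exactly to order `n₀ ≥ 1`. `k ∣ n₀` (`exOrd_pow_not`, TV/Y3), `n₀ = k n`, `n ≥ 1`; `I` vanishes exactly to order `n` along
`γ₀` (`ordGe_pow`, `coeff_pow_ne`). Let `γ` be the truncation of `γ₀` to an `n`-jet, `γ'` the `k n`-jet which extends `γ` by zeros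
(as in `vis_pow`, TV/Y4). The coefficients `≤ n` of `f` along `γ₀`, `γ`, `γ'` agree (`along_trunc`, CN/E1), and for `f ∈ I ^ k` the
coefficients `k n` along `γ₀` and `γ'` agree (products of `k` elements of `I`: the product of the coefficients `n`; see the
lemmas in TV/Y4, copy the private ones; or induction on `k` with `Submodule.mul_induction_on`: for `f ∈ I ^ k` both
`along f γ₀` and `along f γ'` are divisible by `X ^ (k n)` and have the same coefficient). So the sets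
`CA (I ^ k) p η m` for `γ₀` and `γ'` are equal, and by `chi_CA_pow` (TV/Y4) `χ = k χ (CA I p η (m / k))` if `k ∣ m`, `0` otherwise.
For `m = k m'`: `gcd (k m', k M) = k gcd (m', M)` (`Nat.gcd_mul_left`); `k ∣ m ↔ k ∣ gcd (m, k M)`.
-/

open MvPolynomial

namespace MotMono
namespace HY

open CN TV

private theorem r6_along_mul {N n : ℕ} (f g : MvPolynomial (Fin N) ℂ) (γ : Fin N × Fin n → ℂ) :
    along (f * g) γ = along f γ * along g γ := map_mul _ _ _

private theorem r6_along_add {N n : ℕ} (f g : MvPolynomial (Fin N) ℂ) (γ : Fin N × Fin n → ℂ) :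
    along (f + g) γ = along f γ + along g γ := map_add _ _ _

private theorem r6_coeff_mul {F G : Polynomial ℂ} {m m' : ℕ} (hF : Polynomial.X ^ m ∣ F)
    (hG : Polynomial.X ^ m' ∣ G) : (F * G).coeff (m + m') = F.coeff m * G.coeff m' := by
  obtain ⟨u, rfl⟩ := hF
  obtain ⟨v, rfl⟩ := hG
  have e : Polynomial.X ^ m * u * (Polynomial.X ^ m' * v) =
      Polynomial.X ^ (m + m') * (u * v) := by
    rw [pow_add]; ring
  rw [e]
  have c1 := Polynomial.coeff_X_pow_mul (u * v) (m + m') 0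
  have c2 := Polynomial.coeff_X_pow_mul u m 0
  have c3 := Polynomial.coeff_X_pow_mul v m' 0
  rw [zero_add] at c1 c2 c3
  rw [c1, c2, c3, Polynomial.mul_coeff_zero]

private theorem r6_dvd_pow {N m : ℕ} (I : Ideal (MvPolynomial (Fin N) ℂ))
    (γ : Fin N × Fin m → ℂ) (n : ℕ) (h : OrdGe I n γ) (k : ℕ) :
    ∀ c ∈ I ^ k, Polynomial.X ^ (k * n) ∣ along c γ := by
  rcases Nat.eq_zero_or_pos k with rfl | hk
  · intro c _; simp
  · intro c hc
    exact Polynomial.X_pow_dvd_iff.2 ((ordGe_pow I hk n γ).2 h c hc)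

private theorem r6_coeff {N a b : ℕ} (I : Ideal (MvPolynomial (Fin N) ℂ)) (γ₁ : Fin N × Fin a → ℂ)
    (γ₂ : Fin N × Fin b → ℂ) (n : ℕ) (h1 : OrdGe I n γ₁) (h2 : OrdGe I n γ₂)
    (h0 : ∀ c : MvPolynomial (Fin N) ℂ, (along c γ₁).coeff 0 = (along c γ₂).coeff 0)
    (h : ∀ f ∈ I, (along f γ₁).coeff n = (along f γ₂).coeff n) (k : ℕ) :
    ∀ c ∈ I ^ k, (along c γ₁).coeff (k * n) = (along c γ₂).coeff (k * n) := by
  induction k with
  | zero => intro c _; rw [Nat.zero_mul, h0]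
  | succ k ih =>
    intro c hc
    rw [pow_succ] at hc
    refine Submodule.mul_induction_on hc (fun x hx y hy => ?_) (fun x y hx hy => ?_)
    · rw [r6_along_mul, r6_along_mul, Nat.succ_mul,
        r6_coeff_mul (r6_dvd_pow I γ₁ n h1 k x hx) (Polynomial.X_pow_dvd_iff.2 (h1 y hy)),
        r6_coeff_mul (r6_dvd_pow I γ₂ n h2 k x hx) (Polynomial.X_pow_dvd_iff.2 (h2 y hy)),
        ih x hx, h y hy]
    · rw [r6_along_add, r6_along_add, Polynomial.coeff_add, Polynomial.coeff_add, hx, hy]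

theorem perAt_pow {χ : K0 →+* ℤ} (hχ : IsEulerCharF χ) {N : ℕ}
    (I : Ideal (MvPolynomial (Fin N) ℂ)) (k : ℕ) (hk : 0 < k) (p : Fin N → ℂ)
    (h : PerAt χ I p) : PerAt χ (I ^ k) p := by
  obtain ⟨M, hM, h⟩ := h
  refine ⟨k * M, Nat.mul_pos hk hM, fun n₀ γ₀ hn₀ hb ho hne d hd => ?_⟩
  have hkn : k ∣ n₀ := by
    by_contra hcon
    obtain ⟨f, hf, hf1⟩ := hne
    exact hf1 (exOrd_pow_not I hk n₀ hcon γ₀ ho f hf)
  obtain ⟨n, rfl⟩ := hkn
  have hn : 1 ≤ n := by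
    rcases Nat.eq_zero_or_pos n with h0 | h0
    · rw [h0, Nat.mul_zero] at hn₀
      omega
    · exact h0
  have hnk : n ≤ k * n := Nat.le_mul_of_pos_left n hk
  have hoI : OrdGe I n γ₀ := (ordGe_pow I hk n γ₀).1 ho
  have hneI := (coeff_pow_ne I hk n γ₀ hoI).1 hne
  set γ : Fin N × Fin (n + 1) → ℂ := fun q => γ₀ (q.1, Fin.castLE (by omega) q.2) with hγdef
  set γ' : Fin N × Fin (k * n + 1) → ℂ := fun q =>
    if h : (q.2 : ℕ) < n + 1 then γ (q.1, ⟨q.2, h⟩) else 0 with hγ'def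
  have hγ : ∀ i (l : Fin (k * n + 1)),
      γ' (i, l) = if h : (l : ℕ) < n + 1 then γ (i, ⟨l, h⟩) else 0 := fun i l => rfl
  have e1 : ∀ (f : MvPolynomial (Fin N) ℂ) (l : ℕ), l ≤ n →
      (along f γ).coeff l = (along f γ₀).coeff l := by
    intro f l hl
    refine along_trunc f _ _ l fun i l' hl' => ?_
    rw [a1_arc_coeff, a1_arc_coeff, dif_pos (by omega), dif_pos (by omega)]
    rfl
  have e2 : ∀ (f : MvPolynomial (Fin N) ℂ) (l : ℕ), l ≤ n →
      (along f γ').coeff l = (along f γ).coeff l := by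
    intro f l hl
    refine along_trunc f _ _ l fun i l' hl' => ?_
    rw [a1_arc_coeff, a1_arc_coeff, dif_pos (by omega), dif_pos (by omega), hγ]
    exact dif_pos _
  have hoγ : OrdGe I n γ := by
    intro f hf l hl
    rw [e1 f l hl.le]
    exact hoI f hf l hl
  have hoγ' : OrdGe I n γ' := by
    intro f hf l hl
    rw [e2 f l hl.le]
    exact hoγ f hf l hl
  have hneγ : ∃ f ∈ I, (along f γ).coeff n ≠ 0 := by
    obtain ⟨f, hf, hf1⟩ := hneI
    refine ⟨f, hf, ?_⟩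
    rw [e1 f n le_rfl]
    exact hf1
  have hbγ : bp γ = p := by
    rw [← hb]
    rfl
  have hbγ' : bp γ' = p := by
    rw [← hbγ]
    funext i
    show γ' (i, 0) = γ (i, 0)
    rw [hγ]
    exact dif_pos (Nat.succ_pos n)
  have hcoef : ∀ f ∈ I ^ k, (along f γ₀).coeff (k * n) = (along f γ').coeff (k * n) :=
    r6_coeff I γ₀ γ' n hoI hoγ' (fun c => by rw [e2 c 0 (Nat.zero_le n), e1 c 0 (Nat.zero_le n)])
      (fun f _ => by rw [e2 f n le_rfl, e1 f n le_rfl]) k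
  have hset : ∀ m, CA (I ^ k) p (fun f => (along f γ₀).coeff (k * n)) m =
      CA (I ^ k) p (fun f => (along f γ').coeff (k * n)) m := by
    intro m
    ext z
    show (_ ∧ ∀ f ∈ I ^ k, _ ∧ _) ↔ (_ ∧ ∀ f ∈ I ^ k, _ ∧ _)
    refine and_congr Iff.rfl (forall₂_congr fun f hf => ?_)
    show (_ ∧ (along f z).coeff m = (along f γ₀).coeff (k * n)) ↔
      (_ ∧ (along f z).coeff m = (along f γ').coeff (k * n))
    rw [hcoef f hf]
  have hchi : ∀ m, 0 < m → χ (cls (CA (I ^ k) p (fun f => (along f γ₀).coeff (k * n)) m)) =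
      if k ∣ m then k * χ (cls (CA I p (fun f => (along f γ).coeff n) (m / k))) else 0 := by
    intro m hm
    have h1 := chi_CA_pow hχ I hk γ γ' hγ hn hoγ hneγ m hm
    rw [hbγ, hbγ'] at h1
    rw [hset m]
    exact h1
  have hg : 0 < Nat.gcd d (k * M) := Nat.gcd_pos_of_pos_left _ hd
  rw [hchi d hd, hchi _ hg]
  by_cases hdk : k ∣ d
  · obtain ⟨d', rfl⟩ := hdk
    have hd' : 0 < d' := Nat.pos_of_ne_zero fun h0 => by
      rw [h0, Nat.mul_zero] at hd
      omega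
    rw [Nat.gcd_mul_left, if_pos (Dvd.intro _ rfl), if_pos (Dvd.intro _ rfl),
      Nat.mul_div_cancel_left _ hk, Nat.mul_div_cancel_left _ hk,
      h n γ hn hbγ hoγ hneγ d' hd']
  · rw [if_neg hdk, if_neg fun h0 => hdk (h0.trans (Nat.gcd_dvd_left _ _))]

theorem per_pow {χ : K0 →+* ℤ} (hχ : IsEulerCharF χ) {N : ℕ}
    (I : Ideal (MvPolynomial (Fin N) ℂ)) (k : ℕ) (hk : 0 < k) (h : Per χ I 0) :
    Per χ (I ^ k) 0 := by
  obtain ⟨g, hg, hP⟩ := h
  exact ⟨g, hg, fun q hq => perAt_pow hχ I k hk q (hP q hq)⟩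

end HY
end MotMono
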