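import Pool.Agent.Lib.MP_4e5fcd_ag.HY.R0
import Pool.Agent.Lib.MP_4e5fcd_ag.HY.B1
import Pool.Agent.Lib.MP_4e5fcd_ag.CN.C1
import Pool.Agent.Lib.MP_4e5fcd_ag.TV.YDefs
import Pool.Agent.Lib.MP_4e5fcd_ag.TV.Y6

/-!
# HY-R7: products in disjoint variables

Points of the product are `Fin.append p q`. `perAt_box_left`: let `q` be not a zero of `J`, `g ∈ J`, `g (q) ≠ 0`. There is a
`Chart (boxProd I J) I X (Fin.castAdd M) (rename (Fin.natAdd N) g)` (as in `near_box_left`, TV/Y5; Jacobian `1`), so `perAt_chart`.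
`perAt_box_right`: symmetric.
`chi_box_zero`: `p` a zero of `I`, `q` a zero of `J`, `η f` the coefficient `n` of `f` along `γ₀`, not all zero on `boxProd I J`. Then
`χ (CA (boxProd I J) (p, q) η m) = 0` for all `m ≥ 1`. For `γ` in the set `E` let `γ₁`, `γ₂` be its components;
`along (f * g) γ = along f γ₁ * along g γ₂`. For `i ≤ m` let
`E_i = {γ ∈ E | OrdGe I i γ₁, ∃ f ∈ I, coefficient i of f (γ₁) ≠ 0}`. `E` is the disjoint union of the `E_i`, `1 ≤ i ≤ m - 1`: since
`f (γ₁) g (γ₂) = η t ^ m` with some `η ≠ 0`, the minimal order `i` of the `f (γ₁)` and the minimal order `j` of the `g (γ₂)` satisfy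
`i + j = m` (the minimal order of the products is `m`), and `i, j ≥ 1` because `p`, `q` are zeros. `E_i` is constructible
(`constr_CA`, `constr_ordGe`, `exists_alongPoly`) and stable under the weights `w (a, l) = (m - i) l` for `a` in the first block,
`w (b, l) = - i l` in the second block: coefficient `l` of `f (γ₁)` is multiplied by `s ^ ((m - i) l)`, that of `g (γ₂)` by `s ^ (- i l)`
(`along_scale`, HY/B1, applied to the components with `c = s ^ (m - i)`, `c = s ^ (- i)`); the coefficient `m` of `f (γ₁) g (γ₂)` is the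
product of the coefficients `i` and `m - i` and is multiplied by `s ^ ((m - i) i - i (m - i)) = 1`, coefficients below `m` are `0`.
If all coordinates of non-zero weight (the levels `l ≥ 1`) vanish, `γ₁` is the constant jet `p`, and `f (γ₁) = 0` for all `f ∈ I`,
so it is not in `E_i`. `chi_cstar` (CN/C1): `χ (E_i) = 0`; `cls_biUnion`.
`perAt_box`: cases; in the last case `M = 1`. `per_box`: the neighbourhood is given by
`rename (Fin.castAdd M) h * rename (Fin.natAdd N) h'`.
-/

open MvPolynomial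

namespace MotMono
namespace HY

open CN

private theorem r7_rename {N L : ℕ} (e : Fin N → Fin L) (f : MvPolynomial (Fin N) ℂ) :
    aeval (fun i => (X (e i) : MvPolynomial (Fin L) ℂ)) f = rename e f := by
  have h : aeval (fun i => (X (e i) : MvPolynomial (Fin L) ℂ)) = rename e := by
    apply MvPolynomial.algHom_ext
    intro i
    simp
  rw [h]

private theorem r7_jac {N : ℕ} : jacDet (fun i => (X i : MvPolynomial (Fin N) ℂ)) = 1 := by
  unfold jacDet
  have : (Matrix.of fun i j => pderiv j (X i : MvPolynomial (Fin N) ℂ)) = 1 := by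
    ext1 i j
    rw [Matrix.of_apply, pderiv_X, Matrix.one_apply, Pi.single_apply]
  rw [this, Matrix.det_one]

theorem perAt_box_left {χ : K0 →+* ℤ} (hχ : IsEulerCharF χ) {N M : ℕ}
    (I : Ideal (MvPolynomial (Fin N) ℂ)) (J : Ideal (MvPolynomial (Fin M) ℂ)) (p : Fin N → ℂ)
    (q : Fin M → ℂ) (hI : PerAt χ I p) (hq : ∃ g ∈ J, eval q g ≠ 0) :
    PerAt χ (boxProd I J) (Fin.append p q) := by
  obtain ⟨g, hgJ, hg⟩ := hq
  have c : Chart (boxProd I J) I (fun i => (X i : MvPolynomial (Fin (N + M)) ℂ)) (Fin.castAdd M)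
      (rename (Fin.natAdd N) g) := by
    refine ⟨Fin.castAdd_injective N M, fun f hf => ?_, fun f hf => ?_⟩
    · rw [r7_rename, mul_comm]
      exact Ideal.subset_span ⟨f, hf, g, hgJ, rfl⟩
    · refine Ideal.mul_mem_left _ _ ?_
      have hle : boxProd I J ≤ Ideal.span {f' | ∃ g ∈ I, f' =
          aeval (fun i : Fin N => (X (Fin.castAdd M i) : MvPolynomial (Fin (N + M)) ℂ)) g} := by
        unfold boxProd
        rw [Ideal.span_le]
        rintro _ ⟨f₁, hf₁, g₁, -, rfl⟩
        exact Ideal.mul_mem_right _ _ (Ideal.subset_span ⟨f₁, hf₁, (r7_rename _ _).symm⟩)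
      exact hle hf
  refine perAt_chart hχ c (Fin.append p q) ?_ ?_ ?_
  · rw [eval_rename]
    have : Fin.append p q ∘ Fin.natAdd N = q := by
      funext i
      rw [Function.comp_apply, Fin.append_right]
    rwa [this]
  · rw [r7_jac, map_one]
    exact one_ne_zero
  · have : (fun i : Fin N => eval (Fin.append p q)
        (X (Fin.castAdd M i) : MvPolynomial (Fin (N + M)) ℂ)) = p := by
      funext i
      rw [eval_X, Fin.append_left]
    rw [this]
    exact hI

theorem perAt_box_right {χ : K0 →+* ℤ} (hχ : IsEulerCharF χ) {N M : ℕ}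
    (I : Ideal (MvPolynomial (Fin N) ℂ)) (J : Ideal (MvPolynomial (Fin M) ℂ)) (p : Fin N → ℂ)
    (q : Fin M → ℂ) (hJ : PerAt χ J q) (hp : ∃ f ∈ I, eval p f ≠ 0) :
    PerAt χ (boxProd I J) (Fin.append p q) := by
  obtain ⟨g, hgI, hg⟩ := hp
  have c : Chart (boxProd I J) J (fun i => (X i : MvPolynomial (Fin (N + M)) ℂ)) (Fin.natAdd N)
      (rename (Fin.castAdd M) g) := by
    refine ⟨Fin.natAdd_injective M N, fun f hf => ?_, fun f hf => ?_⟩
    · rw [r7_rename]
      exact Ideal.subset_span ⟨g, hgI, f, hf, rfl⟩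
    · refine Ideal.mul_mem_left _ _ ?_
      have hle : boxProd I J ≤ Ideal.span {f' | ∃ g ∈ J, f' =
          aeval (fun i : Fin M => (X (Fin.natAdd N i) : MvPolynomial (Fin (N + M)) ℂ)) g} := by
        unfold boxProd
        rw [Ideal.span_le]
        rintro _ ⟨f₁, -, g₁, hg₁, rfl⟩
        exact Ideal.mul_mem_left _ _ (Ideal.subset_span ⟨g₁, hg₁, (r7_rename _ _).symm⟩)
      exact hle hf
  refine perAt_chart hχ c (Fin.append p q) ?_ ?_ ?_
  · rw [eval_rename]
    have : Fin.append p q ∘ Fin.castAdd M = p := by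
      funext i
      rw [Function.comp_apply, Fin.append_left]
    rwa [this]
  · rw [r7_jac, map_one]
    exact one_ne_zero
  · have : (fun i : Fin M => eval (Fin.append p q)
        (X (Fin.natAdd N i) : MvPolynomial (Fin (N + M)) ℂ)) = q := by
      funext i
      rw [eval_X, Fin.append_right]
    rw [this]
    exact hJ

/-- the two components of a jet -/
private def r7l {N M m : ℕ} (γ : Fin (N + M) × Fin m → ℂ) : Fin N × Fin m → ℂ :=
  fun q => γ (Fin.castAdd M q.1, q.2)

private def r7r {N M m : ℕ} (γ : Fin (N + M) × Fin m → ℂ) : Fin M × Fin m → ℂ :=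
  fun q => γ (Fin.natAdd N q.1, q.2)

private theorem r7_prod {N M m : ℕ} (γ : Fin (N + M) × Fin m → ℂ)
    (f : MvPolynomial (Fin N) ℂ) (g : MvPolynomial (Fin M) ℂ) :
    along (rename (Fin.castAdd M) f * rename (Fin.natAdd N) g) γ =
      along f (r7l γ) * along g (r7r γ) := by
  have h1 : along (rename (Fin.castAdd M) f) γ = along f (r7l γ) := by
    unfold along
    rw [aeval_rename]
    rfl
  have h2 : along (rename (Fin.natAdd N) g) γ = along g (r7r γ) := by
    unfold along
    rw [aeval_rename]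
    rfl
  rw [← h1, ← h2]
  simp [along]

private theorem r7_lt {A B : Polynomial ℂ} {i j k : ℕ} (hA : ∀ l < i, A.coeff l = 0)
    (hB : ∀ l < j, B.coeff l = 0) (hk : k < i + j) : (A * B).coeff k = 0 := by
  rw [Polynomial.coeff_mul]
  refine Finset.sum_eq_zero fun x hx => ?_
  rw [Finset.HasAntidiagonal.mem_antidiagonal] at hx
  rcases Nat.lt_or_ge x.1 i with h | h
  · rw [hA _ h, zero_mul]
  · rw [hB x.2 (by omega), mul_zero]

private theorem r7_eq {A B : Polynomial ℂ} {i j k : ℕ} (hA : ∀ l < i, A.coeff l = 0)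
    (hB : ∀ l < j, B.coeff l = 0) (hk : i + j = k) :
    (A * B).coeff k = A.coeff i * B.coeff j := by
  rw [Polynomial.coeff_mul, Finset.sum_eq_single (i, j)]
  · rintro ⟨a, b⟩ hab hne
    rw [Finset.HasAntidiagonal.mem_antidiagonal] at hab
    simp only at hab ⊢
    rcases Nat.lt_or_ge a i with h4 | h4
    · rw [hA a h4, zero_mul]
    · have h5 : b < j := by
        by_contra h6
        push Not at h6
        exact hne (Prod.ext (by simp only; omega) (by simp only; omega))
      rw [hB b h5, mul_zero]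
  · intro h4
    exact absurd (Finset.HasAntidiagonal.mem_antidiagonal.2 hk) h4

theorem chi_box_zero {χ : K0 →+* ℤ} (hχ : IsEulerCharF χ) {N M : ℕ}
    (I : Ideal (MvPolynomial (Fin N) ℂ)) (J : Ideal (MvPolynomial (Fin M) ℂ)) (p : Fin N → ℂ)
    (q : Fin M → ℂ) (hp : ∀ f ∈ I, eval p f = 0) (hq : ∀ g ∈ J, eval q g = 0) {n : ℕ}
    (γ₀ : Fin (N + M) × Fin (n + 1) → ℂ) (hb : bp γ₀ = Fin.append p q)
    (ho : OrdGe (boxProd I J) n γ₀) (h0 : ∃ f ∈ boxProd I J, (along f γ₀).coeff n ≠ 0) (m : ℕ)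
    (hm : 0 < m) :
    χ (cls (CA (boxProd I J) (Fin.append p q) (fun f => (along f γ₀).coeff n) m)) = 0 := by
  classical
  -- a generator with non-zero leading coefficient
  have hgen : ∃ f₁ ∈ I, ∃ g₁ ∈ J, (along (rename (Fin.castAdd M) f₁ *
      rename (Fin.natAdd N) g₁) γ₀).coeff n ≠ 0 := by
    have h1 : γ₀ ∈ ExOrd (boxProd I J) n := ⟨ho, h0⟩
    unfold boxProd at h1
    rw [exOrd_span] at h1
    obtain ⟨-, _, ⟨f, hf, g, hg, rfl⟩, h2⟩ := h1
    exact ⟨f, hf, g, hg, h2⟩
  obtain ⟨f₁, hf₁, g₁, hg₁, hne⟩ := hgen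
  -- membership
  have hmem : ∀ γ : Fin (N + M) × Fin (m + 1) → ℂ,
      γ ∈ CA (boxProd I J) (Fin.append p q) (fun f => (along f γ₀).coeff n) m ↔
        bp γ = Fin.append p q ∧ ∀ f ∈ I, ∀ g ∈ J,
          (∀ l < m, (along f (r7l γ) * along g (r7r γ)).coeff l = 0) ∧
          (along f (r7l γ) * along g (r7r γ)).coeff m =
            (along (rename (Fin.castAdd M) f * rename (Fin.natAdd N) g) γ₀).coeff n := by
    intro γ
    have h1 := mem_CA_span (m := m) {h | ∃ f ∈ I, ∃ g ∈ J, h = rename (Fin.castAdd M) f *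
      rename (Fin.natAdd N) g} γ₀ ho γ
    rw [hb] at h1
    refine h1.trans (and_congr_right fun _ => ?_)
    constructor
    · intro h f hf g hg
      have h2 := h _ ⟨f, hf, g, hg, rfl⟩
      rwa [r7_prod γ] at h2
    · rintro h _ ⟨f, hf, g, hg, rfl⟩
      have h2 := h f hf g hg
      rwa [← r7_prod γ] at h2
  set E := CA (boxProd I J) (Fin.append p q) (fun f => (along f γ₀).coeff n) m with hE
  have hEc : Constr E := constr_CA _ _ _ _
  -- the order of `I` along the first component
  set A : ℕ → Set (Fin (N + M) × Fin (m + 1) → ℂ) := fun i => {γ | OrdGe I i (r7l γ)} with hA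
  have hAc : ∀ i, Constr (A i) := fun i =>
    (constr_ordGe (n := m + 1) I i).comp
      (fun q : Fin N × Fin (m + 1) => (Fin.castAdd M q.1, q.2))
  set F : ℕ → Set (Fin (N + M) × Fin (m + 1) → ℂ) := fun i => E ∩ (A i \ A (i + 1)) with hF
  have hFc : ∀ i, Constr (F i) := fun i => hEc.inter ((hAc i).diff (hAc (i + 1)))
  have hFmem : ∀ i γ, γ ∈ F i ↔ γ ∈ E ∧ (∀ f ∈ I, ∀ l < i, (along f (r7l γ)).coeff l = 0) ∧
      ∃ f ∈ I, (along f (r7l γ)).coeff i ≠ 0 := by
    intro i γ
    show (γ ∈ E ∧ (OrdGe I i (r7l γ) ∧ ¬ OrdGe I (i + 1) (r7l γ))) ↔ _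
    refine and_congr_right fun _ => and_congr_right fun h1 => ?_
    constructor
    · intro h2
      by_contra h3
      push Not at h3
      apply h2
      intro f hf l hl
      rcases Nat.lt_or_ge l i with h4 | h4
      · exact h1 f hf l h4
      · rw [show l = i by omega]
        exact h3 f hf
    · rintro ⟨f, hf, h3⟩ h4
      exact h3 (h4 f hf i (Nat.lt_succ_self i))
  have hz1 : ∀ γ ∈ E, ∀ f ∈ I, (along f (r7l γ)).coeff 0 = 0 := by
    intro γ hγ f hf
    rw [LF.coeff_along_zero]
    have h1 := ((hmem γ).1 hγ).1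
    have h2 : (fun j => r7l γ (j, 0)) = p := by
      funext j
      have := congrFun h1 (Fin.castAdd M j)
      rw [Fin.append_left] at this
      exact this
    rw [h2]
    exact hp f hf
  have hz2 : ∀ γ ∈ E, ∀ g ∈ J, (along g (r7r γ)).coeff 0 = 0 := by
    intro γ hγ f hf
    rw [LF.coeff_along_zero]
    have h1 := ((hmem γ).1 hγ).1
    have h2 : (fun j => r7r γ (j, 0)) = q := by
      funext j
      have := congrFun h1 (Fin.natAdd N j)
      rw [Fin.append_right] at this
      exact this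
    rw [h2]
    exact hq f hf
  -- non-vanishing coefficients
  have hco : ∀ γ ∈ E, ∃ a b, a + b = m ∧ (along f₁ (r7l γ)).coeff a ≠ 0 ∧
      (along g₁ (r7r γ)).coeff b ≠ 0 := by
    intro γ hγ
    have h1 := (((hmem γ).1 hγ).2 f₁ hf₁ g₁ hg₁).2
    rw [← h1, Polynomial.coeff_mul] at hne
    obtain ⟨x, hx, hx2⟩ := Finset.exists_ne_zero_of_sum_ne_zero hne
    rw [Finset.HasAntidiagonal.mem_antidiagonal] at hx
    exact ⟨x.1, x.2, hx, left_ne_zero_of_mul hx2, right_ne_zero_of_mul hx2⟩
  have hcover : E = ⋃ i ∈ Finset.range m, F i := by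
    ext γ
    simp only [Set.mem_iUnion, Finset.mem_range, exists_prop]
    constructor
    · intro hγ
      obtain ⟨a, b, hab, ha, hb'⟩ := hco γ hγ
      have hI : ∃ l, ∃ f ∈ I, (along f (r7l γ)).coeff l ≠ 0 := ⟨a, f₁, hf₁, ha⟩
      have hb0 : b ≠ 0 := by
        rintro rfl
        exact hb' (hz2 γ hγ g₁ hg₁)
      have h1 : Nat.find hI ≤ a := Nat.find_min' hI ⟨f₁, hf₁, ha⟩
      refine ⟨Nat.find hI, by omega, ?_⟩
      rw [hFmem]
      refine ⟨hγ, fun f hf l hl => ?_, Nat.find_spec hI⟩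
      by_contra hc
      exact Nat.find_min hI hl ⟨f, hf, hc⟩
    · rintro ⟨i, -, h⟩
      exact h.1
  -- the order of `J` along the second component
  have hsec : ∀ i γ, i < m → γ ∈ F i → ∀ g ∈ J, ∀ l < m - i, (along g (r7r γ)).coeff l = 0 := by
    intro i γ hi hγ
    rw [hFmem] at hγ
    obtain ⟨hγE, h1, f, hf, h2⟩ := hγ
    by_contra hcon
    push Not at hcon
    have hJ : ∃ l, ∃ g ∈ J, (along g (r7r γ)).coeff l ≠ 0 := by
      obtain ⟨g, hg, l, -, h3⟩ := hcon
      exact ⟨l, g, hg, h3⟩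
    obtain ⟨g, hg, h3⟩ := Nat.find_spec hJ
    have h4 : ∀ l < Nat.find hJ, (along g (r7r γ)).coeff l = 0 := by
      intro l hl
      by_contra hc
      exact Nat.find_min hJ hl ⟨g, hg, hc⟩
    have h5 : Nat.find hJ < m - i := by
      obtain ⟨g', hg', l, hl, h6⟩ := hcon
      exact lt_of_le_of_lt (Nat.find_min' hJ ⟨g', hg', h6⟩) hl
    have h6 := (((hmem γ).1 hγE).2 f hf g hg).1 (i + Nat.find hJ) (by omega)
    rw [r7_eq (h1 f hf) h4 rfl] at h6
    exact mul_ne_zero h2 h3 h6
  rw [hcover, cls_biUnion _ (fun i _ => hFc i), map_sum]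
  · refine Finset.sum_eq_zero fun i hi => ?_
    rw [Finset.mem_range] at hi
    rcases Nat.eq_zero_or_pos i with rfl | hi0
    · have : F 0 = ∅ := by
        rw [Set.eq_empty_iff_forall_notMem]
        intro γ hγ
        rw [hFmem] at hγ
        obtain ⟨h1, -, f, hf, h2⟩ := hγ
        exact h2 (hz1 γ h1 f hf)
      rw [this, cls_empty, map_zero]
    · refine chi_cstar hχ (fun x : Fin (N + M) × Fin (m + 1) =>
        Fin.addCases (motive := fun _ => ℤ) (fun _ => ((m - i : ℕ) : ℤ) * ((x.2 : ℕ) : ℤ))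
          (fun _ => -((i : ℤ) * ((x.2 : ℕ) : ℤ))) x.1) (F i) (hFc i) ?_ ?_
      · intro s hs γ hγ
        have hsec' := hsec i γ hi hγ
        set γ' : Fin (N + M) × Fin (m + 1) → ℂ := fun x =>
          s ^ (Fin.addCases (motive := fun _ => ℤ) (fun _ => ((m - i : ℕ) : ℤ) * ((x.2 : ℕ) : ℤ))
            (fun _ => -((i : ℤ) * ((x.2 : ℕ) : ℤ))) x.1) * γ x with hγ'
        have hl : r7l γ' = fun x : Fin N × Fin (m + 1) => (s ^ (m - i)) ^ (x.2 : ℕ) * r7l γ x := by
          funext x
          show s ^ (Fin.addCases (motive := fun _ => ℤ) _ _ (Fin.castAdd M x.1)) * γ _ = _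
          rw [Fin.addCases_left, ← Nat.cast_mul, zpow_natCast, pow_mul]
          rfl
        have hr : r7r γ' = fun x : Fin M × Fin (m + 1) => ((s ^ i)⁻¹) ^ (x.2 : ℕ) * r7r γ x := by
          funext x
          show s ^ (Fin.addCases (motive := fun _ => ℤ) _ _ (Fin.natAdd N x.1)) * γ _ = _
          rw [Fin.addCases_right, zpow_neg, ← Nat.cast_mul, zpow_natCast, pow_mul, inv_pow]
          rfl
        have hcl : ∀ f l, (along f (r7l γ')).coeff l = (s ^ (m - i)) ^ l *
            (along f (r7l γ)).coeff l := fun f l => by rw [hl, along_scale]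
        have hcr : ∀ g l, (along g (r7r γ')).coeff l = ((s ^ i)⁻¹) ^ l *
            (along g (r7r γ)).coeff l := fun g l => by rw [hr, along_scale]
        rw [hFmem] at hγ ⊢
        obtain ⟨hγE, h1, f₀, hf₀, h2⟩ := hγ
        have h1' : ∀ f ∈ I, ∀ l < i, (along f (r7l γ')).coeff l = 0 := fun f hf l hl' => by
          rw [hcl, h1 f hf l hl', mul_zero]
        have h2' : ∀ g ∈ J, ∀ l < m - i, (along g (r7r γ')).coeff l = 0 := fun g hg l hl' => by
          rw [hcr, hsec' g hg l hl', mul_zero]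
        refine ⟨?_, h1', f₀, hf₀, ?_⟩
        · rw [hmem]
          rw [hmem] at hγE
          refine ⟨?_, fun f hf g hg => ⟨fun l hl' => ?_, ?_⟩⟩
          · rw [← hγE.1]
            funext a
            show γ' (a, 0) = γ (a, 0)
            rw [hγ']
            refine Fin.addCases (fun a => ?_) (fun a => ?_) a
            · show s ^ (Fin.addCases (motive := fun _ => ℤ) _ _ (Fin.castAdd M a)) * _ = _
              rw [Fin.addCases_left]
              simp
            · show s ^ (Fin.addCases (motive := fun _ => ℤ) _ _ (Fin.natAdd N a)) * _ = _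
              rw [Fin.addCases_right]
              simp
          · exact r7_lt (h1' f hf) (h2' g hg) (by omega)
          · have e1 : m = i + (m - i) := by omega
            rw [← (hγE.2 f hf g hg).2]
            rw [r7_eq (h1' f hf) (h2' g hg) e1.symm, r7_eq (h1 f hf) (hsec' g hg) e1.symm, hcl,
              hcr]
            have e2 : (s ^ (m - i)) ^ i * ((s ^ i)⁻¹) ^ (m - i) = 1 := by
              rw [inv_pow, ← pow_mul, ← pow_mul, mul_comm i (m - i)]
              exact mul_inv_cancel₀ (pow_ne_zero _ hs)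
            calc (s ^ (m - i)) ^ i * (along f (r7l γ)).coeff i *
                  (((s ^ i)⁻¹) ^ (m - i) * (along g (r7r γ)).coeff (m - i))
                = ((s ^ (m - i)) ^ i * ((s ^ i)⁻¹) ^ (m - i)) *
                  ((along f (r7l γ)).coeff i * (along g (r7r γ)).coeff (m - i)) := by ring
              _ = _ := by rw [e2, one_mul]
        · rw [hcl]
          exact mul_ne_zero (pow_ne_zero _ (pow_ne_zero _ hs)) h2
      · intro γ hγ
        rw [hFmem] at hγ
        obtain ⟨hγE, h1, f₀, hf₀, h2⟩ := hγ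
        by_contra hcon
        push Not at hcon
        apply h2
        have e1 : r7l γ = fun x : Fin N × Fin (m + 1) => (0 : ℂ) ^ (x.2 : ℕ) * r7l γ x := by
          funext x
          rcases Nat.eq_zero_or_pos (x.2 : ℕ) with h3 | h3
          · rw [h3, pow_zero, one_mul]
          · rw [zero_pow (by omega), zero_mul]
            refine hcon (Fin.castAdd M x.1, x.2) ?_
            show Fin.addCases (motive := fun _ => ℤ) _ _ (Fin.castAdd M x.1) ≠ 0
            rw [Fin.addCases_left]
            have h4 : ((m - i : ℕ) : ℤ) ≠ 0 := by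
              have : m - i ≠ 0 := by omega
              exact_mod_cast this
            have h5 : ((x.2 : ℕ) : ℤ) ≠ 0 := by
              have : (x.2 : ℕ) ≠ 0 := by omega
              exact_mod_cast this
            exact mul_ne_zero h4 h5
        rw [e1, along_scale, zero_pow (by omega), zero_mul]
  · intro i _ j _ hij
    rw [Set.disjoint_left]
    intro γ h1 h2
    rw [hFmem] at h1 h2
    obtain ⟨-, h3, f, hf, h4⟩ := h1
    obtain ⟨-, h5, g, hg, h6⟩ := h2
    rcases Nat.lt_trichotomy i j with h7 | h7 | h7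
    · exact h4 (h5 f hf i h7)
    · exact hij h7
    · exact h6 (h3 g hg j h7)

theorem perAt_box {χ : K0 →+* ℤ} (hχ : IsEulerCharF χ) {N M : ℕ}
    (I : Ideal (MvPolynomial (Fin N) ℂ)) (J : Ideal (MvPolynomial (Fin M) ℂ)) (p : Fin N → ℂ)
    (q : Fin M → ℂ) (hI : PerAt χ I p) (hJ : PerAt χ J q) :
    PerAt χ (boxProd I J) (Fin.append p q) := by
  by_cases h1 : ∃ g ∈ J, eval q g ≠ 0
  · exact perAt_box_left hχ I J p q hI h1
  by_cases h2 : ∃ f ∈ I, eval p f ≠ 0
  · exact perAt_box_right hχ I J p q hJ h2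
  push Not at h1 h2
  refine ⟨1, one_pos, fun n γ₀ hn hb ho hne d hd => ?_⟩
  rw [chi_box_zero hχ I J p q h2 h1 γ₀ hb ho hne d hd,
    chi_box_zero hχ I J p q h2 h1 γ₀ hb ho hne _ (Nat.gcd_pos_of_pos_left _ hd)]

theorem per_box {χ : K0 →+* ℤ} (hχ : IsEulerCharF χ) {N M : ℕ}
    (I : Ideal (MvPolynomial (Fin N) ℂ)) (J : Ideal (MvPolynomial (Fin M) ℂ)) (hI : Per χ I 0)
    (hJ : Per χ J 0) : Per χ (boxProd I J) 0 := by
  obtain ⟨g, hg, hP⟩ := hI
  obtain ⟨g', hg', hP'⟩ := hJ
  refine ⟨rename (Fin.castAdd M) g * rename (Fin.natAdd N) g', ?_, fun z hz => ?_⟩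
  · rw [map_mul, eval_rename, eval_rename]
    exact mul_ne_zero hg hg'
  · rw [map_mul, eval_rename, eval_rename] at hz
    have e : z = Fin.append (fun i => z (Fin.castAdd M i)) fun j => z (Fin.natAdd N j) := by
      funext i
      refine Fin.addCases (fun j => ?_) (fun j => ?_) i
      · rw [Fin.append_left]
      · rw [Fin.append_right]
    rw [e]
    exact perAt_box hχ I J _ _ (hP _ (left_ne_zero_of_mul hz)) (hP' _ (right_ne_zero_of_mul hz))

end HY
end MotMono
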