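import Pool.Agent.Lib.MP_4e5fcd_ag.HY.R1
import Pool.Agent.Lib.MP_4e5fcd_ag.HY.R2
import Pool.Agent.Lib.MP_4e5fcd_ag.HY.R3
import Pool.Agent.Lib.MP_4e5fcd_ag.HY.R4
import Pool.Agent.Lib.MP_4e5fcd_ag.HY.R5
import Pool.Agent.Lib.MP_4e5fcd_ag.HY.R6
import Pool.Agent.Lib.MP_4e5fcd_ag.HY.R7

/-!
# HY-R9: common periods for ideals which are tame at `s₀`
-/

open MvPolynomial

namespace MotMono
namespace HY

open CN

theorem per_of_tameAt {χ : K0 →+* ℤ} (hχ : IsEulerCharF χ) (s₀ : ℚ) {N : ℕ}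
    (I : Ideal (MvPolynomial (Fin N) ℂ)) (h : TameAt χ s₀ I) : Per χ I 0 := by
  induction h with
  | two s₀ G hG h0 => exact per_two hχ G hG
  | lin s₀ P hP h0 h1 => exact per_lin hχ P hP h0 h1
  | pull s₀ I G h hG ih => exact per_of_locPull hχ I 0 G h ih
  | dehom s₀ F d hF i c hc h ih => exact per_dehom hχ F d hF i c hc ih
  | cone s₀ F d hd hF h0 hloc hs ih =>
    exact per_cone hχ hd F hF fun c hc hz =>
      per_of_locPull hχ _ c _ (locPull_germ (Ideal.span F) c) (ih c hc hz)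
  | adj s₀ I h ih => exact per_adj hχ I ih
  | pow s₀ I k hk h ih => exact per_pow hχ I k hk ih
  | box s₀ I J hI hJ ih ih' => exact per_box hχ I J ih ih'

end HY
end MotMono
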