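import Pool.Agent.Lib.MP_4e5fcd_ag.HY.A9
import Pool.Agent.Lib.MP_4e5fcd_ag.HY.C3
import Pool.Agent.Lib.MP_4e5fcd_ag.HY.C4
import Pool.Agent.Lib.MP_4e5fcd_ag.HY.E1
import Pool.Agent.Lib.MP_4e5fcd_ag.HY.E2
import Pool.Agent.Lib.MP_4e5fcd_ag.HY.R9
import Pool.Agent.Lib.MP_4e5fcd_ag.TV.Y8

/-!
# HY-D1: the theorem for the ideals of the class `TameX χ s₀`

Assembly (proved from the other modules).
-/

open MvPolynomial

namespace MotMono
namespace HY

open CN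

variable {N : ℕ}

/-- the invariant of the induction -/
def WX (χ : K0 →+* ℤ) (s₀ : ℚ) (I : Ideal (MvPolynomial (Fin N) ℂ)) : Prop :=
  (CN.Near χ I 0 (expo s₀) ∨ Zmot I ∈ polarRing s₀) ∧ CN.Near χ I 0 1 ∧ Per χ I 0

theorem zmot_of_ureg {s₀ : ℚ} (I : Ideal (MvPolynomial (Fin N) ℂ))
    {g : MvPolynomial (Fin N) ℂ} (hg : eval 0 g ≠ 0) (h : TV.UReg s₀ I g) :
    Zmot I ∈ polarRing s₀ := by
  obtain ⟨D, hD, K, hreg⟩ := h
  have h1 := TV.mem_of_ubd hD (hreg Empty ({0} : Set (Empty ⊕ Fin N → ℂ)) (constr_singleton 0) (by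
    intro z hz
    rw [Set.mem_singleton_iff] at hz
    subst hz
    exact hg))
  rw [Zf_zero I (constr_singleton 0) (by
    intro z hz i
    rw [Set.mem_singleton_iff] at hz
    subst hz
    rfl), cls_singleton, map_one, map_one, one_mul] at h1
  exact h1

theorem zmot_pull {s₀ : ℚ} {k : ℕ} (I : Ideal (MvPolynomial (Fin N) ℂ))
    (G : Ideal (MvPolynomial (Fin k) ℂ)) (h : LocPull I 0 G) (hG : Zmot G ∈ polarRing s₀) :
    Zmot I ∈ polarRing s₀ := by
  obtain ⟨u, e, h, hinj, hh, hj, h0, hpush, hpull⟩ := h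
  have c : Chart I G u e h := ⟨hinj, hpush, hpull⟩
  have hΓ : Constr ({0} : Set (Empty ⊕ Fin N → ℂ)) := constr_singleton 0
  have h1 := Zf_chart c hΓ (by
    intro z hz
    rw [Set.mem_singleton_iff] at hz
    subst hz
    exact hh) (by
    intro z hz
    rw [Set.mem_singleton_iff] at hz
    subst hz
    exact hj)
  rw [Zf_zero I hΓ (by
    intro z hz i
    rw [Set.mem_singleton_iff] at hz
    subst hz
    rfl), cls_singleton, map_one, map_one, one_mul] at h1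
  rw [h1]
  refine Subring.mul_mem _ (C_mem_polar s₀ _) ?_
  rw [Zf_zero G (constr_push _ hΓ) (by
    rintro z ⟨hz1, hz2⟩ i
    rw [hz2 i]
    have e1 : (fun j => z (Sum.inl (Sum.inr j))) = (0 : Fin N → ℂ) := by
      rw [Set.mem_singleton_iff] at hz1
      funext j
      exact congrFun hz1 (Sum.inr j)
    rw [e1]
    exact h0 i)]
  exact Subring.mul_mem _ (C_mem_polar s₀ _) hG

theorem expo_neg_nat (s : ℕ) : expo (-(s : ℚ)) = 1 := by
  rw [expo]
  have e1 : 2 * (Real.pi : ℂ) * Complex.I * (((-(s : ℚ) : ℚ)) : ℂ) =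
      ((-(s : ℤ) : ℤ) : ℂ) * (2 * Real.pi * Complex.I) := by
    push_cast
    ring
  rw [e1, Complex.exp_int_mul_two_pi_mul_I]

theorem ne_bot_of_near {χ : K0 →+* ℤ} {I : Ideal (MvPolynomial (Fin N) ℂ)}
    (h : CN.Near χ I 0 1) : I ≠ ⊥ := by
  intro hb
  obtain ⟨p, -, n, γ, -, -, -, ⟨g, hg, hg'⟩, -⟩ := h 1 one_pos
  rw [hb, Ideal.mem_bot] at hg
  subst hg
  apply hg'
  simp [along]

theorem expo_add_one (s₀ : ℚ) : expo (s₀ + 1) = expo s₀ := by
  have h : 2 * (Real.pi : ℂ) * Complex.I * (((s₀ + 1 : ℚ)) : ℂ) =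
      2 * Real.pi * Complex.I * (s₀ : ℂ) + 2 * Real.pi * Complex.I := by
    push_cast
    ring
  rw [expo, h, Complex.exp_add, Complex.exp_two_pi_mul_I, mul_one]
  rfl

theorem expo_mul (s₀ : ℚ) (k : ℕ) : expo (k * s₀) = expo s₀ ^ k := by
  have h : 2 * (Real.pi : ℂ) * Complex.I * ((((k : ℚ) * s₀ : ℚ)) : ℂ) =
      (k : ℂ) * (2 * Real.pi * Complex.I * (s₀ : ℂ)) := by
    push_cast
    ring
  rw [expo, h, Complex.exp_nat_mul]
  rfl

theorem wx_of_tameX {χ : K0 →+* ℤ} (hχ : IsEulerCharF χ) (s₀ : ℚ)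
    (I : Ideal (MvPolynomial (Fin N) ℂ)) (h : TameX χ s₀ I) : WX χ s₀ I := by
  induction h with
  | base s₀ I h =>
    obtain ⟨h1, h2⟩ := TV.ugood_of_tameAt hχ s₀ I h
    refine ⟨?_, h2, per_of_tameAt hχ s₀ I h⟩
    rcases h1 with h1 | ⟨g, hg, hr⟩
    · exact Or.inl h1
    · exact Or.inr (zmot_of_ureg I hg hr)
  | gen s₀ f s hs h ih =>
    obtain ⟨h1, h2, h3⟩ := ih
    have hone : CN.Near χ (linGen f s) 0 1 := near_one_gen hχ f hs (ne_bot_of_near h2)
    refine ⟨?_, hone, per_gen hχ f s h3⟩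
    rcases h1 with h1 | h1
    · exact Or.inl (near_gen hχ f hs h1 h3)
    · by_cases hs0 : s₀ = -(s : ℚ)
      · left
        rw [hs0, expo_neg_nat]
        exact hone
      · exact Or.inr (polar_gen f s hs0 h1)
  | pull s₀ I G h hG ih =>
    obtain ⟨h1, h2, h3⟩ := ih
    refine ⟨?_, near_of_locPull hχ I 0 G h 1 h2, per_of_locPull hχ I 0 G h h3⟩
    rcases h1 with h1 | h1
    · exact Or.inl (near_of_locPull hχ I 0 G h _ h1)
    · exact Or.inr (zmot_pull I G h h1)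
  | adj s₀ I h ih =>
    obtain ⟨h1, h2, h3⟩ := ih
    have hone : CN.Near χ (adjVar I) 0 1 := TV.near_adj hχ h2
    refine ⟨?_, hone, per_adj hχ I h3⟩
    rcases h1 with h1 | h1
    · rw [expo_add_one] at h1
      exact Or.inl (TV.near_adj hχ h1)
    · by_cases hs : s₀ + 1 = 0
      · left
        have e : expo s₀ = 1 := by
          rw [← expo_add_one, hs, expo]
          simp
        rw [e]
        exact hone
      · exact Or.inr (zmot_adj hs I h1)
  | pow s₀ I k hk h ih =>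
    obtain ⟨h1, h2, h3⟩ := ih
    refine ⟨?_, TV.near_powI hχ hk (by rw [one_pow]; exact h2), per_pow hχ I k hk h3⟩
    rcases h1 with h1 | h1
    · rw [expo_mul] at h1
      exact Or.inl (TV.near_powI hχ hk h1)
    · exact Or.inr (zmot_pow I hk h1)
  | box s₀ I J hI hJ ihI ihJ =>
    obtain ⟨h1, h2, h3⟩ := ihI
    obtain ⟨g1, g2, g3⟩ := ihJ
    refine ⟨?_, TV.near_box_left hχ (ne_bot_of_near g2) h2, per_box hχ I J h3 g3⟩
    rcases h1 with h1 | h1
    · exact Or.inl (TV.near_box_left hχ (ne_bot_of_near g2) h1)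
    · rcases g1 with g1 | g1
      · exact Or.inl (TV.near_box_right hχ (ne_bot_of_near h2) g1)
      · exact Or.inr (zmot_box I J h1 g1)

theorem tameX_main {χ : K0 →+* ℤ} (hχ : IsEulerCharF χ)
    (I : Ideal (MvPolynomial (Fin N) ℂ)) (s₀ : ℚ) (h : TameX χ s₀ I)
    (hpole : IsPole (Zmot I) s₀) (ε : ℝ) (hε : 0 < ε) :
    ∃ p : Fin N → ℂ, ‖p‖ < ε ∧ (∀ f ∈ I, eval p f = 0) ∧
      ∃ y : ConePoint I p, y.Nonzero ∧
        ∃ Z, IsZeta (fun d => χ (cls (contactArcs I p y d))) Z ∧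
          ZeroOrPole Z (Complex.exp (2 * Real.pi * Complex.I * s₀)) := by
  obtain ⟨hn, -, -⟩ := wx_of_tameX hχ s₀ I h
  rcases hn with hn | hn
  · obtain ⟨p, hp, hv⟩ := hn ε hε
    rw [sub_zero] at hp
    obtain ⟨h1, y, hy, Z, hZ, hZP⟩ := cone_of_vis hv
    exact ⟨p, hp, h1, y, hy, Z, hZ, hZP⟩
  · exact absurd hn hpole

end HY
end MotMono
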