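import Pool.Agent.Lib.MP_4e5fcd_ag.HY.A8
import Pool.Agent.Lib.MP_4e5fcd_ag.CN.P4

/-!
# HY-A9: the zeta function of `linGen f s`
-/

open MvPolynomial Matrix

namespace MotMono
namespace HY

open CN

variable {N r : ℕ}

/-- powers of `L` -/
private noncomputable def A9A (n : ℤ) : MC := ((Lu ^ n : MCˣ) : MC)

private theorem A9_add (m n : ℤ) : A9A m * A9A n = A9A (m + n) := by
  rw [A9A, A9A, A9A, _root_.zpow_add, Units.val_mul]

private theorem A9_pow (n : ℕ) : (algebraMap K0 MC LL) ^ n = A9A n := by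
  have h : algebraMap K0 MC LL = ((Lu : MCˣ) : MC) := rfl
  rw [h, A9A, _root_.zpow_natCast, Units.val_pow_eq_pow_val]

private theorem A9_zero : A9A 0 = 1 := by
  rw [A9A, _root_.zpow_zero, Units.val_one]

private theorem A9_term (s k m : ℕ) (hr : 1 ≤ r) (hm : m < k) (α : MC) :
    A9A ((s * r * k - s * (k - m) : ℕ) : ℤ) * ((A9A (s : ℤ) - 1) *
        (A9A ((N * (k - m) : ℕ) : ℤ) * α)) * A9A (-(((N + s * r : ℕ) : ℤ) * (k + 1))) =
      A9A (-((s * r : ℕ) : ℤ)) * (1 - A9A (-(s : ℤ))) *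
        (A9A (-((s * (k - 1 - m) : ℕ) : ℤ)) * (α * A9A (-((N : ℤ) * (m + 1))))) := by
  have hle : s * (k - m) ≤ s * r * k := by
    rw [mul_assoc]
    refine Nat.mul_le_mul_left s ?_
    calc k - m ≤ k := Nat.sub_le _ _
      _ = 1 * k := (one_mul k).symm
      _ ≤ r * k := Nat.mul_le_mul_right k hr
  have h1 : ((k - m : ℕ) : ℤ) = k - m := by push_cast [Nat.cast_sub hm.le]; ring
  have h2 : ((k - 1 - m : ℕ) : ℤ) = k - 1 - m := by omega
  set E : ℤ := ((s * r * k - s * (k - m) : ℕ) : ℤ) + ((N * (k - m) : ℕ) : ℤ) +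
    -(((N + s * r : ℕ) : ℤ) * (k + 1)) with hE
  set F : ℤ := -((s * r : ℕ) : ℤ) + -((s * (k - 1 - m) : ℕ) : ℤ) + -((N : ℤ) * (m + 1)) with hF
  have h3 : (s : ℤ) + E = F := by
    rw [hE, hF, Nat.cast_sub hle]
    push_cast
    rw [h1, h2]
    ring
  have h4 : E = F + -(s : ℤ) := by rw [← h3]; ring
  calc _ = α * ((A9A (s : ℤ) - 1) * (A9A ((s * r * k - s * (k - m) : ℕ) : ℤ) *
        A9A ((N * (k - m) : ℕ) : ℤ) * A9A (-(((N + s * r : ℕ) : ℤ) * (k + 1))))) := by ring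
    _ = α * ((A9A (s : ℤ) - 1) * A9A E) := by rw [A9_add, A9_add]
    _ = α * (A9A F - A9A (F + -(s : ℤ))) := by
        rw [sub_mul, A9_add, h3, one_mul, ← h4]
    _ = α * (A9A F * (1 - A9A (-(s : ℤ)))) := by rw [← A9_add F]; ring
    _ = α * ((A9A (-((s * r : ℕ) : ℤ)) * A9A (-((s * (k - 1 - m) : ℕ) : ℤ)) *
        A9A (-((N : ℤ) * (m + 1)))) * (1 - A9A (-(s : ℤ)))) := by rw [A9_add, A9_add]
    _ = _ := by ring

private theorem A9_coeff (f : Fin r → MvPolynomial (Fin N) ℂ) (s k : ℕ) :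
    PowerSeries.coeff k (Zmot (linGen f s)) =
      A9A (-((s * r : ℕ) : ℤ)) * (1 - A9A (-(s : ℤ))) *
        ∑ m ∈ Finset.range k, A9A (-((s * (k - 1 - m) : ℕ) : ℤ)) *
          PowerSeries.coeff m (Zmot (Ideal.span (Set.range f))) := by
  have hexp : ((Lu ^ (-(((N + s * r : ℕ) : ℤ) * (k + 1))) : MCˣ) : MC) =
    A9A (-(((N + s * r : ℕ) : ℤ) * (k + 1))) := rfl
  rw [Zmot, PowerSeries.coeff_mk, cls_ordLocus_gen, map_sum, Finset.sum_mul, Finset.mul_sum, hexp]
  refine Finset.sum_congr rfl fun m hm => ?_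
  rw [Zmot, PowerSeries.coeff_mk]
  have hexp' : ((Lu ^ (-((N : ℤ) * (m + 1))) : MCˣ) : MC) = A9A (-((N : ℤ) * (m + 1))) := rfl
  rw [hexp', map_mul, map_mul, map_mul, map_sub, map_one, map_pow, map_pow, map_pow, A9_pow, A9_pow,
    A9_pow]
  rcases Nat.eq_zero_or_pos r with hr | hr
  · have hI : Ideal.span (Set.range f) = ⊥ := by
      subst hr
      rw [Ideal.span_eq_bot]
      rintro x ⟨i, -⟩
      exact i.elim0
    have hO : ordLocus (Ideal.span (Set.range f)) m = ∅ := by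
      rw [hI]
      ext γ
      simp only [ordLocus, Set.mem_ofPred_eq, Set.mem_empty_iff_false, iff_false]
      rintro ⟨-, -, g, hg, hne⟩
      rw [Ideal.mem_bot] at hg
      subst hg
      exact hne (by simp [along])
    rw [hO, cls_empty, map_zero]
    ring
  · exact A9_term s k m hr (Finset.mem_range.1 hm) _

theorem zmot_gen (f : Fin r → MvPolynomial (Fin N) ℂ) (s : ℕ) :
    Zmot (linGen f s) *
        (1 - PowerSeries.C ((Lu ^ (-(s : ℤ)) : MCˣ) : MC) * PowerSeries.X) =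
      PowerSeries.C (((Lu ^ (-((s * r : ℕ) : ℤ)) : MCˣ) : MC) *
          (1 - ((Lu ^ (-(s : ℤ)) : MCˣ) : MC))) * PowerSeries.X *
        Zmot (Ideal.span (Set.range f)) := by
  have e1 : ((Lu ^ (-(s : ℤ)) : MCˣ) : MC) = A9A (-(s : ℤ)) := rfl
  have e2 : ((Lu ^ (-((s * r : ℕ) : ℤ)) : MCˣ) : MC) = A9A (-((s * r : ℕ) : ℤ)) := rfl
  rw [e1, e2]
  set K : MC := A9A (-((s * r : ℕ) : ℤ)) * (1 - A9A (-(s : ℤ))) with hK
  set W := Zmot (linGen f s) with hW
  set Z := Zmot (Ideal.span (Set.range f)) with hZ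
  have hco : ∀ k, PowerSeries.coeff k W = K * ∑ m ∈ Finset.range k,
      A9A (-((s * (k - 1 - m) : ℕ) : ℤ)) * PowerSeries.coeff m Z := fun k => A9_coeff f s k
  ext k
  have h1 : W * (1 - PowerSeries.C (A9A (-(s : ℤ))) * PowerSeries.X) =
      W - PowerSeries.C (A9A (-(s : ℤ))) * (W * PowerSeries.X) := by ring
  have h2 : PowerSeries.C K * PowerSeries.X * Z = PowerSeries.C K * (Z * PowerSeries.X) := by ring
  rw [h1, h2, map_sub, PowerSeries.coeff_C_mul, PowerSeries.coeff_C_mul]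
  rcases k with _ | k
  · rw [PowerSeries.coeff_zero_mul_X, PowerSeries.coeff_zero_mul_X, hco]
    simp
  · rw [PowerSeries.coeff_succ_mul_X, PowerSeries.coeff_succ_mul_X, hco, hco,
      Finset.sum_range_succ]
    have h3 : ∑ m ∈ Finset.range k, A9A (-((s * (k + 1 - 1 - m) : ℕ) : ℤ)) *
        PowerSeries.coeff m Z = A9A (-(s : ℤ)) * ∑ m ∈ Finset.range k,
          A9A (-((s * (k - 1 - m) : ℕ) : ℤ)) * PowerSeries.coeff m Z := by
      rw [Finset.mul_sum]
      refine Finset.sum_congr rfl fun m hm => ?_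
      have hmk := Finset.mem_range.1 hm
      rw [← mul_assoc, A9_add]
      congr 2
      have h4 : k + 1 - 1 - m = (k - 1 - m) + 1 := by omega
      rw [h4]
      push_cast
      ring
    rw [h3]
    have h5 : k + 1 - 1 - k = 0 := by omega
    rw [h5, Nat.mul_zero, Nat.cast_zero, neg_zero, A9_zero]
    ring

theorem polar_gen (f : Fin r → MvPolynomial (Fin N) ℂ) (s : ℕ) {s₀ : ℚ} (hs : s₀ ≠ -(s : ℚ))
    (h : Zmot (Ideal.span (Set.range f)) ∈ polarRing s₀) : Zmot (linGen f s) ∈ polarRing s₀ := by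
  refine mem_polar_of_mul s₀ s 1 one_pos ?_ _ ?_
  · intro he
    apply hs
    rw [← he]
    push_cast
    ring
  · rw [pow_one, zmot_gen f s]
    refine Subring.mul_mem _ (Subring.mul_mem _ (C_mem_polar _ _) ?_) h
    have := X_pow_mem_polar s₀ 1
    rwa [pow_one] at this

end HY
end MotMono
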