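import Mathlib

/-!
# HY-A5: a triangular Toeplitz determinant

The matrix has entries `c (m + b - b')` for `(i, b), (i, b')`, `b' ≤ m + b`, else `0`. For
`b < b' ≤ m + b` the index `m + b - b'` is `< m`, so the entry is `0`; for `b' = b` it is `c m`. If the
determinant is `0` there is `x ≠ 0` with `M *ᵥ x = 0` (`Matrix.exists_mulVec_eq_zero_iff`). By strong
induction on `b` all `x (i, b) = 0`: the equation with index `(i, b)` is
`c m * x (i, b) + ∑_{b' < b} c (m + b - b') x (i, b') = 0`.
-/

namespace MotMono
namespace HY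

theorem toeplitz_det {s k : ℕ} (c : ℕ → ℂ) (m : ℕ) (hc : ∀ l < m, c l = 0) (hm : c m ≠ 0) :
    (Matrix.of fun p q : Fin s × Fin k =>
      if p.1 = q.1 ∧ (q.2 : ℕ) ≤ m + p.2 then c (m + p.2 - q.2) else 0).det ≠ 0 := by
  intro h0
  obtain ⟨x, hx, h1⟩ := Matrix.exists_mulVec_eq_zero_iff.2 h0
  apply hx
  have h2 : ∀ (i : Fin s) (b : ℕ) (hb : b < k), x (i, ⟨b, hb⟩) = 0 := by
    intro i b
    induction b using Nat.strong_induction_on with
    | _ b ih =>
      intro hb
      have h3 := congrFun h1 (i, ⟨b, hb⟩)
      simp only [Matrix.mulVec, dotProduct, Matrix.of_apply, Pi.zero_apply] at h3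
      rw [Finset.sum_eq_single (i, (⟨b, hb⟩ : Fin k))] at h3
      · rw [if_pos ⟨rfl, by simp only; omega⟩] at h3
        have h4 : m + b - b = m := by omega
        simp only [h4] at h3
        exact (mul_eq_zero.1 h3).resolve_left hm
      · rintro ⟨i', b'⟩ _ hne
        by_cases hi : i = i'
        · subst hi
          rcases lt_trichotomy (b' : ℕ) b with h5 | h5 | h5
          · have := ih b' h5 b'.2
            rw [Fin.eta] at this
            rw [this, mul_zero]
          · have h6 : b' = (⟨b, hb⟩ : Fin k) := Fin.ext h5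
            exact absurd (by rw [h6]) hne
          · by_cases h6 : (b' : ℕ) ≤ m + b
            · rw [if_pos ⟨rfl, h6⟩, hc _ (by simp only; omega), zero_mul]
            · rw [if_neg (fun h => h6 h.2), zero_mul]
        · rw [if_neg (fun h => hi h.1), zero_mul]
      · intro h
        exact absurd (Finset.mem_univ _) h
  funext p
  obtain ⟨i, b⟩ := p
  exact h2 i b b.2

end HY
end MotMono
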