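import Pool.Agent.Lib.MP_4e5fcd_ag.HY.A1
import Pool.Agent.Lib.MP_4e5fcd_ag.HY.A3
import Pool.Agent.Lib.MP_4e5fcd_ag.HY.A4
import Pool.Agent.Lib.MP_4e5fcd_ag.HY.A5

/-!
# HY-A6: the coefficients of `Y f` are uniformly distributed

`cls_unif_aux`: apply `cls_lin` with `σ = Fin N × Fin (n + 1)` (the jets `γ`), `α = (Fin s × Fin r) × Fin n`
(`((i, j), a)` is the coefficient of level `a + 1` of `Y_ij`), `β = Fin s × Fin (n - m)` (`(i, b)` is the
coefficient of level `m + 1 + b` of `(Y f)_i`), `e (i, b) = ((i, j₀), b)`,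
`A (i, b) ((i', j), a) = if i = i' ∧ a ≤ m + b then P_j (m + b - a) else 0`, `b (i, b) = ∑ j, C i j P_j (m + 1 + b)`,
where `P_j l` is the polynomial with `eval γ (P_j l) = (along (f j) γ).coeff l` (`exists_alongPoly`),
`E' = {γ ∈ E | TF f m j₀ γ}`, and `Q = {(γ, y) | the tuple y' with y' (i, l) = 0 (l < m),
y' (i, m) = (C *ᵥ vec f m γ) i, y' (i, l) = y (i, l - m - 1) (l > m) is in T}` (`constr_polyMap`).
The determinant condition is `toeplitz_det` with `c l = (along (f j₀) γ).coeff l`. By `along_gen` and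
`Polynomial.coeff_mul` the coefficient of level `l` of `gen f s i` along `z` is
`∑ j ∑_{a ≤ l} Y_ij,a (along (f j) (xj z)).coeff (l - a)` (levels `a ≤ n`, `a1_arc_coeff`): for `l < m` it is `0`, for
`l = m` it is `∑ j C i j v_j` (`to_gen`, `vec_gen`), for `l = m + 1 + b` it is `(A Y + b) (i, b)`. So the left set is
regularly isomorphic (a reindexing which inserts the constants `C i j` at level `0`) to the left set
of `cls_lin`, and the right set to the right set of `cls_lin` (insert / forget the levels `≤ m` of `y`).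
`card α - card β = s * r * n - s * (n - m)`.
`cls_unif`: `TE f m γ` iff `TF f m j₀ γ` for exactly one `j₀` (the least `j` with `vec f m γ j ≠ 0`): both sides
are disjoint unions over `j₀` (`cls_biUnion` over `Finset.univ`).
-/

open MvPolynomial Matrix

namespace MotMono
namespace HY

open CN

variable {N r s : ℕ}

/-- the levels `≤ m` inserted -/
private noncomputable def A6Phi {n : ℕ} (m : ℕ)
    (P : Fin r → ℕ → MvPolynomial (Fin N × Fin (n + 1)) ℂ) (C : Matrix (Fin s) (Fin r) ℂ)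
    (q : Fin s × Fin (n + 1)) :
    MvPolynomial ((Fin N × Fin (n + 1)) ⊕ (Fin s × Fin (n - m))) ℂ :=
  if (q.2 : ℕ) < m then 0 else if (q.2 : ℕ) = m then
    ∑ j, MvPolynomial.C (C q.1 j) * rename Sum.inl (P j m)
  else if h2 : (q.2 : ℕ) - (m + 1) < n - m then X (Sum.inr (q.1, ⟨(q.2 : ℕ) - (m + 1), h2⟩)) else 0

private theorem A6_eval_rename {σ τ : Type} (P : MvPolynomial σ ℂ) (w : σ ⊕ τ → ℂ) :
    eval w (rename Sum.inl P) = eval (fun q => w (Sum.inl q)) P := by
  rw [eval_rename]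
  rfl

private theorem A6_phi_lt {n m : ℕ} (P : Fin r → ℕ → MvPolynomial (Fin N × Fin (n + 1)) ℂ)
    (C : Matrix (Fin s) (Fin r) ℂ) (i : Fin s) (l : Fin (n + 1)) (h : (l : ℕ) < m)
    (w : (Fin N × Fin (n + 1)) ⊕ (Fin s × Fin (n - m)) → ℂ) :
    eval w (A6Phi m P C (i, l)) = 0 := by
  rw [A6Phi, if_pos h, map_zero]

private theorem A6_phi_eq {n m : ℕ} (P : Fin r → ℕ → MvPolynomial (Fin N × Fin (n + 1)) ℂ)
    (C : Matrix (Fin s) (Fin r) ℂ) (i : Fin s) (l : Fin (n + 1)) (h : (l : ℕ) = m)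
    (w : (Fin N × Fin (n + 1)) ⊕ (Fin s × Fin (n - m)) → ℂ) :
    eval w (A6Phi m P C (i, l)) = ∑ j, C i j * eval (fun q => w (Sum.inl q)) (P j m) := by
  rw [A6Phi, if_neg (by simp only [h]; omega), if_pos h, map_sum]
  refine Finset.sum_congr rfl fun j _ => ?_
  rw [map_mul, eval_C, A6_eval_rename]

private theorem A6_phi_gt {n m : ℕ} (P : Fin r → ℕ → MvPolynomial (Fin N × Fin (n + 1)) ℂ)
    (C : Matrix (Fin s) (Fin r) ℂ) (i : Fin s) (b : Fin (n - m)) (l : Fin (n + 1))
    (hl : (l : ℕ) = m + 1 + b) (w : (Fin N × Fin (n + 1)) ⊕ (Fin s × Fin (n - m)) → ℂ) :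
    eval w (A6Phi m P C (i, l)) = w (Sum.inr (i, b)) := by
  have h2 : (l : ℕ) - (m + 1) < n - m := by omega
  have e : (⟨(l : ℕ) - (m + 1), h2⟩ : Fin (n - m)) = b := by
    apply Fin.ext
    simp only
    omega
  rw [A6Phi, if_neg (by simp only; omega), if_neg (by simp only; omega), dif_pos h2, eval_X]
  simp only [e]

/-- the coefficients of `Y f` -/
private theorem A6_coeff {n : ℕ} (f : Fin r → MvPolynomial (Fin N) ℂ) (i : Fin s)
    (z : Fin (N + s * r) × Fin (n + 1) → ℂ) (l : ℕ) (hl : l ≤ n) :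
    (along (gen f s i) z).coeff l = ∑ j, (yj z i j 0 * (along (f j) (xj z)).coeff l +
      ∑ a : Fin n, if (a : ℕ) < l then yj z i j a.succ * (along (f j) (xj z)).coeff (l - 1 - a)
        else 0) := by
  rw [along_gen, Polynomial.finsetSum_coeff]
  refine Finset.sum_congr rfl fun j _ => ?_
  rw [Polynomial.coeff_mul, Finset.Nat.sum_antidiagonal_eq_sum_range_succ
    (fun a b => (arc z (Fin.natAdd N (finProdFinEquiv (i, j)))).coeff a *
      (along (f j) (xj z)).coeff b), Finset.sum_range_succ']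
  rw [add_comm]
  congr 1
  · rw [a1_arc_coeff, dif_pos (Nat.succ_pos n), Nat.sub_zero]
    rfl
  · have h1 : ∑ a : Fin n, (if (a : ℕ) < l then
        yj z i j a.succ * (along (f j) (xj z)).coeff (l - 1 - a) else 0) =
        ∑ a ∈ Finset.range n, if a < l then
          (arc z (Fin.natAdd N (finProdFinEquiv (i, j)))).coeff (a + 1) *
            (along (f j) (xj z)).coeff (l - (a + 1)) else 0 := by
      rw [Finset.sum_range]
      refine Finset.sum_congr rfl fun a _ => ?_
      by_cases h : (a : ℕ) < l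
      · rw [if_pos h, if_pos h, a1_arc_coeff, dif_pos (by omega), Nat.sub_sub, Nat.add_comm 1]
        rfl
      · rw [if_neg h, if_neg h]
    rw [h1, ← Finset.sum_filter]
    refine Finset.sum_congr ?_ fun a _ => rfl
    ext a
    simp only [Finset.mem_range, Finset.mem_filter]
    omega

private theorem A6_constr_left {n m : ℕ} (f : Fin r → MvPolynomial (Fin N) ℂ)
    (C : Matrix (Fin s) (Fin r) ℂ) (j₀ : Fin r) {E : Set (Fin N × Fin (n + 1) → ℂ)}
    (hE : Constr E) {T : Set (Fin s × Fin (n + 1) → ℂ)} (hT : Constr T) :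
    Constr {z : Fin (N + s * r) × Fin (n + 1) → ℂ | xj z ∈ E ∧ TF f m j₀ (xj z) ∧
      (∀ i j, yj z i j 0 = C i j) ∧ cj (gen f s) z ∈ T} := by
  have h1 : Constr {z : Fin (N + s * r) × Fin (n + 1) → ℂ | xj z ∈ E} :=
    hE.comp (fun q => (Fin.castAdd (s * r) q.1, q.2))
  have h2 : Constr {z : Fin (N + s * r) × Fin (n + 1) → ℂ | TF f m j₀ (xj z)} :=
    (constr_TF f m j₀).comp (fun q => (Fin.castAdd (s * r) q.1, q.2))
  have h3 : Constr {z : Fin (N + s * r) × Fin (n + 1) → ℂ | ∀ i j, yj z i j 0 = C i j} := by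
    have e3 : {z : Fin (N + s * r) × Fin (n + 1) → ℂ | ∀ i j, yj z i j 0 = C i j} =
        ⋂ i, ⋂ j, {z | eval z (X (Fin.natAdd N (finProdFinEquiv (i, j)), (0 : Fin (n + 1))) :
          MvPolynomial (Fin (N + s * r) × Fin (n + 1)) ℂ) =
            eval z (MvPolynomial.C (C i j))} := by
      ext z
      simp only [Set.mem_ofPred_eq, Set.mem_iInter, eval_X, eval_C]
      rfl
    rw [e3]
    exact constr_iInter fun i => constr_iInter fun j => constr_eq _ _
  choose R hR using fun q : Fin s × Fin (n + 1) =>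
    exists_alongPoly (n := n + 1) (gen f s q.1) (q.2 : ℕ)
  have h4 : Constr {z : Fin (N + s * r) × Fin (n + 1) → ℂ | cj (gen f s) z ∈ T} := by
    have := hT.preimage R
    have e4 : {z : Fin (N + s * r) × Fin (n + 1) → ℂ | cj (gen f s) z ∈ T} =
        {x | (fun j => eval x (R j)) ∈ T} := by
      ext z
      have : cj (gen f s) z = fun j => eval z (R j) := by
        funext q
        rw [hR]
        rfl
      simp only [Set.mem_ofPred_eq, this]
    rw [e4]
    exact this
  exact h1.inter (h2.inter (h3.inter h4))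

private theorem A6_constr_right {n m : ℕ} (f : Fin r → MvPolynomial (Fin N) ℂ)
    (C : Matrix (Fin s) (Fin r) ℂ) (j₀ : Fin r) {E : Set (Fin N × Fin (n + 1) → ℂ)}
    (hE : Constr E) {T : Set (Fin s × Fin (n + 1) → ℂ)} (hT : Constr T) :
    Constr {z : (Fin N × Fin (n + 1)) ⊕ (Fin s × Fin (n + 1)) → ℂ |
      (fun q => z (Sum.inl q)) ∈ E ∧ TF f m j₀ (fun q => z (Sum.inl q)) ∧
      (fun q => z (Sum.inr q)) ∈ T ∧
      (∀ i (l : Fin (n + 1)), (l : ℕ) < m → z (Sum.inr (i, l)) = 0) ∧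
      ∀ i (l : Fin (n + 1)), (l : ℕ) = m →
        z (Sum.inr (i, l)) = (C *ᵥ vec f m fun q => z (Sum.inl q)) i} := by
  choose P hP using fun j => fun l => exists_alongPoly (n := n + 1) (f j) l
  have h1 : Constr {z : (Fin N × Fin (n + 1)) ⊕ (Fin s × Fin (n + 1)) → ℂ |
        ∀ i (l : Fin (n + 1)), (l : ℕ) < m → z (Sum.inr (i, l)) = 0} := by
    have e1 : {z : (Fin N × Fin (n + 1)) ⊕ (Fin s × Fin (n + 1)) → ℂ |
        ∀ i (l : Fin (n + 1)), (l : ℕ) < m → z (Sum.inr (i, l)) = 0} =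
        ⋂ i : Fin s, ⋂ l : Fin (n + 1), {z | (l : ℕ) < m → z (Sum.inr (i, l)) = 0} := by
      ext z
      simp only [Set.mem_ofPred_eq, Set.mem_iInter]
    rw [e1]
    refine constr_iInter fun i => constr_iInter fun l => ?_
    by_cases h : (l : ℕ) < m
    · simpa [h] using Constr.zeroSet
        (X (Sum.inr (i, l)) : MvPolynomial ((Fin N × Fin (n + 1)) ⊕ (Fin s × Fin (n + 1))) ℂ)
    · simpa [h] using constr_univ (σ := (Fin N × Fin (n + 1)) ⊕ (Fin s × Fin (n + 1)))
  have h2 : Constr {z : (Fin N × Fin (n + 1)) ⊕ (Fin s × Fin (n + 1)) → ℂ |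
        ∀ i (l : Fin (n + 1)), (l : ℕ) = m →
          z (Sum.inr (i, l)) = (C *ᵥ vec f m fun q => z (Sum.inl q)) i} := by
    have e1 : {z : (Fin N × Fin (n + 1)) ⊕ (Fin s × Fin (n + 1)) → ℂ |
        ∀ i (l : Fin (n + 1)), (l : ℕ) = m →
          z (Sum.inr (i, l)) = (C *ᵥ vec f m fun q => z (Sum.inl q)) i} =
        ⋂ i : Fin s, ⋂ l : Fin (n + 1), {z | (l : ℕ) = m →
          z (Sum.inr (i, l)) = (C *ᵥ vec f m fun q => z (Sum.inl q)) i} := by
      ext z
      simp only [Set.mem_ofPred_eq, Set.mem_iInter]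
    rw [e1]
    refine constr_iInter fun i => constr_iInter fun l => ?_
    by_cases h : (l : ℕ) = m
    · have e2 : {z : (Fin N × Fin (n + 1)) ⊕ (Fin s × Fin (n + 1)) → ℂ | (l : ℕ) = m →
          z (Sum.inr (i, l)) = (C *ᵥ vec f m fun q => z (Sum.inl q)) i} =
          {z | eval z (X (Sum.inr (i, l)) :
            MvPolynomial ((Fin N × Fin (n + 1)) ⊕ (Fin s × Fin (n + 1))) ℂ) =
            eval z (∑ j, MvPolynomial.C (C i j) * rename Sum.inl (P j m))} := by
        ext z
        simp only [Set.mem_ofPred_eq, h, true_imp_iff, eval_X, map_sum, map_mul, eval_C,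
          A6_eval_rename, hP]
        rfl
      rw [e2]
      exact constr_eq _ _
    · simpa [h] using constr_univ (σ := (Fin N × Fin (n + 1)) ⊕ (Fin s × Fin (n + 1)))
  exact (hE.comp Sum.inl).inter (((constr_TF f m j₀).comp Sum.inl).inter
    ((hT.comp Sum.inr).inter (h1.inter h2)))

theorem cls_unif_aux (f : Fin r → MvPolynomial (Fin N) ℂ) {n m : ℕ} (hm : m ≤ n)
    (C : Matrix (Fin s) (Fin r) ℂ) (j₀ : Fin r) {E : Set (Fin N × Fin (n + 1) → ℂ)}
    (hE : Constr E) {T : Set (Fin s × Fin (n + 1) → ℂ)} (hT : Constr T) :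
    cls {z : Fin (N + s * r) × Fin (n + 1) → ℂ | xj z ∈ E ∧ TF f m j₀ (xj z) ∧
        (∀ i j, yj z i j 0 = C i j) ∧ cj (gen f s) z ∈ T} =
      LL ^ (s * r * n - s * (n - m)) *
        cls {z : (Fin N × Fin (n + 1)) ⊕ (Fin s × Fin (n + 1)) → ℂ |
          (fun q => z (Sum.inl q)) ∈ E ∧ TF f m j₀ (fun q => z (Sum.inl q)) ∧
          (fun q => z (Sum.inr q)) ∈ T ∧
          (∀ i (l : Fin (n + 1)), (l : ℕ) < m → z (Sum.inr (i, l)) = 0) ∧
          ∀ i (l : Fin (n + 1)), (l : ℕ) = m →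
            z (Sum.inr (i, l)) = (C *ᵥ vec f m fun q => z (Sum.inl q)) i} := by
  classical
  choose P hP using fun j => fun l => exists_alongPoly (n := n + 1) (f j) l
  set A : (Fin s × Fin (n - m)) → ((Fin s × Fin r) × Fin n) →
      MvPolynomial (Fin N × Fin (n + 1)) ℂ := fun k a =>
    if k.1 = a.1.1 ∧ (a.2 : ℕ) ≤ m + k.2 then P a.1.2 (m + k.2 - a.2) else 0 with hA
  set bb : (Fin s × Fin (n - m)) → MvPolynomial (Fin N × Fin (n + 1)) ℂ := fun k =>
    ∑ j, MvPolynomial.C (C k.1 j) * P j (m + 1 + k.2) with hbb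
  set e : (Fin s × Fin (n - m)) → ((Fin s × Fin r) × Fin n) := fun k =>
    ((k.1, j₀), ⟨k.2, by omega⟩) with he
  have hei : Function.Injective e := by
    rintro ⟨i, b⟩ ⟨i', b'⟩ h
    simp only [he, Prod.mk.injEq, Fin.mk.injEq] at h
    exact Prod.ext h.1.1 (Fin.ext h.2)
  have hE' : Constr {γ : Fin N × Fin (n + 1) → ℂ | γ ∈ E ∧ TF f m j₀ γ} :=
    hE.inter (constr_TF f m j₀)
  have hdet : ∀ x ∈ {γ : Fin N × Fin (n + 1) → ℂ | γ ∈ E ∧ TF f m j₀ γ},
      (Matrix.of fun k k' : Fin s × Fin (n - m) => eval x (A k (e k'))).det ≠ 0 := by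
    rintro x ⟨-, hx1, -, hx3⟩
    have h1 := toeplitz_det (s := s) (k := n - m) (fun l => (along (f j₀) x).coeff l) m
      (fun l hl => hx1 j₀ l hl) hx3
    have h2 : (Matrix.of fun k k' : Fin s × Fin (n - m) => eval x (A k (e k'))) =
        (Matrix.of fun p q : Fin s × Fin (n - m) =>
          if p.1 = q.1 ∧ (q.2 : ℕ) ≤ m + p.2 then (along (f j₀) x).coeff (m + p.2 - q.2)
          else 0) := by
      ext p q
      simp only [Matrix.of_apply, hA, he]
      split_ifs with h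
      · rw [hP]
      · rw [map_zero]
    rw [h2]
    exact h1
  have hQ : Constr {y : (Fin N × Fin (n + 1)) ⊕ (Fin s × Fin (n - m)) → ℂ |
      (fun q => eval y (A6Phi m P C q)) ∈ T} := hT.preimage _
  have key := cls_lin A bb e hei hE' hdet hQ
  have hcard : Fintype.card ((Fin s × Fin r) × Fin n) - Fintype.card (Fin s × Fin (n - m)) =
      s * r * n - s * (n - m) := by
    simp only [Fintype.card_prod, Fintype.card_fin]
  rw [hcard] at key
  -- the key identity
  have hK : ∀ z : Fin (N + s * r) × Fin (n + 1) → ℂ, TF f m j₀ (xj z) →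
      (∀ i j, yj z i j 0 = C i j) → cj (gen f s) z = fun q => eval (Sum.elim (xj z) fun k =>
        ∑ a, eval (xj z) (A k a) * yj z a.1.1 a.1.2 a.2.succ + eval (xj z) (bb k))
          (A6Phi m P C q) := by
    intro z hz hY
    funext q
    obtain ⟨i, l⟩ := q
    show (along (gen f s i) z).coeff l = _
    rcases lt_trichotomy (l : ℕ) m with h | h | h
    · rw [A6_phi_lt P C i l h]
      exact to_gen f z hz.1 i l h
    · rw [A6_phi_eq P C i l h, h]
      have h1 := congrFun (vec_gen f z hz.1) i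
      have h2 : vec (gen f s) m z i = (along (gen f s i) z).coeff m := rfl
      rw [← h2, h1]
      simp only [Matrix.mulVec, dotProduct, Matrix.of_apply]
      refine Finset.sum_congr rfl fun j _ => ?_
      rw [hY i j]
      simp only [Sum.elim_inl]
      rw [hP j m]
      rfl
    · obtain ⟨b, hb⟩ : ∃ b : Fin (n - m), (l : ℕ) = m + 1 + b :=
        ⟨⟨(l : ℕ) - (m + 1), by omega⟩, by simp only; omega⟩
      rw [A6_phi_gt P C i b l hb, hb, Sum.elim_inr, A6_coeff f i z _ (by omega),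
        Finset.sum_add_distrib, add_comm]
      congr 1
      · rw [Fintype.sum_prod_type, Fintype.sum_prod_type]
        rw [Finset.sum_eq_single i]
        · refine Finset.sum_congr rfl fun j _ => Finset.sum_congr rfl fun a _ => ?_
          simp only [hA, true_and]
          by_cases h2 : (a : ℕ) ≤ m + b
          · rw [if_pos (by omega), if_pos h2, hP, mul_comm]
            congr 2
            omega
          · rw [if_neg (by omega), if_neg h2, map_zero, zero_mul]
        · intro i' _ hi'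
          refine Finset.sum_eq_zero fun j _ => Finset.sum_eq_zero fun a _ => ?_
          simp only [hA]
          rw [if_neg (fun h => hi' h.1.symm), map_zero, zero_mul]
        · intro h
          exact absurd (Finset.mem_univ i) h
      · simp only [hbb, map_sum, map_mul, eval_C]
        refine Finset.sum_congr rfl fun j _ => ?_
        rw [hY i j, hP]
  have hcL1 := A6_constr_left (m := m) f C j₀ hE hT
  have hcL2 : Constr {z : (Fin N × Fin (n + 1)) ⊕ ((Fin s × Fin r) × Fin n) → ℂ |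
      (fun q => z (Sum.inl q)) ∈ {γ : Fin N × Fin (n + 1) → ℂ | γ ∈ E ∧ TF f m j₀ γ} ∧
        (Sum.elim (fun q => z (Sum.inl q)) fun k =>
          ∑ a, eval (fun q => z (Sum.inl q)) (A k a) * z (Sum.inr a) +
            eval (fun q => z (Sum.inl q)) (bb k)) ∈
        {y : (Fin N × Fin (n + 1)) ⊕ (Fin s × Fin (n - m)) → ℂ |
          (fun q => eval y (A6Phi m P C q)) ∈ T}} := by
    set G : (Fin N × Fin (n + 1)) ⊕ (Fin s × Fin (n - m)) →
        MvPolynomial ((Fin N × Fin (n + 1)) ⊕ ((Fin s × Fin r) × Fin n)) ℂ :=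
      Sum.elim (fun q => X (Sum.inl q)) fun k =>
        ∑ a, rename Sum.inl (A k a) * X (Sum.inr a) + rename Sum.inl (bb k) with hG
    have e2 : ∀ z : (Fin N × Fin (n + 1)) ⊕ ((Fin s × Fin r) × Fin n) → ℂ,
        (fun j => eval z (G j)) = (Sum.elim (fun q => z (Sum.inl q)) fun k =>
          ∑ a, eval (fun q => z (Sum.inl q)) (A k a) * z (Sum.inr a) +
            eval (fun q => z (Sum.inl q)) (bb k)) := by
      intro z
      funext j
      rcases j with j | j
      · simp only [hG, Sum.elim_inl, eval_X]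
      · simp only [hG, Sum.elim_inr, map_add, map_sum, map_mul, eval_X, A6_eval_rename]
    have h1 := hQ.preimage G
    simp only [e2] at h1
    exact (hE'.comp Sum.inl).inter h1
  have hL : cls {z : Fin (N + s * r) × Fin (n + 1) → ℂ | xj z ∈ E ∧ TF f m j₀ (xj z) ∧
      (∀ i j, yj z i j 0 = C i j) ∧ cj (gen f s) z ∈ T} =
      cls {z : (Fin N × Fin (n + 1)) ⊕ ((Fin s × Fin r) × Fin n) → ℂ |
      (fun q => z (Sum.inl q)) ∈ {γ : Fin N × Fin (n + 1) → ℂ | γ ∈ E ∧ TF f m j₀ γ} ∧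
        (Sum.elim (fun q => z (Sum.inl q)) fun k =>
          ∑ a, eval (fun q => z (Sum.inl q)) (A k a) * z (Sum.inr a) +
            eval (fun q => z (Sum.inl q)) (bb k)) ∈
        {y : (Fin N × Fin (n + 1)) ⊕ (Fin s × Fin (n - m)) → ℂ |
          (fun q => eval y (A6Phi m P C q)) ∈ T}} := by
    refine cls_iso hcL1 hcL2 ⟨fun z => Sum.elim (xj z) fun a => yj z a.1.1 a.1.2 a.2.succ,
      fun w => zj (fun q => w (Sum.inl q)) fun i j l =>
        Fin.cases (motive := fun _ => ℂ) (C i j) (fun a => w (Sum.inr ((i, j), a))) l,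
      ?_, ?_, ?_, ?_, ?_, ?_⟩
    · rintro (q | q)
      · exact regFun_coord _ _
      · exact regFun_coord _ _
    · rintro ⟨a, l⟩
      refine Fin.addCases (fun a => ?_) (fun b => ?_) a
      · simp only [zj, Fin.addCases_left]
        exact regFun_coord _ _
      · simp only [zj, Fin.addCases_right]
        refine Fin.cases ?_ (fun l => ?_) l
        · exact regFun_const _ _
        · exact regFun_coord _ _
    · rintro z ⟨h1, h2, h3, h4⟩
      refine ⟨⟨h1, h2⟩, ?_⟩
      rw [hK z h2 h3] at h4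
      exact h4
    · rintro w ⟨⟨h1, h2⟩, h3⟩
      set z : Fin (N + s * r) × Fin (n + 1) → ℂ := zj (fun q => w (Sum.inl q)) fun i j l =>
        Fin.cases (motive := fun _ => ℂ) (C i j) (fun a => w (Sum.inr ((i, j), a))) l with hz
      have e1 : xj z = fun q => w (Sum.inl q) := xj_zj _ _
      have e2 : ∀ i j l, yj z i j l =
          Fin.cases (motive := fun _ => ℂ) (C i j) (fun a => w (Sum.inr ((i, j), a))) l := by
        intro i j l
        rw [hz, yj_zj]
      have e3 : ∀ i j, yj z i j 0 = C i j := fun i j => by rw [e2]; rfl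
      refine ⟨by rw [e1]; exact h1, by rw [e1]; exact h2, e3, ?_⟩
      rw [hK z (by rw [e1]; exact h2) e3]
      have e4 : ∀ a : (Fin s × Fin r) × Fin n, yj z a.1.1 a.1.2 a.2.succ = w (Sum.inr a) :=
        fun a => by rw [e2]; rfl
      simp only [e1, e4]
      exact h3
    · rintro z ⟨-, -, h3, -⟩
      have e1 : (fun i j l => Fin.cases (motive := fun _ => ℂ) (C i j)
          (fun a => (Sum.elim (xj z) fun a : (Fin s × Fin r) × Fin n =>
            yj z a.1.1 a.1.2 a.2.succ : _ → ℂ) (Sum.inr ((i, j), a))) l) = yj z := by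
        funext i j l
        refine Fin.cases ?_ (fun l => ?_) l
        · exact (h3 i j).symm
        · rfl
      show zj (xj z) _ = z
      rw [e1, zj_xj_yj]
    · rintro w -
      funext q
      rcases q with q | q
      · exact congrFun (xj_zj (fun q => w (Sum.inl q)) (fun (i : Fin s) (j : Fin r) l =>
          Fin.cases (motive := fun _ => ℂ) (C i j) (fun a => w (Sum.inr ((i, j), a))) l)) q
      · exact congrFun (congrFun (congrFun (yj_zj (fun q => w (Sum.inl q))
          (fun (i : Fin s) (j : Fin r) l => Fin.cases (motive := fun _ => ℂ) (C i j)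
            (fun a => w (Sum.inr ((i, j), a))) l)) q.1.1) q.1.2) q.2.succ
  have hcR1 := A6_constr_right (m := m) f C j₀ hE hT
  have hR : cls {z : (Fin N × Fin (n + 1)) ⊕ (Fin s × Fin (n + 1)) → ℂ |
      (fun q => z (Sum.inl q)) ∈ E ∧ TF f m j₀ (fun q => z (Sum.inl q)) ∧
      (fun q => z (Sum.inr q)) ∈ T ∧
      (∀ i (l : Fin (n + 1)), (l : ℕ) < m → z (Sum.inr (i, l)) = 0) ∧
      ∀ i (l : Fin (n + 1)), (l : ℕ) = m →
        z (Sum.inr (i, l)) = (C *ᵥ vec f m fun q => z (Sum.inl q)) i} =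
      cls {z : (Fin N × Fin (n + 1)) ⊕ (Fin s × Fin (n - m)) → ℂ |
        (fun q => z (Sum.inl q)) ∈ {γ : Fin N × Fin (n + 1) → ℂ | γ ∈ E ∧ TF f m j₀ γ} ∧
        z ∈ {y : (Fin N × Fin (n + 1)) ⊕ (Fin s × Fin (n - m)) → ℂ |
          (fun q => eval y (A6Phi m P C q)) ∈ T}} := by
    have hphi : ∀ z : (Fin N × Fin (n + 1)) ⊕ (Fin s × Fin (n + 1)) → ℂ,
        (∀ i (l : Fin (n + 1)), (l : ℕ) < m → z (Sum.inr (i, l)) = 0) →
        (∀ i (l : Fin (n + 1)), (l : ℕ) = m →
          z (Sum.inr (i, l)) = (C *ᵥ vec f m fun q => z (Sum.inl q)) i) → ∀ q,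
        eval (Sum.elim (fun q => z (Sum.inl q)) fun k : Fin s × Fin (n - m) =>
          z (Sum.inr (k.1, ⟨m + 1 + k.2, by omega⟩)) : _ → ℂ) (A6Phi m P C q) =
          z (Sum.inr q) := by
      rintro z h1 h2 ⟨i, l⟩
      rcases lt_trichotomy (l : ℕ) m with h | h | h
      · rw [A6_phi_lt P C i l h, h1 i l h]
      · rw [A6_phi_eq P C i l h, h2 i l h]
        simp only [Matrix.mulVec, dotProduct, Sum.elim_inl, hP]
        rfl
      · obtain ⟨b, hb⟩ : ∃ b : Fin (n - m), (l : ℕ) = m + 1 + b :=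
          ⟨⟨(l : ℕ) - (m + 1), by omega⟩, by simp only; omega⟩
        rw [A6_phi_gt P C i b l hb, Sum.elim_inr]
        congr 3
        exact Fin.ext hb.symm
    refine cls_iso hcR1 ((hE'.comp Sum.inl).inter hQ)
      ⟨fun z => Sum.elim (fun q => z (Sum.inl q)) fun k =>
          z (Sum.inr (k.1, ⟨m + 1 + k.2, by omega⟩)),
        fun w => Sum.elim (fun q => w (Sum.inl q)) fun q => eval w (A6Phi m P C q),
        ?_, ?_, ?_, ?_, ?_, ?_⟩
    · rintro (q | q)
      · exact regFun_coord _ _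
      · exact regFun_coord _ _
    · rintro (q | q)
      · exact regFun_coord _ _
      · exact regFun_poly _ _
    · rintro z ⟨h1, h2, h3, h4, h5⟩
      refine ⟨⟨h1, h2⟩, ?_⟩
      show (fun q => eval _ (A6Phi m P C q)) ∈ T
      rw [funext (hphi z h4 h5)]
      exact h3
    · rintro w ⟨⟨h1, h2⟩, h3⟩
      refine ⟨h1, h2, h3, fun i l hl => A6_phi_lt P C i l hl w, fun i l hl => ?_⟩
      show eval w (A6Phi m P C (i, l)) = _
      rw [A6_phi_eq P C i l hl]
      simp only [Matrix.mulVec, dotProduct, Sum.elim_inl, hP]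
      rfl
    · rintro z ⟨-, -, -, h4, h5⟩
      funext q
      rcases q with q | q
      · rfl
      · exact hphi z h4 h5 q
    · rintro w -
      funext q
      rcases q with q | ⟨i, b⟩
      · rfl
      · exact A6_phi_gt P C i b ⟨m + 1 + b, by omega⟩ rfl w
  rw [hL, hR]
  exact key

theorem cls_unif (f : Fin r → MvPolynomial (Fin N) ℂ) {n m : ℕ} (hm : m ≤ n)
    (C : Matrix (Fin s) (Fin r) ℂ) {E : Set (Fin N × Fin (n + 1) → ℂ)}
    (hE : Constr E) {T : Set (Fin s × Fin (n + 1) → ℂ)} (hT : Constr T) :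
    cls {z : Fin (N + s * r) × Fin (n + 1) → ℂ | xj z ∈ E ∧ TE f m (xj z) ∧
        (∀ i j, yj z i j 0 = C i j) ∧ cj (gen f s) z ∈ T} =
      LL ^ (s * r * n - s * (n - m)) *
        cls {z : (Fin N × Fin (n + 1)) ⊕ (Fin s × Fin (n + 1)) → ℂ |
          (fun q => z (Sum.inl q)) ∈ E ∧ TE f m (fun q => z (Sum.inl q)) ∧
          (fun q => z (Sum.inr q)) ∈ T ∧
          (∀ i (l : Fin (n + 1)), (l : ℕ) < m → z (Sum.inr (i, l)) = 0) ∧
          ∀ i (l : Fin (n + 1)), (l : ℕ) = m →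
            z (Sum.inr (i, l)) = (C *ᵥ vec f m fun q => z (Sum.inl q)) i} := by
  classical
  have hiff : ∀ γ : Fin N × Fin (n + 1) → ℂ, TE f m γ ↔ ∃ j₀ : Fin r, TF f m j₀ γ := by
    intro γ
    constructor
    · rintro ⟨h1, h2⟩
      have h3 : ∃ j : Fin r, vec f m γ j ≠ 0 := Function.ne_iff.1 h2
      have h4 : (Finset.univ.filter fun j : Fin r => vec f m γ j ≠ 0).Nonempty := by
        obtain ⟨j, hj⟩ := h3
        exact ⟨j, by simpa using hj⟩
      refine ⟨(Finset.univ.filter fun j : Fin r => vec f m γ j ≠ 0).min' h4, h1, ?_, ?_⟩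
      · intro j hj
        by_contra hne
        have := Finset.min'_le (Finset.univ.filter fun j : Fin r => vec f m γ j ≠ 0) j
          (by simpa using hne)
        exact absurd hj (not_lt.2 this)
      · have := Finset.min'_mem _ h4
        simpa using this
    · rintro ⟨j₀, h1, -, h3⟩
      exact ⟨h1, fun h => h3 (by rw [h]; rfl)⟩
  have hdis : ∀ (γ : Fin N × Fin (n + 1) → ℂ) (j j' : Fin r), TF f m j γ → TF f m j' γ →
      j = j' := by
    rintro γ j j' ⟨-, h1, h2⟩ ⟨-, h1', h2'⟩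
    rcases lt_trichotomy j j' with h | h | h
    · exact absurd (h1' j h) h2
    · exact h
    · exact absurd (h1 j' h) h2'
  have e1 : {z : Fin (N + s * r) × Fin (n + 1) → ℂ | xj z ∈ E ∧ TE f m (xj z) ∧
        (∀ i j, yj z i j 0 = C i j) ∧ cj (gen f s) z ∈ T} =
      ⋃ j₀ ∈ (Finset.univ : Finset (Fin r)), {z : Fin (N + s * r) × Fin (n + 1) → ℂ |
        xj z ∈ E ∧ TF f m j₀ (xj z) ∧ (∀ i j, yj z i j 0 = C i j) ∧ cj (gen f s) z ∈ T} := by
    ext z
    simp only [Set.mem_ofPred_eq, Set.mem_iUnion, Finset.mem_univ, exists_prop, true_and, hiff]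
    constructor
    · rintro ⟨h1, ⟨j, h2⟩, h3⟩
      exact ⟨j, h1, h2, h3⟩
    · rintro ⟨j, h1, h2, h3⟩
      exact ⟨h1, ⟨j, h2⟩, h3⟩
  have e2 : {z : (Fin N × Fin (n + 1)) ⊕ (Fin s × Fin (n + 1)) → ℂ |
          (fun q => z (Sum.inl q)) ∈ E ∧ TE f m (fun q => z (Sum.inl q)) ∧
          (fun q => z (Sum.inr q)) ∈ T ∧
          (∀ i (l : Fin (n + 1)), (l : ℕ) < m → z (Sum.inr (i, l)) = 0) ∧
          ∀ i (l : Fin (n + 1)), (l : ℕ) = m →
            z (Sum.inr (i, l)) = (C *ᵥ vec f m fun q => z (Sum.inl q)) i} =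
      ⋃ j₀ ∈ (Finset.univ : Finset (Fin r)),
        {z : (Fin N × Fin (n + 1)) ⊕ (Fin s × Fin (n + 1)) → ℂ |
          (fun q => z (Sum.inl q)) ∈ E ∧ TF f m j₀ (fun q => z (Sum.inl q)) ∧
          (fun q => z (Sum.inr q)) ∈ T ∧
          (∀ i (l : Fin (n + 1)), (l : ℕ) < m → z (Sum.inr (i, l)) = 0) ∧
          ∀ i (l : Fin (n + 1)), (l : ℕ) = m →
            z (Sum.inr (i, l)) = (C *ᵥ vec f m fun q => z (Sum.inl q)) i} := by
    ext z
    simp only [Set.mem_ofPred_eq, Set.mem_iUnion, Finset.mem_univ, exists_prop, true_and, hiff]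
    constructor
    · rintro ⟨h1, ⟨j, h2⟩, h3⟩
      exact ⟨j, h1, h2, h3⟩
    · rintro ⟨j, h1, h2, h3⟩
      exact ⟨h1, ⟨j, h2⟩, h3⟩
  rw [e1, e2, cls_biUnion, cls_biUnion, Finset.mul_sum]
  · exact Finset.sum_congr rfl fun j₀ _ => cls_unif_aux f hm C j₀ hE hT
  · exact fun j₀ _ => A6_constr_right f C j₀ hE hT
  · intro j _ j' _ hjj
    rw [Set.disjoint_left]
    rintro z ⟨-, h1, -⟩ ⟨-, h2, -⟩
    exact hjj (hdis _ _ _ h1 h2)
  · exact fun j₀ _ => A6_constr_left f C j₀ hE hT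
  · intro j _ j' _ hjj
    rw [Set.disjoint_left]
    rintro z ⟨-, h1, -⟩ ⟨-, h2, -⟩
    exact hjj (hdis _ _ _ h1 h2)

end HY
end MotMono
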