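import Pool.Agent.Lib.MP_4e5fcd_ag.HY.B2
import Pool.Agent.Lib.MP_4e5fcd_ag.HY.A3
import Pool.Agent.Lib.MP_4e5fcd_ag.LF.X0
import Pool.Agent.Lib.MP_4e5fcd_ag.LF.X4

/-!
# HY-B3: the pairs `(γ, C)` with `C v = C v₀ = w`

`chi_aff`: `LF.chi_linFib` with `β = Empty`, `φ = 0`, `X = univ` (`k1_cls_one`), or `cls_submodule` and a translation.
`chi_fibC`: the set is `{C | C - C₁ ∈ W}`, `W = {C | C v = 0 ∧ C v₀ = 0}`, for a solution `C₁`, which exists: if `v`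
is not a multiple of `v₀ ≠ 0`, `v₀, v` are linearly independent and there is a linear map with
`v₀, v ↦ w` (extend to a basis: `Basis.extend`, `Basis.constr`, or take linear forms `a, b` with `a v₀ = 1`,
`a v = 0`, `b v = 1`, `b v₀ = 0`, from `exists_form`/`Submodule.exists_le_ker_of_notMem`, and `C i j = w i (a_j + b_j)`);
if `v = v₀` take a form `a` with `a v₀ = 1` and `C i j = w i a_j`.
`chi_GG`: let `X = {z : (Fin s × Fin r) ⊕ (Fin N × Fin (e + 1)) → ℂ | z ∘ swap ∈ GG ..}` (`RegIso.reindex (Equiv.sumComm ..)`),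
`Y = {γ | bp γ = p ∧ TO f e γ ∧ ((¬ ∃ c, vec f e γ = c • v₀) ∨ vec f e γ = v₀)}`. `LF.chi_fib_const` with `n = 1`: the fibre over
`γ ∈ Y` is the set of `chi_fibC`; for `γ ∉ Y` it is empty: if `vec f e γ = c • v₀`, `c ≠ 1`, then `C v₀ = w`,
`C (c • v₀) = w` give `(c - 1) • w = 0`. `Y` is the disjoint union of `CT f p v₀ e` and of
`{γ | bp γ = p ∧ TO f e γ ∧ ¬ ∃ c, vec f e γ = c • v₀}`, which has `χ = 0` by `chi_scale` (`vec_scale`, `to_scale`, `vec_const`).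
Constructibility: `constr_GG`, `constr_mult`, `constr_CT` (HY-A3).
-/

open MvPolynomial Matrix

namespace MotMono
namespace HY

open CN

variable {N r s : ℕ}

theorem chi_aff {σ : Type} [Finite σ] {χ : K0 →+* ℤ} (hχ : χ LL = 1)
    (W : Submodule ℂ (σ → ℂ)) (p₀ : σ → ℂ) : χ (cls {x : σ → ℂ | x - p₀ ∈ W}) = 1 := by
  have h := LF.chi_linFib (β := Empty) hχ W p₀ 0
    (fun y => ⟨0, W.zero_mem, Subsingleton.elim _ _⟩) (X := Set.univ) constr_univ
  rw [k1_cls_one, map_one] at h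
  rw [← h]
  congr 2
  ext x
  simp

/-- the linear map `C ↦ C u` -/
private noncomputable def b3_L (s : ℕ) (u : Fin r → ℂ) : (Fin s × Fin r → ℂ) →ₗ[ℂ] (Fin s → ℂ) :=
  LinearMap.pi fun i => ∑ j, u j • LinearMap.proj (i, j)

private theorem b3_L_apply (u : Fin r → ℂ) (C : Fin s × Fin r → ℂ) :
    b3_L s u C = (Matrix.of fun i j => C (i, j)) *ᵥ u := by
  funext i
  simp [b3_L, Matrix.mulVec, dotProduct, LinearMap.sum_apply, mul_comm]

private theorem b3_form {v v₀ : Fin r → ℂ} (hv₀ : v₀ ≠ 0)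
    (h : (¬ ∃ c : ℂ, v = c • v₀) ∨ v = v₀) :
    ∃ a : Fin r → ℂ, a ⬝ᵥ v = 1 ∧ a ⬝ᵥ v₀ = 1 := by
  classical
  obtain ⟨j, hj⟩ := Function.ne_iff.1 hv₀
  rw [Pi.zero_apply] at hj
  rcases h with h | h
  · have h1 : ∃ k, v k - v j / v₀ j * v₀ k ≠ 0 := by
      by_contra hne
      push Not at hne
      exact h ⟨v j / v₀ j, funext fun k => by
        rw [Pi.smul_apply, smul_eq_mul]
        exact sub_eq_zero.1 (hne k)⟩
    obtain ⟨k, hk⟩ := h1
    set c := v j / v₀ j with hc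
    set u := v k - c * v₀ k with hu
    refine ⟨Pi.single j (1 / v₀ j) + (Pi.single k ((1 - c) / u) -
      Pi.single j ((1 - c) / u * (v₀ k / v₀ j))), ?_, ?_⟩
    · rw [add_dotProduct, sub_dotProduct, single_dotProduct, single_dotProduct, single_dotProduct]
      have h2 : v j = c * v₀ j := by rw [hc]; field_simp
      rw [h2]
      have h3 : (1 - c) / u * v k - (1 - c) / u * (v₀ k / v₀ j) * (c * v₀ j) =
          (1 - c) / u * u := by
        rw [hu]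
        field_simp
      rw [h3, div_mul_cancel₀ _ hk]
      field_simp
      ring
    · rw [add_dotProduct, sub_dotProduct, single_dotProduct, single_dotProduct, single_dotProduct]
      field_simp
      ring
  · refine ⟨Pi.single j (1 / v₀ j), ?_, ?_⟩
    · rw [h, single_dotProduct]
      field_simp
    · rw [single_dotProduct]
      field_simp

theorem chi_fibC {χ : K0 →+* ℤ} (hχ : χ LL = 1) {v v₀ : Fin r → ℂ} (w : Fin s → ℂ)
    (hv₀ : v₀ ≠ 0) (h : (¬ ∃ c : ℂ, v = c • v₀) ∨ v = v₀) :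
    χ (cls {C : Fin s × Fin r → ℂ | (Matrix.of fun i j => C (i, j)) *ᵥ v = w ∧
      (Matrix.of fun i j => C (i, j)) *ᵥ v₀ = w}) = 1 := by
  obtain ⟨a, ha1, ha2⟩ := b3_form hv₀ h
  let C₁ : Fin s × Fin r → ℂ := fun q => w q.1 * a q.2
  have hC : ∀ u : Fin r → ℂ, a ⬝ᵥ u = 1 → b3_L s u C₁ = w := by
    intro u hu
    rw [b3_L_apply]
    funext i
    have h1 : (fun j => w i * a j) ⬝ᵥ u = w i * (a ⬝ᵥ u) := by
      simp only [dotProduct, Finset.mul_sum, mul_assoc]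
    change (fun j => w i * a j) ⬝ᵥ u = w i
    rw [h1, hu, mul_one]
  have h1 := chi_aff hχ (LinearMap.ker (b3_L s v) ⊓ LinearMap.ker (b3_L s v₀)) C₁
  rw [← h1]
  congr 2
  ext C
  rw [Set.mem_ofPred_eq, Set.mem_ofPred_eq, Submodule.mem_inf, LinearMap.mem_ker,
    LinearMap.mem_ker, map_sub, map_sub, hC v ha1, hC v₀ ha2, sub_eq_zero, sub_eq_zero,
    b3_L_apply, b3_L_apply]

theorem chi_GG {χ : K0 →+* ℤ} (hχ : IsEulerCharF χ) (f : Fin r → MvPolynomial (Fin N) ℂ)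
    (p : Fin N → ℂ) {v₀ : Fin r → ℂ} (hv₀ : v₀ ≠ 0) {w : Fin s → ℂ} (hw : w ≠ 0) {e : ℕ}
    (he : 0 < e) : χ (cls (GG f p v₀ w e)) = χ (cls (CT f p v₀ e)) := by
  set Z : Set (Fin N × Fin (e + 1) → ℂ) :=
    {γ | bp γ = p ∧ TO f e γ ∧ ¬ ∃ c : ℂ, vec f e γ = c • v₀} with hZ
  have hcZ : Constr Z := by
    have e1 : Z = ({γ : Fin N × Fin (e + 1) → ℂ | bp γ = p} ∩
        {γ : Fin N × Fin (e + 1) → ℂ | TO f e γ}) \
        {γ : Fin N × Fin (e + 1) → ℂ | ∃ c : ℂ, vec f e γ = c • v₀} := by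
      ext γ
      simp only [hZ, Set.mem_ofPred_eq, Set.mem_sdiff, Set.mem_inter_iff, and_assoc]
    rw [e1]
    exact ((constr_bp p).inter (constr_TO f e)).diff (constr_mult f e v₀)
  have hcC := constr_CT f p v₀ e
  have hdis : Disjoint (CT f p v₀ e) Z := by
    rw [Set.disjoint_left]
    rintro γ ⟨-, -, h1⟩ ⟨-, -, h2⟩
    exact h2 ⟨1, by rw [h1, one_smul]⟩
  have hZ0 : χ (cls Z) = 0 := by
    refine chi_scale hχ hcZ (fun γ hγ => hγ.1) ?_ ?_
    · rintro c hc γ ⟨h1, h2, h3⟩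
      refine ⟨?_, to_scale f c h2, ?_⟩
      · rw [← h1]
        funext i
        simp [bp]
      · rintro ⟨c', hc'⟩
        rw [vec_scale] at hc'
        refine h3 ⟨(c ^ e)⁻¹ * c', ?_⟩
        rw [mul_smul, ← hc', smul_smul, inv_mul_cancel₀ (pow_ne_zero _ hc), one_smul]
    · rintro ⟨-, -, h3⟩
      exact h3 ⟨0, by rw [vec_const he, zero_smul]⟩
  have hY : Constr (CT f p v₀ e ∪ Z) := hcC.union hcZ
  have hYχ : χ (cls (CT f p v₀ e ∪ Z)) = χ (cls (CT f p v₀ e)) := by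
    rw [cls_union hcC hcZ hdis, map_add, hZ0, add_zero]
  have hG := constr_GG f p v₀ w e
  have hR := RegIso.reindex (Equiv.sumComm (Fin N × Fin (e + 1)) (Fin s × Fin r)) (GG f p v₀ w e)
  set K : Set ((Fin s × Fin r) ⊕ (Fin N × Fin (e + 1)) → ℂ) :=
    {y | (fun i => y (Equiv.sumComm (Fin N × Fin (e + 1)) (Fin s × Fin r) i)) ∈
      GG f p v₀ w e} with hK
  have hK' : Constr K := hG.comp (Equiv.sumComm (Fin N × Fin (e + 1)) (Fin s × Fin r))
  rw [cls_iso hG hK' hR, ← hYχ]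
  have hmem : ∀ (x : Fin s × Fin r → ℂ) (γ : Fin N × Fin (e + 1) → ℂ), Sum.elim x γ ∈ K ↔
      (bp γ = p ∧ TO f e γ ∧ (Matrix.of fun i j => x (i, j)) *ᵥ vec f e γ = w) ∧
        (Matrix.of fun i j => x (i, j)) *ᵥ v₀ = w := by
    intro x γ
    rfl
  have key := LF.chi_fib_const hχ hK' hY 1 ?_ ?_
  · rw [key, one_mul]
  · intro γ hγ
    have h1 : bp γ = p ∧ TO f e γ ∧ ((¬ ∃ c : ℂ, vec f e γ = c • v₀) ∨ vec f e γ = v₀) := by
      rcases hγ with ⟨h1, h2, h3⟩ | ⟨h1, h2, h3⟩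
      · exact ⟨h1, h2, Or.inr h3⟩
      · exact ⟨h1, h2, Or.inl h3⟩
    obtain ⟨h2, h3, h4⟩ := h1
    rw [← chi_fibC hχ.line w hv₀ h4]
    congr 2
    ext x
    rw [Set.mem_ofPred_eq, hmem, Set.mem_ofPred_eq]
    exact ⟨fun h => ⟨h.1.2.2, h.2⟩, fun h => ⟨⟨h2, h3, h.1⟩, h.2⟩⟩
  · intro γ hγ x hx
    rw [hmem] at hx
    obtain ⟨⟨h1, h2, h3⟩, h4⟩ := hx
    apply hγ
    by_cases h5 : ∃ c : ℂ, vec f e γ = c • v₀
    · obtain ⟨c, hc⟩ := h5
      left
      refine ⟨h1, h2, ?_⟩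
      rw [hc, Matrix.mulVec_smul, h4] at h3
      have h6 : (c - 1) • w = 0 := by rw [sub_smul, one_smul, h3, sub_self]
      rcases smul_eq_zero.1 h6 with h7 | h7
      · rw [hc, sub_eq_zero.1 h7, one_smul]
      · exact absurd h7 hw
    · exact Or.inr ⟨h1, h2, h5⟩

end HY
end MotMono
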