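import Pool.Agent.Lib.MP_4e5fcd_ag.HY.Base
import Pool.Agent.Lib.MP_4e5fcd_ag.CN.V4
import Pool.Agent.Lib.MP_4e5fcd_ag.CN.P2

/-!
# HY-R0: periodic Lefschetz numbers and étale coordinates

`perAt_of_ne`: `p` is not a zero of `I`: there is no jet as in the definition (`LF.coeff_along_zero`).
`perAt_chart`: as `vis_push` (TV/E1); `perAt_push`: as `vis_chart` (CN/V2). `per_of_locPull`: the neighbourhood is given by
`h * jacDet u * g(u)`.
-/

open MvPolynomial

namespace MotMono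
namespace HY

open CN

theorem perAt_of_ne {N : ℕ} {χ : K0 →+* ℤ} {I : Ideal (MvPolynomial (Fin N) ℂ)} {p : Fin N → ℂ}
    (h : ∃ f ∈ I, eval p f ≠ 0) : PerAt χ I p := by
  refine ⟨1, one_pos, fun n γ₀ hn hb ho _ d _ => ?_⟩
  exfalso
  obtain ⟨f, hf, hf0⟩ := h
  apply hf0
  rw [← ho f hf 0 hn, LF.coeff_along_zero, ← hb]
  rfl

theorem perAt_chart {N k : ℕ} {I : Ideal (MvPolynomial (Fin N) ℂ)}
    {G : Ideal (MvPolynomial (Fin k) ℂ)} {u : Fin N → MvPolynomial (Fin N) ℂ}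
    {e : Fin k → Fin N} {h : MvPolynomial (Fin N) ℂ} {χ : K0 →+* ℤ} (hχ : IsEulerCharF χ)
    (c : Chart I G u e h) (p : Fin N → ℂ) (hp : eval p h ≠ 0) (hj : eval p (jacDet u) ≠ 0)
    (hG : PerAt χ G fun i => eval p (u (e i))) : PerAt χ I p := by
  obtain ⟨M, hM, hG⟩ := hG
  refine ⟨M, hM, fun n γ₀ hn hb ho hne d hd => ?_⟩
  have hp' : eval (bp γ₀) h ≠ 0 := by rw [hb]; exact hp
  have hj' : eval (bp γ₀) (jacDet u) ≠ 0 := by rw [hb]; exact hj
  have hb' : bp (cj (fun i => u (e i)) γ₀) = fun i => eval p (u (e i)) := by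
    rw [bp_cj, hb]
  have h1 := chi_CA_chart hχ c γ₀ hp' hj' ho d
  have h2 := chi_CA_chart hχ c γ₀ hp' hj' ho (Nat.gcd d M)
  rw [hb', hb] at h1 h2
  rw [h1, h2]
  exact hG n _ hn hb' ((ordGe_chart c γ₀ hp' (Nat.le_succ n)).1 ho) ((ne_chart c γ₀ hp' ho).1 hne)
    d hd

theorem perAt_push {N k : ℕ} {I : Ideal (MvPolynomial (Fin N) ℂ)}
    {G : Ideal (MvPolynomial (Fin k) ℂ)} {u : Fin N → MvPolynomial (Fin N) ℂ}
    {e : Fin k → Fin N} {h : MvPolynomial (Fin N) ℂ} {χ : K0 →+* ℤ} (hχ : IsEulerCharF χ)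
    (c : Chart I G u e h) (p : Fin N → ℂ) (hp : eval p h ≠ 0) (hj : eval p (jacDet u) ≠ 0)
    (hI : PerAt χ I p) : PerAt χ G fun i => eval p (u (e i)) := by
  classical
  obtain ⟨M, hM, hI⟩ := hI
  refine ⟨M, hM, fun n δ hn hb ho hne d hd => ?_⟩
  obtain ⟨Ψ, -, hΨ, -⟩ := exists_lift u n
  set z : Fin N ⊕ (Fin N × Fin (n + 1)) → ℂ :=
    Sum.elim p (fun q => if h : ∃ i, e i = q.1 then δ (h.choose, q.2) else 0) with hz
  obtain ⟨h1, h2⟩ := hΨ z hj
  have hbp : bp (Ψ z) = p := funext fun i => h1 i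
  have hcj : cj (fun i => u (e i)) (Ψ z) = δ := by
    funext q
    obtain ⟨i, l⟩ := q
    by_cases hl : l = 0
    · subst hl
      have h3 := congrFun (bp_cj (fun i => u (e i)) (Ψ z)) i
      have h4 := congrFun hb i
      unfold bp at h3 h4
      rw [h3, h4]
      show eval (bp (Ψ z)) (u (e i)) = eval p (u (e i))
      rw [hbp]
    · have h3 := h2 (e i) l hl
      have h4 : ∃ j, e j = e i := ⟨i, rfl⟩
      have h5 : h4.choose = i := c.inj h4.choose_spec
      have h6 : z (Sum.inr (e i, l)) = δ (i, l) := by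
        show (if h : ∃ j, e j = e i then δ (h.choose, l) else 0) = δ (i, l)
        rw [dif_pos h4, h5]
      rw [← h6, ← h3]
      rfl
  have hp' : eval (bp (Ψ z)) h ≠ 0 := by rw [hbp]; exact hp
  have hj' : eval (bp (Ψ z)) (jacDet u) ≠ 0 := by rw [hbp]; exact hj
  have ho' : OrdGe I n (Ψ z) := by
    rw [ordGe_chart c (Ψ z) hp' (Nat.le_succ n), hcj]
    exact ho
  have hfun : ∀ d, χ (cls (CA I p (fun f => (along f (Ψ z)).coeff n) d)) =
      χ (cls (CA G (fun i => eval p (u (e i))) (fun f => (along f δ).coeff n) d)) := by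
    intro d
    have h3 := chi_CA_chart hχ c (Ψ z) hp' hj' ho' d
    rw [hcj, hb, hbp] at h3
    exact h3
  rw [← hfun, ← hfun]
  refine hI n (Ψ z) hn hbp ho' ?_ d hd
  rw [ne_chart c (Ψ z) hp' ho', hcj]
  exact hne

theorem perAt_of_locPull {N k : ℕ} {χ : K0 →+* ℤ} (hχ : IsEulerCharF χ)
    (I : Ideal (MvPolynomial (Fin N) ℂ)) (p : Fin N → ℂ) (G : Ideal (MvPolynomial (Fin k) ℂ))
    (h : LocPull I p G) (hG : PerAt χ G 0) : PerAt χ I p := by
  obtain ⟨u, e, h, hinj, hh, hj, h0, hpush, hpull⟩ := h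
  have c : Chart I G u e h := ⟨hinj, hpush, hpull⟩
  refine perAt_chart hχ c p hh hj ?_
  have e0 : (fun i => eval p (u (e i))) = 0 := funext h0
  rw [e0]
  exact hG

private theorem r0_eval {N k : ℕ} (v : Fin k → MvPolynomial (Fin N) ℂ)
    (g : MvPolynomial (Fin k) ℂ) (p : Fin N → ℂ) :
    eval p (aeval v g) = eval (fun i => eval p (v i)) g := by
  induction g using MvPolynomial.induction_on with
  | C a => simp
  | add a b ha hb => simp only [map_add, ha, hb]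
  | mul_X a i ha => simp only [map_mul, ha, aeval_X, eval_X]

theorem per_of_locPull {N k : ℕ} {χ : K0 →+* ℤ} (hχ : IsEulerCharF χ)
    (I : Ideal (MvPolynomial (Fin N) ℂ)) (p : Fin N → ℂ) (G : Ideal (MvPolynomial (Fin k) ℂ))
    (h : LocPull I p G) (hG : Per χ G 0) : Per χ I p := by
  obtain ⟨u, e, h, hinj, hh, hj, h0, hpush, hpull⟩ := h
  obtain ⟨g, hg, hG⟩ := hG
  have c : Chart I G u e h := ⟨hinj, hpush, hpull⟩
  refine ⟨h * jacDet u * aeval (fun i => u (e i)) g, ?_, fun q hq => ?_⟩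
  · rw [map_mul, map_mul, r0_eval]
    have e0 : (fun i => eval p (u (e i))) = 0 := funext h0
    rw [e0]
    exact mul_ne_zero (mul_ne_zero hh hj) hg
  · rw [map_mul, map_mul] at hq
    refine perAt_chart hχ c q (left_ne_zero_of_mul (left_ne_zero_of_mul hq))
      (right_ne_zero_of_mul (left_ne_zero_of_mul hq)) (hG _ ?_)
    rw [← r0_eval]
    exact right_ne_zero_of_mul hq

end HY
end MotMono
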