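import Pool.Agent.Lib.MP_4e5fcd_ag.HY.R0
import Pool.Agent.Lib.MP_4e5fcd_ag.CN.L3
import Pool.Agent.Lib.MP_4e5fcd_ag.LF.S3

/-!
# HY-R1: products of linear forms

`lin_zero`: `L = ⟨lam, W, 1, 0⟩`, `η` the leading coefficients of `γ₀`, `S = {g | η_g ≠ 0}`. For `d ≥ 1`
`CA L.J 0 η d = XX L d S (Th W S η)` (`mem_CA_span`, `along_gen_lt_iff`, `along_gen_coeff`), and by
`struct_formula` (LF/S3) its Euler characteristic depends only on the divisors of `d` among the numbers
`pair (W g) u`; `M` is the product of all these numbers (all `S`).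
`per_lin`: `lin_data`, `locPull_van` (CN/L1).
-/

open MvPolynomial

namespace MotMono
namespace HY

open CN

private theorem r1_dvd {M e d : ℕ} (h : e ∣ M) : e ∣ d ↔ e ∣ Nat.gcd d M :=
  ⟨fun h1 => Nat.dvd_gcd h1 h, fun h1 => h1.trans (Nat.gcd_dvd_left d M)⟩

theorem lin_zero {J G : Type} [Fintype J] [Fintype G] {N : ℕ} {χ : K0 →+* ℤ}
    (hχ : IsEulerCharF χ) (lam : J → Fin N → ℂ) (hlam : ∀ i, lam i ≠ 0) (W : G → J → ℕ) :
    PerAt χ (LI lam W fun _ => 1) 0 := by
  classical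
  set L : LF.Loc J G N := ⟨lam, W, fun _ => 1, 0, hlam, fun i => by simp, fun g => by simp⟩ with hL
  have hgen : ∀ g, L.gen g = lg lam W (fun _ => 1) g := fun g => rfl
  have hI : LI lam W (fun _ => 1) = Ideal.span (Set.range L.gen) := rfl
  set DS : Finset G → Finset J := fun S => Finset.univ.filter fun i => ∃ g ∈ S, W g i ≠ 0 with hDS
  have hD : ∀ (S : Finset G) (i : J), i ∈ DS S ↔ ∃ g ∈ S, L.w g i ≠ 0 := by
    intro S i
    simp [hDS, hL]
  set F : Finset G → Finset G → Finset (J → ℕ) := fun S T =>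
    (LF.finite_UU L.a L.w S (DS S) T).toFinset with hF
  have hpos : ∀ S T, ∀ u ∈ F S T, 0 < ∏ g ∈ S, pair (L.w g) u := by
    intro S T u hu
    have hu' := (Set.Finite.mem_toFinset _).1 hu
    exact Finset.prod_pos (LF.UU_pos hu').2
  refine ⟨∏ S : Finset G, ∏ T : Finset G, ∏ u ∈ F S T, ∏ g ∈ S, pair (L.w g) u,
    Finset.prod_pos fun S _ => Finset.prod_pos fun T _ => Finset.prod_pos fun u hu =>
      hpos S T u hu, ?_⟩
  set M := ∏ S : Finset G, ∏ T : Finset G, ∏ u ∈ F S T, ∏ g ∈ S, pair (L.w g) u with hM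
  have hdvd : ∀ S T, ∀ u ∈ F S T, ∀ g ∈ S, pair (L.w g) u ∣ M := by
    intro S T u hu g hg
    calc pair (L.w g) u ∣ ∏ g ∈ S, pair (L.w g) u :=
        Finset.dvd_prod_of_mem (fun g => pair (L.w g) u) hg
      _ ∣ ∏ u ∈ F S T, ∏ g ∈ S, pair (L.w g) u :=
        Finset.dvd_prod_of_mem (fun u => ∏ g ∈ S, pair (L.w g) u) hu
      _ ∣ ∏ T : Finset G, ∏ u ∈ F S T, ∏ g ∈ S, pair (L.w g) u :=
        Finset.dvd_prod_of_mem (fun T => ∏ u ∈ F S T, ∏ g ∈ S, pair (L.w g) u)
          (Finset.mem_univ T)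
      _ ∣ M := Finset.dvd_prod_of_mem
        (fun S => ∏ T : Finset G, ∏ u ∈ F S T, ∏ g ∈ S, pair (L.w g) u) (Finset.mem_univ S)
  intro n γ₀ hn hb ho hne d hd
  rw [hI] at ho hne ⊢
  have h0 : ∀ j, γ₀ (j, 0) = L.p j := fun j => congrFun hb j
  set η : G → ℂ := fun g => (along (L.gen g) γ₀).coeff n with hη
  set S : Finset G := Finset.univ.filter fun g => η g ≠ 0 with hS
  have hSne : S.Nonempty := by
    have h1 : γ₀ ∈ ExOrd (Ideal.span (Set.range L.gen)) n := ⟨ho, hne⟩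
    rw [exOrd_span] at h1
    obtain ⟨_, f, ⟨g, rfl⟩, hf⟩ := h1
    exact ⟨g, by simp only [hS, Finset.mem_filter, Finset.mem_univ, true_and]; exact hf⟩
  -- the sets of contact jets
  have key : ∀ m, 1 ≤ m → CA (Ideal.span (Set.range L.gen)) 0 (fun f => (along f γ₀).coeff n) m =
      LF.XX L m S (LF.Th L.w S η) := by
    intro m hm
    ext γ
    have h1 := mem_CA_span (Set.range L.gen) γ₀ ho (m := m) γ
    rw [hb] at h1
    rw [h1]
    constructor
    · rintro ⟨h2, h3⟩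
      have h2' : ∀ j, γ (j, 0) = L.p j := fun j => congrFun h2 j
      have hin : ∀ g ∈ S, pair (L.w g) (fun i => LF.vv L.a γ i + 1) = m := by
        intro g hg
        have hg' : η g ≠ 0 := (Finset.mem_filter.1 hg).2
        obtain ⟨hc1, hc2⟩ := h3 _ ⟨g, rfl⟩
        have h4 := (LF.along_gen_lt_iff L h2' g (k := m) (by omega)).1 hc1
        have h5 : ¬ m + 1 ≤ pair (L.w g) (fun i => LF.vv L.a γ i + 1) := by
          intro h5
          have h6 := (LF.along_gen_lt_iff L h2' g (k := m + 1) le_rfl).2 h5 m (Nat.lt_succ_self m)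
          rw [h6] at hc2
          exact hg' hc2.symm
        omega
      refine ⟨h2', fun g hg => ?_, fun g hg => ?_, fun g hg => ?_⟩
      · rw [hin g hg]
      · rw [← LF.along_gen_lt_iff L h2' g le_rfl]
        intro l hl
        rcases Nat.lt_succ_iff_lt_or_eq.mp hl with hl | rfl
        · exact (h3 _ ⟨g, rfl⟩).1 l hl
        · rw [(h3 _ ⟨g, rfl⟩).2]
          by_contra hcon
          exact hg (by simp only [hS, Finset.mem_filter, Finset.mem_univ, true_and]; exact hcon)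
      · have h7 := (h3 _ ⟨g, rfl⟩).2
        rw [LF.along_gen_coeff L h2' g (hin g hg) le_rfl] at h7
        have h8 : eval L.p (L.V g) = 1 := by simp [hL]
        rw [h8, one_mul] at h7
        exact h7
    · rintro ⟨h2, h3, h4, h5⟩
      refine ⟨funext h2, ?_⟩
      rintro f ⟨g, rfl⟩
      by_cases hg : g ∈ S
      · have h6 : pair (L.w g) (fun i => LF.vv L.a γ i + 1) = m := by
          have := h3 g hg
          omega
        refine ⟨(LF.along_gen_lt_iff L h2 g (by omega)).2 h6.ge, ?_⟩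
        rw [LF.along_gen_coeff L h2 g h6 le_rfl, h5 g hg]
        have h8 : eval L.p (L.V g) = 1 := by simp [hL]
        rw [h8, one_mul]
      · have h6 := (LF.along_gen_lt_iff L h2 g (k := m + 1) le_rfl).2 (h4 g hg)
        refine ⟨fun l hl => h6 l (by omega), ?_⟩
        rw [h6 m (Nat.lt_succ_self m)]
        by_contra hcon
        exact hg (by
          simp only [hS, Finset.mem_filter, Finset.mem_univ, true_and]
          exact fun h => hcon h.symm)
  have hd' : 1 ≤ Nat.gcd d M := Nat.gcd_pos_of_pos_left _ hd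
  rw [key d hd, key _ hd', LF.struct_formula hχ L S (DS S) (hD S) hSne hd,
    LF.struct_formula hχ L S (DS S) (hD S) hSne hd']
  refine Finset.sum_congr rfl fun T _ => Finset.sum_congr rfl fun u hu => ?_
  have h9 : (∀ g ∈ S, pair (L.w g) u ∣ d) ↔ ∀ g ∈ S, pair (L.w g) u ∣ Nat.gcd d M :=
    forall₂_congr fun g hg => r1_dvd (hdvd S T u hu g hg)
  by_cases hc : ∀ g ∈ S, pair (L.w g) u ∣ d
  · rw [if_pos hc, if_pos (h9.1 hc)]
  · rw [if_neg hc, if_neg fun h => hc (h9.2 h)]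

theorem per_lin {N : ℕ} {χ : K0 →+* ℤ} (hχ : IsEulerCharF χ)
    (P : Set (MvPolynomial (Fin N) ℂ)) (hP : ∀ f ∈ P, IsProdLin f) (h0 : ∃ f ∈ P, f ≠ 0)
    (h1 : ∀ f ∈ P, eval 0 f = 0) : Per χ (Ideal.span P) 0 := by
  obtain ⟨J, G, _, _, _, lam, W, U, hlam, hU, hW, hI⟩ := lin_data P hP h0 h1
  rw [hI]
  refine ⟨∏ g, U g, ?_, fun q hq => ?_⟩
  · rw [map_prod]
    exact Finset.prod_ne_zero_iff.2 fun g _ => hU g
  · rw [map_prod, Finset.prod_ne_zero_iff] at hq
    exact perAt_of_locPull hχ _ q _ (locPull_van lam W U q fun g => hq g (Finset.mem_univ g))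
      (lin_zero hχ lam hlam _)

end HY
end MotMono
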